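import Mathlib

set_option autoImplicit false
set_option linter.unusedSectionVars false

open Finset
open scoped BigOperators

namespace Pool.Agent.Lib.MP_3bba25_lc

variable {F : Type} [Field F] {Q : Type} [Fintype Q] [DecidableEq Q]

/-- Evaluation of a coefficient vector. -/
def ev {d : ℕ} (w : Fin d → F) (r : F) : F := ∑ k, w k * r ^ (k : ℕ)

lemma ev_add {d : ℕ} (w w' : Fin d → F) (r : F) : ev (w + w') r = ev w r + ev w' r := by
  simp only [ev, Pi.add_apply, add_mul, sum_add_distrib]

/-- Coefficients of a product of two polynomials. -/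
def cv (m : ℕ) (κ : Q → ℕ) (a b : Q → F) : Fin (2 * m + 1) → F :=
  fun k => ∑ q, ∑ q', if κ q + (m - κ q') = (k : ℕ) then a q * b q' else 0

lemma ev_cv (m : ℕ) (κ : Q → ℕ) (hκ : ∀ q, κ q ≤ m) (a b : Q → F) (r : F) :
    ev (cv m κ a b) r = (∑ q, a q * r ^ κ q) * ∑ q, b q * r ^ (m - κ q) := by
  simp only [ev, cv, sum_mul]
  rw [sum_comm]
  refine sum_congr rfl fun q _ => ?_
  rw [sum_comm, mul_sum]
  refine sum_congr rfl fun q' _ => ?_
  have h : κ q + (m - κ q') < 2 * m + 1 := by have := hκ q; omega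
  rw [sum_eq_single (⟨_, h⟩ : Fin (2 * m + 1))]
  · simp only [if_true, pow_add]; ring
  · intro k _ hk
    rw [if_neg fun h' => hk (Fin.ext h'.symm), zero_mul]
  · simp

lemma cv_mid (m : ℕ) (κ : Q → ℕ) (hκ : ∀ q, κ q ≤ m) (hi : Function.Injective κ) (a b : Q → F) :
    cv m κ a b ⟨m, by omega⟩ = ∑ q, a q * b q := by
  simp only [cv]
  refine sum_congr rfl fun q _ => ?_
  rw [sum_eq_single q]
  · rw [if_pos (by have := hκ q; omega)]
  · intro q' _ hq
    refine if_neg fun h => hq (hi ?_)
    have := hκ q'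
    omega
  · simp

lemma card_agree {d : ℕ} (w w' : Fin (d + 1) → F) (h : w ≠ w') (s : Finset F)
    (hs : ∀ r ∈ s, ev w r = ev w' r) : s.card ≤ d := by
  by_contra! hc
  let P : Polynomial F := ∑ k : Fin (d + 1), Polynomial.monomial (k : ℕ) (w k - w' k)
  have h1 : P.natDegree ≤ d := by
    refine Polynomial.natDegree_sum_le_of_forall_le _ _ fun k _ => ?_
    exact (Polynomial.natDegree_monomial_le _).trans (Nat.lt_succ_iff.mp k.2)
  have h2 : P = 0 := by
    refine Polynomial.eq_zero_of_natDegree_lt_card_of_eval_eq_zero' P s (fun r hr => ?_) (by omega)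
    simp only [P, Polynomial.eval_finsetSum, Polynomial.eval_monomial, sub_mul, sum_sub_distrib]
    exact sub_eq_zero.mpr (hs r hr)
  refine h (funext fun k => ?_)
  have h3 := congrArg (fun p : Polynomial F => p.coeff k) h2
  simp only [P, Polynomial.finsetSum_coeff, Polynomial.coeff_monomial, Polynomial.coeff_zero,
    Fin.val_inj, sum_ite_eq', mem_univ, if_true] at h3
  exact sub_eq_zero.mp h3

end Pool.Agent.Lib.MP_3bba25_lc
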