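import Mathlib

set_option autoImplicit false

open Finset
open scoped BigOperators

namespace Pool.Agent.Lib.MP_3bba25_lc

/-- The sign attached to a bit. -/
def sg (b : Bool) : ℝ := if b then -1 else 1

@[simp] lemma sg_true : sg true = -1 := rfl
@[simp] lemma sg_false : sg false = 1 := rfl
lemma sg_xor (a b : Bool) : sg (xor a b) = sg a * sg b := by cases a <;> cases b <;> simp
lemma sg_mul_self (a : Bool) : sg a * sg a = 1 := by cases a <;> simp
lemma sg_sq (a : Bool) : sg a ^ 2 = 1 := by cases a <;> simp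
lemma abs_sg (a : Bool) : |sg a| = 1 := by cases a <;> simp
lemma sg_not (a : Bool) : sg (!a) = -sg a := by cases a <;> simp

lemma expect_prod {ι W : Type} [Fintype ι] [DecidableEq ι] [Fintype W] (f : ι → W → ℝ) :
    𝔼 u : ι → W, ∏ i, f i (u i) = ∏ i, 𝔼 w, f i w := by
  simp only [Fintype.expect_eq_sum_div_card, prod_div_distrib, prod_const, card_univ]
  rw [Fintype.card_pi, prod_const, card_univ, Nat.cast_pow, prod_univ_sum, Fintype.piFinset_univ]

lemma expect_bool (f : Bool → ℝ) : 𝔼 b, f b = (f true + f false) / 2 := by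
  rw [Fintype.expect_eq_sum_div_card, Fintype.sum_bool, Fintype.card_bool]
  norm_num

variable {ι : Type} [Fintype ι] [DecidableEq ι]

/-- Characters of the Boolean cube. -/
def chi (U : Finset ι) (z : ι → Bool) : ℝ := ∏ k ∈ U, sg (z k)

/-- Bitwise exclusive or. -/
def bx (x y : ι → Bool) : ι → Bool := fun k => xor (x k) (y k)

omit [Fintype ι] [DecidableEq ι] in
lemma chi_bx (U : Finset ι) (x y : ι → Bool) : chi U (bx x y) = chi U x * chi U y := by
  simp [chi, bx, sg_xor, prod_mul_distrib]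

omit [Fintype ι] [DecidableEq ι] in
lemma bx_comm (x y : ι → Bool) : bx x y = bx y x := by
  funext k; simp [bx, Bool.xor_comm]

omit [Fintype ι] [DecidableEq ι] in
@[simp] lemma chi_empty (z : ι → Bool) : chi ∅ z = 1 := by simp [chi]

lemma chi_eq_prod (U : Finset ι) (z : ι → Bool) :
    chi U z = ∏ k, (if k ∈ U then sg (z k) else 1) := by
  rw [chi, ← prod_filter]
  congr 1
  ext; simp

lemma expect_chi_mul (U V : Finset ι) :
    𝔼 z : ι → Bool, chi U z * chi V z = if U = V then 1 else 0 := by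
  simp only [chi_eq_prod, ← prod_mul_distrib]
  rw [expect_prod (fun k b => (if k ∈ U then sg b else 1) * (if k ∈ V then sg b else 1))]
  split_ifs with h
  · subst h
    refine prod_eq_one fun k _ => ?_
    rw [expect_bool]
    by_cases hk : k ∈ U <;> simp [hk]
  · obtain ⟨k, hk⟩ : ∃ k, ¬ (k ∈ U ↔ k ∈ V) := by
      by_contra! h'
      exact h (Finset.ext h')
    refine prod_eq_zero (mem_univ k) ?_
    rw [expect_bool]
    by_cases h1 : k ∈ U <;> by_cases h2 : k ∈ V <;> simp_all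

/-- The xor with a fixed vector is a bijection of the cube. -/
lemma expect_bx (F : (ι → Bool) → ℝ) (x : ι → Bool) : 𝔼 y, F (bx x y) = 𝔼 z, F z := by
  have h : Function.Involutive (bx x) := by
    intro y; funext k; simp [bx]
  exact Fintype.expect_equiv h.toPerm _ _ fun _ => rfl

lemma expect_expect_bx (F : (ι → Bool) → ℝ) : 𝔼 x, 𝔼 y, F (bx x y) = 𝔼 z, F z := by
  simp [expect_bx]

lemma two_point_aux (e u : ℝ) (n : ℕ) :
    0 ≤ e * u * ((e + u) ^ (2 * n) - (e - u) ^ (2 * n)) ∧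
    e * u * ((e + u) ^ (2 * n) - (e - u) ^ (2 * n)) ≤
      (2 * n) * u ^ 2 * ((e + u) ^ (2 * n) + (e - u) ^ (2 * n)) := by
  induction n with
  | zero => simp
  | succ n ih =>
    obtain ⟨h1, h2⟩ := ih
    have ha : 0 ≤ (e + u) ^ (2 * n) := Even.pow_nonneg ⟨n, two_mul n⟩ _
    have hb : 0 ≤ (e - u) ^ (2 * n) := Even.pow_nonneg ⟨n, two_mul n⟩ _
    set a := (e + u) ^ (2 * n)
    set b := (e - u) ^ (2 * n)
    have e1 : (e + u) ^ (2 * (n + 1)) = a * (e + u) ^ 2 := by rw [mul_add, pow_add]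
    have e2 : (e - u) ^ (2 * (n + 1)) = b * (e - u) ^ 2 := by rw [mul_add, pow_add]
    rw [e1, e2]
    have hs : 0 ≤ e ^ 2 + u ^ 2 := by positivity
    have k1 : e * u * (a * (e + u) ^ 2 - b * (e - u) ^ 2) =
        (e ^ 2 + u ^ 2) * (e * u * (a - b)) + 2 * (e * u) ^ 2 * (a + b) := by ring
    have k2 : a * (e + u) ^ 2 + b * (e - u) ^ 2 =
        (e ^ 2 + u ^ 2) * (a + b) + 2 * (e * u * (a - b)) := by ring
    rw [k1, k2]
    refine ⟨by positivity, ?_⟩
    have k3 := mul_le_mul_of_nonneg_left h2 hs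
    have k4 : 0 ≤ ((2 : ℝ) * (n + 1 : ℕ)) * u ^ 2 * (2 * (e * u * (a - b))) := by positivity
    have k5 : 0 ≤ u ^ 4 * (a + b) := by positivity
    push_cast at k4 ⊢
    nlinarith

lemma two_point_aux2 (e u : ℝ) (s n : ℕ) (hn : n ≤ s) :
    (e + u) ^ (2 * n) + (e - u) ^ (2 * n) ≤ 2 * (e ^ 2 + 4 * s * u ^ 2) ^ n := by
  induction n with
  | zero => norm_num
  | succ n ih =>
    have ih := ih (by omega)
    obtain ⟨_, h2⟩ := two_point_aux e u n
    have ha : 0 ≤ (e + u) ^ (2 * n) := Even.pow_nonneg ⟨n, two_mul n⟩ _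
    have hb : 0 ≤ (e - u) ^ (2 * n) := Even.pow_nonneg ⟨n, two_mul n⟩ _
    set a := (e + u) ^ (2 * n)
    set b := (e - u) ^ (2 * n)
    have e1 : (e + u) ^ (2 * (n + 1)) = a * (e + u) ^ 2 := by rw [mul_add, pow_add]
    have e2 : (e - u) ^ (2 * (n + 1)) = b * (e - u) ^ 2 := by rw [mul_add, pow_add]
    have k2 : a * (e + u) ^ 2 + b * (e - u) ^ 2 =
        (e ^ 2 + u ^ 2) * (a + b) + 2 * (e * u * (a - b)) := by ring
    rw [e1, e2, k2, pow_succ (e ^ 2 + 4 * s * u ^ 2)]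
    have hs : (n : ℝ) + 1 ≤ s := by exact_mod_cast hn
    have h3 : (e ^ 2 + u ^ 2) * (a + b) + 2 * (e * u * (a - b)) ≤
        (e ^ 2 + 4 * s * u ^ 2) * (a + b) := by
      have : 0 ≤ (4 * (s : ℝ) - 4 * n - 1) * (u ^ 2 * (a + b)) :=
        mul_nonneg (by linarith) (by positivity)
      nlinarith
    refine h3.trans ?_
    have : 0 ≤ e ^ 2 + 4 * s * u ^ 2 := by positivity
    nlinarith [mul_le_mul_of_nonneg_left ih this]

lemma two_point (e d ρ : ℝ) (s : ℕ) (hρ : ρ ^ 2 * (4 * s) ≤ 1) :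
    ((e + ρ * d) ^ (2 * s) + (e - ρ * d) ^ (2 * s)) / 2 ≤ (e ^ 2 + d ^ 2) ^ s := by
  have h := two_point_aux2 e (ρ * d) s s le_rfl
  have h2 : (e ^ 2 + 4 * s * (ρ * d) ^ 2) ^ s ≤ (e ^ 2 + d ^ 2) ^ s := by
    refine pow_le_pow_left₀ (by positivity) ?_ s
    nlinarith [mul_le_mul_of_nonneg_right hρ (sq_nonneg d)]
  linarith

/-- Minkowski step. -/
lemma minkowski_step {Ω : Type} [Fintype Ω] [Nonempty Ω] (e d : Ω → ℝ) (A B : ℝ) (hA : 0 ≤ A)
    (hB : 0 ≤ B) (s : ℕ) (hs : 1 ≤ s) (he : 𝔼 z, e z ^ (2 * s) ≤ A ^ s)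
    (hd : 𝔼 z, d z ^ (2 * s) ≤ B ^ s) : 𝔼 z, (e z ^ 2 + d z ^ 2) ^ s ≤ (A + B) ^ s := by
  have zero : ∀ g : Ω → ℝ, 𝔼 z, g z ^ (2 * s) ≤ (0 : ℝ) ^ s → ∀ z, g z = 0 := by
    intro g hg z
    rw [zero_pow (by omega)] at hg
    have h0 : ∀ z, 0 ≤ g z ^ (2 * s) := fun z => Even.pow_nonneg ⟨s, two_mul s⟩ _
    have h1 : 𝔼 z, g z ^ (2 * s) = 0 := le_antisymm hg (expect_nonneg fun z _ => h0 z)
    have := (expect_eq_zero_iff_of_nonneg (fun z _ => h0 z)).mp h1 z (mem_univ z)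
    exact pow_eq_zero_iff (by omega) |>.mp this
  rcases hA.eq_or_lt with rfl | hA
  · simp only [zero e he, ne_eq, OfNat.ofNat_ne_zero, not_false_eq_true, zero_pow, zero_add,
      ← pow_mul]
    exact hd
  rcases hB.eq_or_lt with rfl | hB
  · simp only [zero d hd, ne_eq, OfNat.ofNat_ne_zero, not_false_eq_true, zero_pow, add_zero,
      ← pow_mul]
    exact he
  have hAB : 0 < A + B := by linarith
  have key : ∀ z, (e z ^ 2 + d z ^ 2) ^ s ≤
      (A + B) ^ s * (A / (A + B) / A ^ s * e z ^ (2 * s) + B / (A + B) / B ^ s * d z ^ (2 * s)) := by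
    intro z
    have hc := (convexOn_pow (𝕜 := ℝ) s).2
      (show e z ^ 2 / A ∈ Set.Ici 0 by simp only [Set.mem_Ici]; positivity)
      (show d z ^ 2 / B ∈ Set.Ici 0 by simp only [Set.mem_Ici]; positivity)
      (show 0 ≤ A / (A + B) by positivity) (show 0 ≤ B / (A + B) by positivity) (by field_simp)
    simp only [smul_eq_mul] at hc
    have h1 : A / (A + B) * (e z ^ 2 / A) + B / (A + B) * (d z ^ 2 / B) =
        (e z ^ 2 + d z ^ 2) / (A + B) := by field_simp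
    rw [h1, div_pow, div_le_iff₀ (by positivity)] at hc
    refine hc.trans (le_of_eq ?_)
    rw [div_pow, div_pow, ← pow_mul, ← pow_mul]
    ring
  refine (expect_le_expect fun z _ => key z).trans ?_
  rw [← mul_expect, expect_add_distrib, ← mul_expect, ← mul_expect]
  have h2 : A / (A + B) / A ^ s * 𝔼 z, e z ^ (2 * s) ≤ A / (A + B) := by
    rw [div_mul_eq_mul_div, div_le_iff₀ (by positivity)]
    exact mul_le_mul_of_nonneg_left he (by positivity)
  have h3 : B / (A + B) / B ^ s * 𝔼 z, d z ^ (2 * s) ≤ B / (A + B) := by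
    rw [div_mul_eq_mul_div, div_le_iff₀ (by positivity)]
    exact mul_le_mul_of_nonneg_left hd (by positivity)
  have h4 : A / (A + B) + B / (A + B) = 1 := by field_simp
  have h5 : 0 ≤ (A + B) ^ s := by positivity
  nlinarith [mul_le_mul_of_nonneg_left (add_le_add h2 h3) h5]

lemma hyper_aux (s : ℕ) (hs : 1 ≤ s) (ρ : ℝ) (hρ : ρ ^ 2 * (4 * s) ≤ 1) (J : Finset ι) :
    ∀ c : Finset ι → ℝ,
      𝔼 z : ι → Bool, (∑ U ∈ J.powerset, ρ ^ U.card * c U * chi U z) ^ (2 * s) ≤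
        (∑ U ∈ J.powerset, c U ^ 2) ^ s := by
  induction J using Finset.induction_on with
  | empty => intro c; simp [← pow_mul]
  | insert i J hi ih =>
    intro c
    let e : (ι → Bool) → ℝ := fun z => ∑ U ∈ J.powerset, ρ ^ U.card * c U * chi U z
    let d : (ι → Bool) → ℝ := fun z => ∑ U ∈ J.powerset, ρ ^ U.card * c (insert i U) * chi U z
    have hnot : ∀ U ∈ J.powerset, i ∉ U := fun U hU h => hi (mem_powerset.mp hU h)
    have h1 : ∀ z, ∑ U ∈ (insert i J).powerset, ρ ^ U.card * c U * chi U z =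
        e z + sg (z i) * (ρ * d z) := by
      intro z
      rw [sum_powerset_insert hi]
      simp only [e, d, mul_sum]
      congr 1
      refine sum_congr rfl fun U hU => ?_
      rw [card_insert_of_notMem (hnot U hU), chi, prod_insert (hnot U hU), chi]
      ring
    let fl : (ι → Bool) → (ι → Bool) := fun z => Function.update z i (!z i)
    have hfl : Function.Involutive fl := by
      intro z; funext k
      by_cases hk : k = i
      · subst hk; simp [fl]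
      · simp [fl, hk]
    have hchi : ∀ U ∈ J.powerset, ∀ z, chi U (fl z) = chi U z := by
      intro U hU z
      refine prod_congr rfl fun k hk => ?_
      have : k ≠ i := fun h => hnot U hU (h ▸ hk)
      simp [fl, this]
    have he : ∀ z, e (fl z) = e z := fun z => sum_congr rfl fun U hU => by rw [hchi U hU]
    have hd : ∀ z, d (fl z) = d z := fun z => sum_congr rfl fun U hU => by rw [hchi U hU]
    have h2 : 𝔼 z, (e z + sg (z i) * (ρ * d z)) ^ (2 * s) =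
        𝔼 z, (e z - sg (z i) * (ρ * d z)) ^ (2 * s) := by
      refine Fintype.expect_equiv hfl.toPerm _ _ fun z => ?_
      change _ = (e (fl z) - sg (fl z i) * (ρ * d (fl z))) ^ (2 * s)
      rw [he, hd]
      simp [fl, sg_not]
    have h3 : 𝔼 z, (e z + sg (z i) * (ρ * d z)) ^ (2 * s) =
        𝔼 z, ((e z + ρ * d z) ^ (2 * s) + (e z - ρ * d z) ^ (2 * s)) / 2 := by
      have : 𝔼 z, (e z + sg (z i) * (ρ * d z)) ^ (2 * s) =
          (𝔼 z, (e z + sg (z i) * (ρ * d z)) ^ (2 * s) +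
            𝔼 z, (e z - sg (z i) * (ρ * d z)) ^ (2 * s)) / 2 := by rw [← h2]; ring
      rw [this, ← expect_add_distrib, expect_div]
      refine expect_congr rfl fun z _ => ?_
      cases z i
      · simp
      · simp only [sg_true, neg_mul, one_mul, sub_neg_eq_add, ← sub_eq_add_neg]
        ring
    simp only [h1]
    rw [h3, sum_powerset_insert hi]
    refine (expect_le_expect fun z _ => two_point (e z) (d z) ρ s hρ).trans ?_
    exact minkowski_step e d _ _ (sum_nonneg fun _ _ => sq_nonneg _)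
      (sum_nonneg fun _ _ => sq_nonneg _) s hs (ih c) (ih fun U => c (insert i U))

/-- Hypercontractivity for even exponents. -/
lemma hyper (s : ℕ) (hs : 1 ≤ s) (ρ : ℝ) (hρ : ρ ^ 2 * (4 * s) ≤ 1) (c : Finset ι → ℝ) :
    𝔼 z : ι → Bool, (∑ U, ρ ^ U.card * c U * chi U z) ^ (2 * s) ≤ (∑ U, c U ^ 2) ^ s := by
  simpa using hyper_aux s hs ρ hρ univ c

/-- Fourier coefficients. -/
noncomputable def fc (f : (ι → Bool) → ℝ) (U : Finset ι) : ℝ := 𝔼 z, f z * chi U z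

lemma expect_mul_sum (f : (ι → Bool) → ℝ) (c : Finset ι → ℝ) :
    𝔼 z, f z * ∑ U, c U * chi U z = ∑ U, c U * fc f U := by
  simp only [mul_sum, fc, mul_expect]
  rw [expect_sum_comm]
  refine sum_congr rfl fun U _ => expect_congr rfl fun z _ => by ring

lemma fc_sum (c : Finset ι → ℝ) (V : Finset ι) : fc (fun z => ∑ U, c U * chi U z) V = c V := by
  simp only [fc, sum_mul, expect_sum_comm, mul_assoc, ← mul_expect, expect_chi_mul]
  simp

lemma bessel (f : (ι → Bool) → ℝ) (hf : ∀ z, |f z| ≤ 1) : ∑ U, fc f U ^ 2 ≤ 1 := by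
  set k : (ι → Bool) → ℝ := fun z => ∑ U, fc f U * chi U z with hk
  have h1 : 𝔼 z, f z * k z = ∑ U, fc f U ^ 2 := by
    rw [hk, expect_mul_sum]; simp [sq]
  have h2 : 𝔼 z, k z * k z = ∑ U, fc f U ^ 2 := by
    conv_lhs => enter [2, z, 2]; rw [hk]
    rw [expect_mul_sum]
    simp only [hk, fc_sum, sq]
  have h3 : 𝔼 z, f z * k z ≤ 𝔼 z, (1 / 2 + (1 / 2) * (k z * k z)) := by
    refine expect_le_expect fun z _ => ?_
    have : f z ^ 2 ≤ 1 := by
      have := hf z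
      rw [← sq_abs]
      nlinarith [abs_nonneg (f z)]
    nlinarith [sq_nonneg (f z - k z)]
  rw [expect_add_distrib, ← mul_expect, h1, h2, Fintype.expect_const] at h3
  linarith

/-- A level inequality. -/
lemma level (s : ℕ) (hs : 1 ≤ s) (ρ : ℝ) (hρ : ρ ^ 2 * (4 * s) ≤ 1) (f : (ι → Bool) → ℝ)
    (hf0 : ∀ z, 0 ≤ f z) (hf1 : ∀ z, f z ≤ 1) :
    ∑ U, (ρ ^ U.card * fc f U) ^ 2 ≤ (2 * 𝔼 z, f z + 2 / 4 ^ s) ^ 2 := by
  set W := ∑ U, (ρ ^ U.card * fc f U) ^ 2 with hW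
  have hW0 : 0 ≤ W := sum_nonneg fun _ _ => sq_nonneg _
  have hα : 0 ≤ 𝔼 z, f z := expect_nonneg fun z _ => hf0 z
  obtain ⟨ω, hω0, hω⟩ : ∃ ω : ℝ, 0 ≤ ω ∧ ω ^ 2 = W := ⟨√W, Real.sqrt_nonneg _, Real.sq_sqrt hW0⟩
  rw [← hω]
  refine pow_le_pow_left₀ hω0 ?_ 2
  rcases hω0.eq_or_lt with rfl | hpos
  · positivity
  set k : (ι → Bool) → ℝ := fun z => ∑ U, ρ ^ U.card * (ρ ^ U.card * fc f U) * chi U z with hk
  have h1 : 𝔼 z, f z * k z = W := by
    rw [hk, expect_mul_sum, hW]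
    exact sum_congr rfl fun U _ => by ring
  have h2 : 𝔼 z, k z ^ (2 * s) ≤ W ^ s := hyper s hs ρ hρ _
  obtain ⟨t, rfl⟩ : ∃ t, s = t + 1 := ⟨s - 1, by omega⟩
  have h3 : ∀ z, f z * k z ≤ (2 * ω) * f z + (1 / (2 * ω) ^ (2 * t + 1)) * k z ^ (2 * (t + 1)) := by
    intro z
    have hk0 : 0 ≤ k z ^ (2 * (t + 1)) := Even.pow_nonneg ⟨t + 1, two_mul _⟩ _
    rcases le_or_gt (k z) (2 * ω) with h | h
    · have : f z * k z ≤ f z * (2 * ω) := mul_le_mul_of_nonneg_left h (hf0 z)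
      have h' : 0 ≤ (1 / (2 * ω) ^ (2 * t + 1)) * k z ^ (2 * (t + 1)) := by positivity
      linarith
    · have hkpos : 0 < k z := by linarith
      have h4 : f z * k z ≤ k z := by nlinarith [hf1 z]
      have h5 : k z ≤ (1 / (2 * ω) ^ (2 * t + 1)) * k z ^ (2 * (t + 1)) := by
        rw [one_div, ← div_eq_inv_mul, le_div_iff₀ (by positivity),
          show 2 * (t + 1) = 2 * t + 1 + 1 by ring, pow_succ (k z), mul_comm (k z ^ _)]
        exact mul_le_mul_of_nonneg_left (pow_le_pow_left₀ (by positivity) h.le _) hkpos.le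
      have h6 : 0 ≤ (2 * ω) * f z := mul_nonneg (by positivity) (hf0 z)
      linarith
  have h4 := expect_le_expect (s := univ) fun z _ => h3 z
  rw [h1, expect_add_distrib, ← mul_expect, ← mul_expect] at h4
  have h5 : (1 / (2 * ω) ^ (2 * t + 1)) * 𝔼 z, k z ^ (2 * (t + 1)) ≤ ω * (2 / 4 ^ (t + 1)) := by
    refine (mul_le_mul_of_nonneg_left h2 (by positivity)).trans (le_of_eq ?_)
    rw [← hω, ← pow_mul, mul_pow, show (4 : ℝ) = 2 ^ 2 by norm_num, ← pow_mul]
    field_simp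
    ring
  have h6 : ω * ω ≤ ω * (2 * 𝔼 z, f z + 2 / 4 ^ (t + 1)) := by nlinarith
  exact le_of_mul_le_mul_left h6 hpos

/-- The correlation of a product of two bounded functions with a xor-density. -/
lemma bilinear (s : ℕ) (hs : 1 ≤ s) (ρ : ℝ) (hρ : ρ ^ 2 * (4 * s) ≤ 1) (m : Finset ι → ℝ)
    (δ₁ δ₂ : ℝ) (hδ₁ : 0 ≤ δ₁) (hδ₂ : 0 ≤ δ₂) (hm0 : m ∅ = 1)
    (hm : ∀ U, U ≠ ∅ → |m U| ≤ δ₁ * (ρ ^ U.card) ^ 2 + δ₂)
    (f g : (ι → Bool) → ℝ) (hf0 : ∀ z, 0 ≤ f z) (hf1 : ∀ z, f z ≤ 1)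
    (hg0 : ∀ z, 0 ≤ g z) (hg1 : ∀ z, g z ≤ 1) :
    𝔼 x, 𝔼 y, (∑ U, m U * chi U (bx x y)) * (f x * g y) ≤
      (𝔼 x, f x) * (𝔼 y, g y) +
        δ₁ * ((2 * 𝔼 z, f z + 2 / 4 ^ s) * (2 * 𝔼 z, g z + 2 / 4 ^ s)) + δ₂ := by
  have h1 : 𝔼 x, 𝔼 y, (∑ U, m U * chi U (bx x y)) * (f x * g y) =
      ∑ U, m U * (fc f U * fc g U) := by
    simp only [sum_mul, chi_bx, expect_sum_comm, fc]
    refine sum_congr rfl fun U _ => ?_
    rw [expect_mul_expect, mul_expect]
    refine expect_congr rfl fun x _ => ?_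
    rw [mul_expect]
    refine expect_congr rfl fun y _ => ?_
    ring
  rw [h1, ← add_sum_erase _ _ (mem_univ ∅), hm0, one_mul]
  have h2 : fc f ∅ = 𝔼 x, f x := by simp [fc]
  have h3 : fc g ∅ = 𝔼 x, g x := by simp [fc]
  rw [h2, h3, add_assoc]
  refine add_le_add le_rfl ?_
  have h4 : ∑ U ∈ univ.erase ∅, m U * (fc f U * fc g U) ≤
      ∑ U, (δ₁ * (|ρ ^ U.card * fc f U| * |ρ ^ U.card * fc g U|) + δ₂ * (|fc f U| * |fc g U|)) := by
    refine le_trans (sum_le_sum fun U hU => ?_)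
      (sum_le_sum_of_subset_of_nonneg (erase_subset ∅ univ) fun U _ _ => by positivity)
    refine (le_abs_self _).trans ?_
    rw [abs_mul, abs_mul]
    refine (mul_le_mul_of_nonneg_right (hm U (ne_of_mem_erase hU)) (by positivity)).trans
      (le_of_eq ?_)
    rw [abs_mul, abs_mul, ← sq_abs (ρ ^ U.card)]
    ring
  refine h4.trans ?_
  rw [sum_add_distrib, ← mul_sum, ← mul_sum]
  have cs : ∀ (a b : Finset ι → ℝ) (A B : ℝ), 0 ≤ A → 0 ≤ B → ∑ U, a U ^ 2 ≤ A ^ 2 →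
      ∑ U, b U ^ 2 ≤ B ^ 2 → ∑ U, |a U| * |b U| ≤ A * B := by
    intro a b A B hA hB ha hb
    refine abs_le_of_sq_le_sq' ?_ (mul_nonneg hA hB) |>.2
    refine (sum_mul_sq_le_sq_mul_sq _ _ _).trans ?_
    simp only [sq_abs]
    rw [mul_pow]
    exact mul_le_mul ha hb (sum_nonneg fun _ _ => sq_nonneg _) (sq_nonneg _)
  have hα : 0 ≤ 𝔼 z, f z := expect_nonneg fun z _ => hf0 z
  have hβ : 0 ≤ 𝔼 z, g z := expect_nonneg fun z _ => hg0 z
  have h5 := cs _ _ _ _ (by positivity) (by positivity) (level s hs ρ hρ f hf0 hf1)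
    (level s hs ρ hρ g hg0 hg1)
  have h6 := cs (fc f) (fc g) 1 1 zero_le_one zero_le_one
    (by simpa using bessel f fun z => abs_le.mpr ⟨by linarith [hf0 z], hf1 z⟩)
    (by simpa using bessel g fun z => abs_le.mpr ⟨by linarith [hg0 z], hg1 z⟩)
  have h7 := mul_le_mul_of_nonneg_left h5 hδ₁
  have h8 := mul_le_mul_of_nonneg_left h6 hδ₂
  linarith

end Pool.Agent.Lib.MP_3bba25_lc
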