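import Mathlib
import Pool.Agent.Lib.MP_3bba25_lc.Cube

set_option autoImplicit false

open Finset MeasureTheory ProbabilityTheory
open scoped BigOperators

namespace Pool.Agent.Lib.MP_3bba25_lc

variable {I : Type} [Fintype I] [DecidableEq I]

/-- Product of standard Gaussians. -/
noncomputable abbrev gm (I : Type) [Fintype I] : Measure (I → ℝ) :=
  Measure.pi (fun _ : I => gaussianReal 0 1)

/-- The action of a matrix on row vectors. -/
def rot (G : I → I → ℝ) (g : I → ℝ) : I → ℝ := fun j => ∑ i, G i j * g i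

/-- Rows are orthonormal. -/
def Orth (G : I → I → ℝ) : Prop := ∀ i i', ∑ j, G i j * G i' j = if i = i' then 1 else 0

omit [DecidableEq I] in
lemma measurable_rot (G : I → I → ℝ) : Measurable (rot G) := by
  unfold rot
  fun_prop

lemma map_rot [Nonempty I] {G : I → I → ℝ} (hG : Orth G) : (gm I).map (rot G) = gm I := by
  let v : I → EuclideanSpace ℝ I := fun i => WithLp.toLp 2 (G i)
  have hv : Orthonormal ℝ v := by
    rw [orthonormal_iff_ite]
    intro i j
    rw [← hG i j]
    simp [v, PiLp.inner_apply, mul_comm]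
  let b := (basisOfOrthonormalOfCardEqFinrank hv (by simp)).toOrthonormalBasis (by simpa using hv)
  have hb : ∀ i, b i = v i := by intro i; simp [b]
  have h1 := stdGaussian_eq_map_pi_orthonormalBasis b
  rw [← map_pi_eq_stdGaussian] at h1
  have h2 := congrArg (Measure.map (WithLp.ofLp : EuclideanSpace ℝ I → (I → ℝ))) h1
  rw [Measure.map_map (by fun_prop) (by fun_prop), Measure.map_map (by fun_prop) (by fun_prop)] at h2
  have h3 : (WithLp.ofLp ∘ fun x : I → ℝ => ∑ i, x i • b i) = rot G := by
    funext x j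
    simp [hb, v, rot, mul_comm]
  have h4 : (WithLp.ofLp ∘ (WithLp.toLp 2 : (I → ℝ) → EuclideanSpace ℝ I)) = id := rfl
  rw [h3, h4, Measure.map_id] at h2
  exact h2.symm

lemma integral_rot [Nonempty I] {G : I → I → ℝ} (hG : Orth G) (F : (I → ℝ) → ℝ)
    (hF : Measurable F) : ∫ g, F (rot G g) ∂(gm I) = ∫ g, F g ∂(gm I) := by
  rw [← integral_map (measurable_rot G).aemeasurable hF.aestronglyMeasurable, map_rot hG]

lemma rot_rot {G : I → I → ℝ} (hG : Orth G) (g : I → ℝ) :
    rot (fun j i => G i j) (rot G g) = g := by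
  funext i
  simp only [rot, mul_sum]
  rw [sum_comm]
  simp only [← mul_assoc, ← sum_mul, hG i]
  simp

/-- Measurable functions all of whose powers are integrable. -/
def Nice (F : (I → ℝ) → ℝ) : Prop := Measurable F ∧ ∀ n : ℕ, Integrable (fun g => F g ^ n) (gm I)

omit [DecidableEq I] in
lemma Nice.integrable {F : (I → ℝ) → ℝ} (h : Nice F) : Integrable F (gm I) := by
  simpa using h.2 1

omit [DecidableEq I] in
lemma Nice.int_mul {F G : (I → ℝ) → ℝ} (hF : Nice F) (hG : Nice G) (k l : ℕ) :
    Integrable (fun g => F g ^ k * G g ^ l) (gm I) := by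
  refine Integrable.mono' ((hF.2 (2 * k)).add (hG.2 (2 * l)))
    ((hF.1.pow_const k).mul (hG.1.pow_const l)).aestronglyMeasurable
    (Filter.Eventually.of_forall fun g => ?_)
  simp only [Pi.add_apply, Real.norm_eq_abs]
  rw [mul_comm 2 k, mul_comm 2 l, pow_mul, pow_mul, abs_le]
  constructor <;> nlinarith [sq_nonneg (F g ^ k + G g ^ l), sq_nonneg (F g ^ k - G g ^ l)]

omit [DecidableEq I] in
lemma Nice.mul {F G : (I → ℝ) → ℝ} (hF : Nice F) (hG : Nice G) : Nice fun g => F g * G g :=
  ⟨hF.1.mul hG.1, fun n => by simpa [mul_pow] using hF.int_mul hG n n⟩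

omit [DecidableEq I] in
lemma nice_const (c : ℝ) : Nice fun _ : I → ℝ => c := ⟨measurable_const, fun _ => integrable_const _⟩

omit [DecidableEq I] in
lemma Nice.add {F G : (I → ℝ) → ℝ} (hF : Nice F) (hG : Nice G) : Nice fun g => F g + G g := by
  refine ⟨hF.1.add hG.1, fun n => ?_⟩
  simp only [add_pow]
  exact integrable_finsetSum _ fun k _ => (hF.int_mul hG k (n - k)).mul_const _

lemma integrable_pow_gauss (n : ℕ) : Integrable (fun x : ℝ => x ^ n) (gaussianReal 0 1) := by
  rcases Nat.eq_zero_or_pos n with rfl | hn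
  · simp
  · have := (memLp_id_gaussianReal' (μ := 0) (v := 1) n (by simp)).integrable_norm_pow hn.ne'
    refine Integrable.mono' this (by fun_prop) (Filter.Eventually.of_forall fun x => ?_)
    simp

omit [DecidableEq I] in
lemma nice_coord (i : I) : Nice fun g : I → ℝ => g i :=
  ⟨measurable_pi_apply i, fun n =>
    integrable_comp_eval (μ := fun _ : I => gaussianReal 0 1) (integrable_pow_gauss n)⟩

omit [DecidableEq I] in
lemma nice_sum {κ : Type} (s : Finset κ) (F : κ → (I → ℝ) → ℝ) (h : ∀ k ∈ s, Nice (F k)) :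
    Nice fun g => ∑ k ∈ s, F k g := by
  classical
  induction s using Finset.induction_on with
  | empty => simpa using nice_const 0
  | insert a s ha ih =>
    simp only [sum_insert ha]
    exact (h a (mem_insert_self _ _)).add (ih fun k hk => h k (mem_insert_of_mem hk))

omit [DecidableEq I] in
lemma nice_prod {κ : Type} (s : Finset κ) (F : κ → (I → ℝ) → ℝ) (h : ∀ k ∈ s, Nice (F k)) :
    Nice fun g => ∏ k ∈ s, F k g := by
  classical
  induction s using Finset.induction_on with
  | empty => simpa using nice_const 1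
  | insert a s ha ih =>
    simp only [prod_insert ha]
    exact (h a (mem_insert_self _ _)).mul (ih fun k hk => h k (mem_insert_of_mem hk))

omit [DecidableEq I] in
lemma Nice.of_le {F H : (I → ℝ) → ℝ} (hF : Nice F) (hH : Measurable H) (h : ∀ g, |H g| ≤ |F g|) :
    Nice H := by
  refine ⟨hH, fun n => Integrable.mono (hF.2 n) (hH.pow_const n).aestronglyMeasurable
    (Filter.Eventually.of_forall fun g => ?_)⟩
  simp only [norm_pow, Real.norm_eq_abs]
  exact pow_le_pow_left₀ (abs_nonneg _) (h g) n

omit [DecidableEq I] in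
lemma nice_rot (G : I → I → ℝ) (j : I) : Nice fun g => rot G g j :=
  nice_sum _ _ fun i _ => (nice_const _).mul (nice_coord i)

lemma integral_sq_gauss : ∫ x : ℝ, x ^ 2 ∂(gaussianReal 0 1) = 1 := by
  have h := variance_fun_id_gaussianReal (μ := 0) (v := 1)
  rw [variance_eq_integral measurable_id'.aemeasurable] at h
  simpa using h

lemma integral_prod_sq (S : Finset I) : ∫ g, ∏ i ∈ S, g i ^ 2 ∂(gm I) = 1 := by
  have : ∀ g : I → ℝ, ∏ i ∈ S, g i ^ 2 = ∏ i, (if i ∈ S then g i ^ 2 else 1) := by
    intro g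
    rw [← prod_filter]; congr 1; ext; simp
  simp only [this]
  rw [integral_fintype_prod_eq_prod (fun i (x : ℝ) => if i ∈ S then x ^ 2 else 1)]
  refine prod_eq_one fun i _ => ?_
  split_ifs
  · exact integral_sq_gauss
  · simp

lemma image_eq_of {κ : Type} [Fintype κ] {S : Finset I} (hc : Fintype.card κ ≤ S.card)
    {φ : κ → I} (h : S ⊆ univ.image φ) : univ.image φ = S :=
  (eq_of_subset_of_card_le h (card_image_le.trans (by simpa using hc))).symm

lemma integral_monomial {κ : Type} [Fintype κ] (S : Finset I) (hc : Fintype.card κ ≤ S.card)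
    (φ : κ → I) : ∫ g, (∏ i ∈ S, g i) * ∏ c, g (φ c) ∂(gm I) =
      if S ⊆ univ.image φ then 1 else 0 := by
  split_ifs with h
  · have h1 := image_eq_of hc h
    have h2 : Set.InjOn φ (univ : Finset κ) := by
      rw [← card_image_iff]
      exact le_antisymm card_image_le (by rw [h1]; simpa using hc)
    have h3 : ∀ g : I → ℝ, (∏ i ∈ S, g i) * ∏ c, g (φ c) = ∏ i ∈ S, g i ^ 2 := by
      intro g
      rw [← prod_image (f := g) h2, h1, ← prod_mul_distrib]
      simp [sq]
    simp only [h3]
    exact integral_prod_sq S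
  · obtain ⟨i₀, hi₀, hi₁⟩ := not_subset.mp h
    have h3 : ∀ g : I → ℝ, (∏ i ∈ S, g i) * ∏ c, g (φ c) =
        ∏ i, ((if i ∈ S then g i else 1) * g i ^ (univ.filter (fun c => φ c = i)).card) := by
      intro g
      rw [prod_mul_distrib, ← prod_filter, ← prod_fiberwise (s := univ) (g := φ)]
      congr 1
      · congr 1; ext; simp
      · refine prod_congr rfl fun i _ => ?_
        rw [← prod_const]
        exact prod_congr rfl fun c hc => by rw [(mem_filter.mp hc).2]
    simp only [h3]
    rw [integral_fintype_prod_eq_prod (fun i (x : ℝ) =>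
      (if i ∈ S then x else 1) * x ^ (univ.filter (fun c => φ c = i)).card)]
    refine prod_eq_zero (mem_univ i₀) ?_
    have : univ.filter (fun c => φ c = i₀) = ∅ := by
      rw [filter_eq_empty_iff]
      exact fun c _ hc => hi₁ (mem_image.mpr ⟨c, mem_univ _, hc⟩)
    simp [this, hi₀]

lemma wick {κ : Type} [Fintype κ] [DecidableEq κ] (S : Finset I) (hc : Fintype.card κ ≤ S.card)
    (M : κ → I → ℝ) : ∫ g, (∏ i ∈ S, g i) * ∏ c, (∑ p, M c p * g p) ∂(gm I) =
      ∑ φ : κ → I, if S ⊆ univ.image φ then ∏ c, M c (φ c) else 0 := by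
  have h : ∀ g : I → ℝ, (∏ i ∈ S, g i) * ∏ c, (∑ p, M c p * g p) =
      ∑ φ : κ → I, (∏ c, M c (φ c)) * ((∏ i ∈ S, g i) * ∏ c, g (φ c)) := by
    intro g
    rw [prod_univ_sum, Fintype.piFinset_univ, mul_sum]
    refine sum_congr rfl fun φ _ => ?_
    rw [prod_mul_distrib]
    ring
  simp only [h]
  rw [integral_finsetSum]
  · refine sum_congr rfl fun φ _ => ?_
    rw [integral_const_mul, integral_monomial S hc]
    split_ifs <;> simp
  · intro φ _
    exact ((nice_const _).mul ((nice_prod _ _ fun i _ => nice_coord i).mul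
      (nice_prod _ _ fun c _ => nice_coord (φ c)))).integrable

/-- Mixed moments. -/
noncomputable def mo (G : I → I → ℝ) (S T : Finset I) : ℝ :=
  ∫ g, (∏ i ∈ S, g i) * ∏ j ∈ T, rot G g j ∂(gm I)

lemma mo_eq (G : I → I → ℝ) (S T : Finset I) (hc : T.card ≤ S.card) :
    mo G S T = ∑ φ : T → I, if S ⊆ univ.image φ then ∏ c : T, G (φ c) c else 0 := by
  rw [← wick S (by simpa using hc) (fun (c : T) p => G p c), mo]
  congr 1
  funext g
  rw [← prod_coe_sort T]
  rfl

lemma mo_zero_of_lt (G : I → I → ℝ) (S T : Finset I) (hc : T.card < S.card) : mo G S T = 0 := by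
  rw [mo_eq G S T hc.le]
  refine sum_eq_zero fun φ _ => if_neg fun h => ?_
  have := (card_le_card h).trans card_image_le
  simp at this
  omega

lemma mo_symm [Nonempty I] {G : I → I → ℝ} (hG : Orth G) (S T : Finset I) :
    mo G S T = mo (fun j i => G i j) T S := by
  rw [mo, mo, ← integral_rot hG (fun g => (∏ i ∈ T, g i) * ∏ j ∈ S, rot (fun j i => G i j) g j)
    ((nice_prod _ _ fun i _ => nice_coord i).mul (nice_prod _ _ fun j _ => nice_rot _ j)).1]
  simp only [rot_rot hG, mul_comm]

lemma mo_zero_of_ne [Nonempty I] {G : I → I → ℝ} (hG : Orth G) (S T : Finset I)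
    (hc : S.card ≠ T.card) : mo G S T = 0 := by
  rcases lt_or_gt_of_ne hc with h | h
  · rw [mo_symm hG, mo_zero_of_lt _ _ _ h]
  · exact mo_zero_of_lt G S T h

lemma abs_mo_le_one [Nonempty I] {G : I → I → ℝ} (hG : Orth G) (S T : Finset I) :
    |mo G S T| ≤ 1 := by
  have n1 : Nice fun g : I → ℝ => ∏ i ∈ S, g i ^ 2 :=
    nice_prod _ _ fun i _ => by simpa [sq] using (nice_coord i).mul (nice_coord i)
  have n2 : Nice fun g : I → ℝ => ∏ i ∈ T, g i ^ 2 :=
    nice_prod _ _ fun i _ => by simpa [sq] using (nice_coord i).mul (nice_coord i)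
  have n3 : Nice fun g : I → ℝ => ∏ i ∈ T, rot G g i ^ 2 :=
    nice_prod _ _ fun i _ => by simpa [sq] using (nice_rot G i).mul (nice_rot G i)
  have h1 : ∫ g, ∏ i ∈ T, rot G g i ^ 2 ∂(gm I) = 1 := by
    rw [integral_rot hG _ n2.1, integral_prod_sq]
  have h2 : ∫ g, ((1 / 2) * ∏ i ∈ S, g i ^ 2 + (1 / 2) * ∏ i ∈ T, rot G g i ^ 2) ∂(gm I) = 1 := by
    rw [integral_add (n1.integrable.const_mul _) (n3.integrable.const_mul _), integral_const_mul,
      integral_const_mul, h1, integral_prod_sq]
    norm_num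
  rw [← h2, mo, ← Real.norm_eq_abs]
  refine norm_integral_le_of_norm_le
    ((n1.integrable.const_mul _).add (n3.integrable.const_mul _))
    (Filter.Eventually.of_forall fun g => ?_)
  rw [prod_pow, prod_pow, Real.norm_eq_abs, abs_le]
  constructor <;> nlinarith [sq_nonneg (∏ i ∈ S, g i + ∏ j ∈ T, rot G g j),
    sq_nonneg (∏ i ∈ S, g i - ∏ j ∈ T, rot G g j)]

lemma abs_mo_le_pow (G : I → I → ℝ) (γ : ℝ) (hγ : ∀ i j, |G i j| ≤ γ) (hγ0 : 0 ≤ γ)
    (S T : Finset I) (hc : T.card = S.card) : |mo G S T| ≤ (S.card * γ) ^ S.card := by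
  rw [mo_eq G S T hc.le, ← sum_filter]
  refine (abs_sum_le_sum_abs _ _).trans ?_
  have h1 : ∀ φ : T → I, |∏ c : T, G (φ c) c| ≤ γ ^ S.card := by
    intro φ
    rw [abs_prod, ← hc]
    refine (prod_le_prod (fun _ _ => abs_nonneg _) fun c _ => hγ _ _).trans (le_of_eq ?_)
    simp
  refine (sum_le_sum fun φ _ => h1 φ).trans ?_
  rw [sum_const, nsmul_eq_mul, mul_pow]
  refine mul_le_mul_of_nonneg_right ?_ (pow_nonneg hγ0 _)
  have h2 : (univ.filter fun φ : T → I => S ⊆ univ.image φ) ⊆ Fintype.piFinset fun _ => S := by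
    intro φ hφ
    rw [Fintype.mem_piFinset]
    intro c
    rw [← image_eq_of (by simpa using hc.le) (mem_filter.mp hφ).2]
    exact mem_image_of_mem _ (mem_univ c)
  have h3 := card_le_card h2
  rw [Fintype.card_piFinset, prod_const, card_univ, Fintype.card_coe, hc] at h3
  exact_mod_cast h3

lemma mo_one (G : I → I → ℝ) (i j : I) : mo G {i} {j} = G i j := by
  have := wick (κ := Unit) {i} (by simp) (fun _ p => G p j)
  simp only [mo, prod_singleton, rot]
  simp only [prod_singleton, univ_unique] at this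
  rw [this, ← (Equiv.funUnique Unit I).symm.sum_comp]
  simp

lemma mo_two (G : I → I → ℝ) (i i' j j' : I) (hi : i ≠ i') (hj : j ≠ j') :
    mo G {i, i'} {j, j'} = G i j * G i' j' + G i' j * G i j' := by
  have := wick (κ := Bool) {i, i'} (by simp [card_pair hi]) (fun b p => G p (cond b j' j))
  simp only [mo, prod_pair hj, rot]
  simp only [Fintype.prod_bool, cond_true, cond_false] at this
  simp only [mul_comm (∑ p, G p j * _)]
  rw [this, ← (Equiv.boolArrowEquivProd I).symm.sum_comp, Fintype.sum_prod_type]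
  have h : ∀ p q : I, (if ({i, i'} : Finset I) ⊆
      univ.image ((Equiv.boolArrowEquivProd I).symm (p, q)) then
        G ((Equiv.boolArrowEquivProd I).symm (p, q) true) j' *
          G ((Equiv.boolArrowEquivProd I).symm (p, q) false) j else 0) =
      (if i' = q then (if i = p then G i j * G i' j' else 0) else 0) +
        (if i = q then (if i' = p then G i' j * G i j' else 0) else 0) := by
    intro p q
    have h1 : univ.image ((Equiv.boolArrowEquivProd I).symm (p, q)) = {q, p} := by
      ext x; simp [eq_comm]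
    rw [h1]
    simp only [insert_subset_iff, mem_insert, mem_singleton, singleton_subset_iff,
      Equiv.boolArrowEquivProd_symm_apply]
    by_cases h1 : i = p <;> by_cases h2 : i = q <;> by_cases h3 : i' = p <;> by_cases h4 : i' = q <;>
      simp_all [mul_comm]
  simp only [h, sum_add_distrib, sum_ite_eq, mem_univ, if_true]

end Pool.Agent.Lib.MP_3bba25_lc
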