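import Mathlib
import Pool.Agent.Lib.MP_3bba25_lc.Gauss

set_option autoImplicit false
set_option linter.unusedSectionVars false

open Finset MeasureTheory ProbabilityTheory
open scoped BigOperators

namespace Pool.Agent.Lib.MP_3bba25_lc

variable {I : Type} [Fintype I] [DecidableEq I]

/-- Fourier coefficients of the planted density. -/
noncomputable def mm (G : I → I → ℝ) (s : ℝ) (U : Finset (I ⊕ I)) : ℝ :=
  s ^ U.card * mo G U.toLeft U.toRight

/-- The planted (signed) density. -/
noncomputable def dens (G : I → I → ℝ) (s : ℝ) (z : I ⊕ I → Bool) : ℝ :=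
  ∑ U, mm G s U * chi U z

/-- The bilinear form attached to a matrix. -/
noncomputable def Phi (G : I → I → ℝ) (z : I ⊕ I → Bool) : ℝ :=
  (∑ i, ∑ j, G i j * (sg (z (Sum.inl i)) * sg (z (Sum.inr j)))) / Fintype.card I

lemma mo_empty (G : I → I → ℝ) : mo G ∅ ∅ = 1 := by simp [mo]

lemma mm_empty (G : I → I → ℝ) (s : ℝ) : mm G s ∅ = 1 := by
  have h1 : (∅ : Finset (I ⊕ I)).toLeft = ∅ := by ext; simp
  have h2 : (∅ : Finset (I ⊕ I)).toRight = ∅ := by ext; simp
  simp [mm, h1, h2, mo_empty]

lemma mm_bound [Nonempty I] {G : I → I → ℝ} (hG : Orth G) (γ : ℝ) (hγ : ∀ i j, |G i j| ≤ γ)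
    (hγ0 : 0 ≤ γ) (s : ℝ) (hs : s ^ 2 ≤ 1 / 2) (K : ℕ) (ρ : ℝ) (δ : ℝ) (hδ : δ ≤ 1)
    (hδ0 : 0 ≤ δ) (hKγ : K * γ ≤ δ * ρ ^ 4) (U : Finset (I ⊕ I)) (hU : U ≠ ∅) :
    |mm G s U| ≤ δ * (ρ ^ U.card) ^ 2 + 1 / 2 ^ K := by
  have hpos : 0 ≤ δ * (ρ ^ U.card) ^ 2 := by positivity
  have hpos2 : (0 : ℝ) ≤ 1 / 2 ^ K := by positivity
  by_cases hc : U.toLeft.card = U.toRight.card
  swap
  · rw [mm, mo_zero_of_ne hG _ _ hc]
    simp only [mul_zero, abs_zero]
    positivity
  set k := U.toLeft.card with hk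
  have hcard : U.card = 2 * k := by rw [← card_toLeft_add_card_toRight (u := U)]; omega
  have hk1 : 1 ≤ k := by
    have := card_pos.mpr (nonempty_iff_ne_empty.mpr hU)
    omega
  have hsk : |s ^ U.card| ≤ 1 / 2 ^ k := by
    rw [hcard, pow_mul, abs_of_nonneg (by positivity), ← one_div_pow]
    exact pow_le_pow_left₀ (by positivity) hs k
  have hsk1 : |s ^ U.card| ≤ 1 := hsk.trans (by
    rw [div_le_one (by positivity)]; exact one_le_pow₀ (by norm_num))
  rw [mm, abs_mul]
  rcases le_or_gt k K with h | h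
  · have h1 := abs_mo_le_pow G γ hγ hγ0 U.toLeft U.toRight hc.symm
    have h2 : ((k : ℝ) * γ) ^ k ≤ (δ * ρ ^ 4) ^ k := by
      refine pow_le_pow_left₀ (by positivity) (le_trans ?_ hKγ) k
      exact mul_le_mul_of_nonneg_right (by exact_mod_cast h) hγ0
    have h3 : (δ * ρ ^ 4) ^ k ≤ δ * (ρ ^ U.card) ^ 2 := by
      rw [mul_pow, hcard, ← pow_mul, ← pow_mul, show 2 * k * 2 = 4 * k by ring]
      refine mul_le_mul_of_nonneg_right ?_ (by rw [pow_mul]; positivity)
      exact pow_le_of_le_one hδ0 hδ (by omega)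
    have h4 := mul_le_mul hsk1 (h1.trans (h2.trans h3)) (abs_nonneg _) zero_le_one
    linarith
  · have h1 := abs_mo_le_one hG U.toLeft U.toRight
    have h2 : (1 : ℝ) / 2 ^ k ≤ 1 / 2 ^ K :=
      one_div_le_one_div_of_le (by positivity) (pow_le_pow_right₀ (by norm_num) h.le)
    have h4 := mul_le_mul hsk h1 (abs_nonneg _) (by positivity)
    linarith

lemma expect_dens_mul_chi (G : I → I → ℝ) (s : ℝ) (U : Finset (I ⊕ I)) :
    𝔼 z, dens G s z * chi U z = mm G s U := fc_sum (mm G s) U

lemma expect_dens (G : I → I → ℝ) (s : ℝ) : 𝔼 z, dens G s z = 1 := by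
  simpa [mm_empty] using expect_dens_mul_chi G s ∅

/-- The Gaussian weights. -/
noncomputable def ww (G : I → I → ℝ) (s : ℝ) (g : I → ℝ) : I ⊕ I → ℝ :=
  Sum.elim (fun i => s * g i) (fun j => s * rot G g j)

lemma nice_ww (G : I → I → ℝ) (s : ℝ) (k : I ⊕ I) : Nice fun g => ww G s g k := by
  rcases k with i | j
  · exact (nice_const s).mul (nice_coord i)
  · exact (nice_const s).mul (nice_rot G j)

lemma dens_eq (G : I → I → ℝ) (s : ℝ) (z : I ⊕ I → Bool) :
    dens G s z = ∫ g, ∏ k, (1 + sg (z k) * ww G s g k) ∂(gm I) := by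
  simp only [prod_one_add, powerset_univ]
  rw [integral_finsetSum _ fun U _ =>
    (nice_prod _ _ fun k _ => (nice_const _).mul (nice_ww G s k)).integrable]
  refine sum_congr rfl fun U _ => ?_
  simp only [prod_mul_distrib]
  rw [integral_const_mul, mul_comm, mm, mo, ← integral_const_mul]
  congr 2
  funext g
  rw [prod_sum_eq_prod_toLeft_mul_prod_toRight, ← card_toLeft_add_card_toRight]
  simp only [ww, Sum.elim_inl, Sum.elim_inr, prod_mul_distrib, prod_const]
  ring

lemma expect_abs_one_add (w : ℝ) : 𝔼 b, |1 + sg b * w| = max 1 |w| := by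
  rw [expect_bool]
  simp only [sg_true, sg_false]
  rcases le_total 0 w with h | h <;> rcases le_total 1 |w| with h' | h'
  · rw [abs_of_nonneg h] at h' ⊢
    rw [max_eq_right h', abs_of_nonpos (by linarith), abs_of_nonneg (by linarith)]; ring
  · rw [abs_of_nonneg h] at h' ⊢
    rw [max_eq_left h', abs_of_nonneg (by linarith), abs_of_nonneg (by linarith)]; ring
  · rw [abs_of_nonpos h] at h' ⊢
    rw [max_eq_right h', abs_of_nonneg (by linarith), abs_of_nonpos (by linarith)]; ring
  · rw [abs_of_nonpos h] at h' ⊢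
    rw [max_eq_left h', abs_of_nonneg (by linarith), abs_of_nonneg (by linarith)]; ring

lemma max_sq_le (y t : ℝ) (ht : 2 ≤ t) :
    (max 1 |y|) ^ 2 ≤ 1 + Real.exp (-t) * (Real.exp (t * y) + Real.exp (-t * y)) := by
  have hp : 0 ≤ Real.exp (-t) * (Real.exp (t * y) + Real.exp (-t * y)) := by positivity
  rcases le_total |y| 1 with h | h
  · rw [max_eq_left h]; linarith
  · rw [max_eq_right h]
    have h1 : |y| ≤ Real.exp (|y| - 1) := by linarith [Real.add_one_le_exp (|y| - 1)]
    have h2 : |y| ^ 2 ≤ Real.exp (-t) * Real.exp (t * |y|) := by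
      refine (pow_le_pow_left₀ (abs_nonneg _) h1 2).trans ?_
      rw [← Real.exp_nat_mul, ← Real.exp_add, Real.exp_le_exp]
      push_cast
      nlinarith
    have h3 : Real.exp (t * |y|) ≤ Real.exp (t * y) + Real.exp (-t * y) := by
      rcases abs_cases y with h' | h' <;> rw [h'.1]
      · linarith [Real.exp_pos (-t * y)]
      · rw [show t * -y = -t * y by ring]
        linarith [Real.exp_pos (t * y)]
    have := mul_le_mul_of_nonneg_left h3 (Real.exp_pos (-t)).le
    linarith

lemma integral_exp_gauss (t : ℝ) :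
    ∫ x, Real.exp (t * x) ∂(gaussianReal 0 1) = Real.exp (t ^ 2 / 2) := by
  have := congrFun (mgf_fun_id_gaussianReal (μ := 0) (v := 1)) t
  simpa [mgf] using this

lemma integral_max_sq (s : ℝ) (hs0 : 0 < s) (hs : s ^ 2 ≤ 1 / 2) :
    ∫ x, (max 1 |s * x|) ^ 2 ∂(gaussianReal 0 1) ≤ 1 + 2 * Real.exp (-(1 / (2 * s ^ 2))) := by
  set t : ℝ := 1 / s ^ 2 with ht
  have ht2 : 2 ≤ t := by rw [ht, le_div_iff₀ (by positivity)]; linarith
  have i1 := integrable_exp_mul_gaussianReal (μ := 0) (v := 1) (t * s)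
  have i2 := integrable_exp_mul_gaussianReal (μ := 0) (v := 1) (-t * s)
  have h1 : ∫ x, (1 + Real.exp (-t) * (Real.exp (t * s * x) + Real.exp (-t * s * x)))
      ∂(gaussianReal 0 1) = 1 + 2 * Real.exp (-(1 / (2 * s ^ 2))) := by
    have i3 : Integrable (fun x => Real.exp (-t) * (Real.exp (t * s * x) + Real.exp (-t * s * x)))
        (gaussianReal 0 1) := (i1.add i2).const_mul _
    rw [integral_add (integrable_const _) i3, integral_const_mul,
      integral_add i1 i2, integral_exp_gauss, integral_exp_gauss]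
    have : (-t * s) ^ 2 = (t * s) ^ 2 := by ring
    rw [this, ← two_mul, mul_left_comm, ← Real.exp_add]
    simp only [integral_const, probReal_univ, smul_eq_mul, mul_one]
    congr 3
    rw [ht]
    field_simp
    ring
  rw [← h1]
  refine integral_mono_of_nonneg (Filter.Eventually.of_forall fun x => by positivity)
    ((integrable_const _).add ((i1.add i2).const_mul _)) (Filter.Eventually.of_forall fun x => ?_)
  simpa [mul_assoc] using max_sq_le (s * x) t ht2

lemma nice_max {F : (I → ℝ) → ℝ} (hF : Nice F) : Nice fun g => max 1 |F g| := by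
  refine ((nice_const 1).add (hF.mul hF)).of_le
    (measurable_const.max (continuous_abs.measurable.comp hF.1)) fun g => ?_
  have h0 : 0 ≤ F g * F g := mul_self_nonneg _
  rw [abs_of_nonneg (le_max_of_le_left zero_le_one),
    abs_of_nonneg (show 0 ≤ 1 + F g * F g by linarith)]
  refine max_le (by linarith) ?_
  rw [← abs_mul_abs_self]
  nlinarith [sq_nonneg (|F g| - 1)]

lemma nice_abs {F : (I → ℝ) → ℝ} (hF : Nice F) : Nice fun g => |F g| :=
  hF.of_le (continuous_abs.measurable.comp hF.1) fun g => by simp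

lemma expect_abs_dens [Nonempty I] {G : I → I → ℝ} (hG : Orth G) (s : ℝ) (hs0 : 0 < s)
    (hs : s ^ 2 ≤ 1 / 2) :
    𝔼 z, |dens G s z| ≤ (1 + 2 * Real.exp (-(1 / (2 * s ^ 2)))) ^ Fintype.card I := by
  have n0 : ∀ z : I ⊕ I → Bool, Nice fun g => ∏ k, |1 + sg (z k) * ww G s g k| := fun z =>
    nice_prod _ _ fun k _ => nice_abs ((nice_const _).add ((nice_const _).mul (nice_ww G s k)))
  have h1 : ∀ z, |dens G s z| ≤ ∫ g, ∏ k, |1 + sg (z k) * ww G s g k| ∂(gm I) := by
    intro z
    rw [dens_eq]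
    refine (abs_integral_le_integral_abs).trans (le_of_eq ?_)
    simp only [abs_prod]
  refine (expect_le_expect fun z _ => h1 z).trans ?_
  have h2 : 𝔼 z : I ⊕ I → Bool, ∫ g, ∏ k, |1 + sg (z k) * ww G s g k| ∂(gm I) =
      ∫ g, ∏ k, max 1 |ww G s g k| ∂(gm I) := by
    rw [Fintype.expect_eq_sum_div_card, ← integral_finsetSum _ fun z _ => (n0 z).integrable,
      ← integral_div]
    congr 1
    funext g
    rw [← Fintype.expect_eq_sum_div_card, expect_prod (fun k b => |1 + sg b * ww G s g k|)]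
    simp only [expect_abs_one_add]
  rw [h2]
  have n1 : Nice fun g : I → ℝ => ∏ i, (max 1 |s * g i|) ^ 2 :=
    nice_prod _ _ fun i _ => by
      simpa [sq] using (nice_max ((nice_const s).mul (nice_coord i))).mul
        (nice_max ((nice_const s).mul (nice_coord i)))
  have n2 : Nice fun g : I → ℝ => ∏ i, (max 1 |s * rot G g i|) ^ 2 :=
    nice_prod _ _ fun i _ => by
      simpa [sq] using (nice_max ((nice_const s).mul (nice_rot G i))).mul
        (nice_max ((nice_const s).mul (nice_rot G i)))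
  have h3 : ∫ g, ∏ i, (max 1 |s * rot G g i|) ^ 2 ∂(gm I) =
      ∫ g, ∏ i, (max 1 |s * g i|) ^ 2 ∂(gm I) := integral_rot hG _ n1.1
  have h4 : ∫ g, ∏ i, (max 1 |s * g i|) ^ 2 ∂(gm I) ≤
      (1 + 2 * Real.exp (-(1 / (2 * s ^ 2)))) ^ Fintype.card I := by
    rw [integral_fintype_prod_eq_prod (fun _ (x : ℝ) => (max 1 |s * x|) ^ 2), prod_const,
      card_univ]
    exact pow_le_pow_left₀ (integral_nonneg fun x => by positivity) (integral_max_sq s hs0 hs) _
  have h5 : ∫ g, ∏ k, max 1 |ww G s g k| ∂(gm I) ≤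
      ∫ g, ((1 / 2) * ∏ i, (max 1 |s * g i|) ^ 2 +
        (1 / 2) * ∏ i, (max 1 |s * rot G g i|) ^ 2) ∂(gm I) := by
    refine integral_mono (nice_prod _ _ fun k _ => nice_max (nice_ww G s k)).integrable
      ((n1.integrable.const_mul _).add (n2.integrable.const_mul _)) fun g => ?_
    simp only [Fintype.prod_sum_type, ww, Sum.elim_inl, Sum.elim_inr, prod_pow]
    nlinarith [sq_nonneg (∏ i, max 1 |s * g i| - ∏ i, max 1 |s * rot G g i|)]
  rw [integral_add (n1.integrable.const_mul _) (n2.integrable.const_mul _), integral_const_mul,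
    integral_const_mul, h3] at h5
  linarith

lemma abs_Phi_le [Nonempty I] {G : I → I → ℝ} (hG : Orth G) (z : I ⊕ I → Bool) :
    |Phi G z| ≤ 1 := by
  have hN : (0 : ℝ) < Fintype.card I := by exact_mod_cast Fintype.card_pos
  set g : I → ℝ := fun i => sg (z (Sum.inl i)) with hg
  have h1 : ∑ i, ∑ j, G i j * (sg (z (Sum.inl i)) * sg (z (Sum.inr j))) =
      ∑ j, rot G g j * sg (z (Sum.inr j)) := by
    rw [sum_comm]
    simp only [rot, sum_mul, hg, mul_assoc]
  have h2 : ∑ j, rot G g j ^ 2 = Fintype.card I := by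
    have : ∀ j, rot G g j ^ 2 = ∑ i, ∑ i', g i * g i' * (G i j * G i' j) := by
      intro j
      rw [sq, rot, sum_mul_sum]
      exact sum_congr rfl fun i _ => sum_congr rfl fun i' _ => by ring
    simp only [this]
    rw [sum_comm]
    have h3 : ∀ i, ∑ j, ∑ i', g i * g i' * (G i j * G i' j) = 1 := by
      intro i
      rw [sum_comm]
      simp only [← mul_sum, hG i, mul_ite, mul_one, mul_zero, sum_ite_eq, mem_univ, if_true]
      exact sg_mul_self _
    simp [h3]
  rw [Phi, h1, abs_div, abs_of_pos hN, div_le_one hN]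
  refine (abs_sum_le_sum_abs _ _).trans ?_
  have h4 : ∀ j, |rot G g j * sg (z (Sum.inr j))| ≤ 1 / 2 + (1 / 2) * rot G g j ^ 2 := by
    intro j
    rw [abs_mul, abs_sg, mul_one, ← sq_abs (rot G g j)]
    nlinarith [sq_nonneg (|rot G g j| - 1)]
  refine (sum_le_sum fun j _ => h4 j).trans (le_of_eq ?_)
  rw [sum_add_distrib, ← mul_sum, h2]
  simp only [sum_const, card_univ, nsmul_eq_mul]
  ring

/-- The symmetric difference of two singletons. -/
def pr (i i' : I) : Finset I := if i = i' then ∅ else {i, i'}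

lemma prod_pr (i i' : I) (f : I → Bool) : ∏ k ∈ pr i i', sg (f k) = sg (f i) * sg (f i') := by
  unfold pr
  split_ifs with h
  · subst h; simp [sg_mul_self]
  · rw [prod_pair h]

lemma expect_dens_Phi {G : I → I → ℝ} [Nonempty I] (hG : Orth G) (s : ℝ) :
    𝔼 z, dens G s z * Phi G z = s ^ 2 := by
  have hN : (0 : ℝ) < Fintype.card I := by exact_mod_cast Fintype.card_pos
  have h1 : ∀ i j : I, 𝔼 z, dens G s z * (sg (z (Sum.inl i)) * sg (z (Sum.inr j))) =
      s ^ 2 * G i j := by
    intro i j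
    have := expect_dens_mul_chi G s (({i} : Finset I).disjSum ({j} : Finset I))
    simp only [chi, prod_disjSum, prod_singleton, mm, toLeft_disjSum, toRight_disjSum,
      card_disjSum, card_singleton, mo_one] at this
    exact this
  have h2 : ∀ z, dens G s z * Phi G z = (∑ i, ∑ j, G i j *
      (dens G s z * (sg (z (Sum.inl i)) * sg (z (Sum.inr j))))) / Fintype.card I := by
    intro z
    rw [Phi, ← mul_div_assoc, mul_sum]
    congr 1
    refine sum_congr rfl fun i _ => ?_
    rw [mul_sum]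
    exact sum_congr rfl fun j _ => by ring
  simp only [h2]
  rw [← expect_div]
  simp only [expect_sum_comm, ← mul_expect, h1]
  have h3 : ∀ i, ∑ j, G i j * (s ^ 2 * G i j) = s ^ 2 := by
    intro i
    have := hG i i
    simp only [if_true] at this
    calc ∑ j, G i j * (s ^ 2 * G i j) = s ^ 2 * ∑ j, G i j * G i j := by
          rw [mul_sum]; exact sum_congr rfl fun j _ => by ring
      _ = s ^ 2 := by rw [this, mul_one]
  simp only [h3, sum_const, card_univ, nsmul_eq_mul]
  field_simp

lemma expect_dens_four {G : I → I → ℝ} [Nonempty I] (hG : Orth G) (s : ℝ) (i j i' j' : I) :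
    𝔼 z, dens G s z * ((sg (z (Sum.inl i)) * sg (z (Sum.inl i'))) *
      (sg (z (Sum.inr j)) * sg (z (Sum.inr j')))) =
      if i = i' then (if j = j' then 1 else 0) else
        (if j = j' then 0 else s ^ 4 * (G i j * G i' j' + G i' j * G i j')) := by
  have := expect_dens_mul_chi G s ((pr i i').disjSum (pr j j'))
  simp only [chi, prod_disjSum, mm, toLeft_disjSum, toRight_disjSum, card_disjSum] at this
  have h1 : ∀ z : I ⊕ I → Bool, ∏ x ∈ pr i i', sg (z (Sum.inl x)) =
      sg (z (Sum.inl i)) * sg (z (Sum.inl i')) := fun z => prod_pr i i' fun x => z (Sum.inl x)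
  have h2 : ∀ z : I ⊕ I → Bool, ∏ x ∈ pr j j', sg (z (Sum.inr x)) =
      sg (z (Sum.inr j)) * sg (z (Sum.inr j')) := fun z => prod_pr j j' fun x => z (Sum.inr x)
  simp only [h1, h2] at this
  rw [this]
  unfold pr
  split_ifs with a b c
  · simp [mo_empty]
  · rw [mo_zero_of_ne hG _ _ (by simp [card_pair b]), mul_zero]
  · rw [mo_zero_of_ne hG _ _ (by simp [card_pair a]), mul_zero]
  · rw [mo_two G i i' j j' a c, card_pair a, card_pair c]

lemma expect_dens_Phi_sq {G : I → I → ℝ} [Nonempty I] (hG : Orth G) (s : ℝ) :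
    𝔼 z, dens G s z * Phi G z ^ 2 ≤ 1 / Fintype.card I + s ^ 4 := by
  have hN : (0 : ℝ) < Fintype.card I := by exact_mod_cast Fintype.card_pos
  have h2 : ∀ z, dens G s z * Phi G z ^ 2 = (∑ i, ∑ i', ∑ j, ∑ j', G i j * G i' j' *
      (dens G s z * ((sg (z (Sum.inl i)) * sg (z (Sum.inl i'))) *
        (sg (z (Sum.inr j)) * sg (z (Sum.inr j')))))) / Fintype.card I ^ 2 := by
    intro z
    rw [Phi, div_pow, ← mul_div_assoc, sq, sum_mul_sum, mul_sum]
    congr 1
    refine sum_congr rfl fun i _ => ?_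
    rw [mul_sum]
    refine sum_congr rfl fun i' _ => ?_
    rw [sum_mul_sum, mul_sum]
    refine sum_congr rfl fun j _ => ?_
    rw [mul_sum]
    exact sum_congr rfl fun j' _ => by ring
  simp only [h2]
  rw [← expect_div]
  simp only [expect_sum_comm, ← mul_expect, expect_dens_four hG]
  have h3 : ∀ i i', ∑ j, ∑ j', G i j * G i' j' * (if i = i' then (if j = j' then 1 else 0) else
        (if j = j' then 0 else s ^ 4 * (G i j * G i' j' + G i' j * G i j'))) ≤
      (if i = i' then 1 else 0) + s ^ 4 := by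
    intro i i'
    have hs4 : 0 ≤ s ^ 4 := by positivity
    split_ifs with h
    · subst h
      have := hG i i
      simp only [if_true] at this
      simp only [mul_ite, mul_one, mul_zero, sum_ite_eq, mem_univ, if_true, this]
      linarith
    · have e1 := hG i i
      have e2 := hG i' i'
      have e3 := hG i i'
      simp only [if_true, if_neg h] at e1 e2 e3
      have h4 : ∀ j j', G i j * G i' j' *
          (if j = j' then 0 else s ^ 4 * (G i j * G i' j' + G i' j * G i j')) ≤
          s ^ 4 * ((G i j * G i j) * (G i' j' * G i' j') + (G i j * G i' j) * (G i j' * G i' j')) := by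
        intro j j'
        split_ifs with h'
        · subst h'
          rw [mul_zero]
          exact mul_nonneg hs4 (add_nonneg (mul_nonneg (mul_self_nonneg _) (mul_self_nonneg _))
            (mul_self_nonneg _))
        · exact le_of_eq (by ring)
      refine (sum_le_sum fun j _ => sum_le_sum fun j' _ => h4 j j').trans (le_of_eq ?_)
      simp only [← mul_sum, sum_add_distrib, ← sum_mul, e1, e2, e3]
      ring
  rw [div_le_iff₀ (by positivity)]
  refine (sum_le_sum fun i _ => sum_le_sum fun i' _ => h3 i i').trans (le_of_eq ?_)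
  simp only [sum_add_distrib, sum_ite_eq, mem_univ, if_true, sum_const, card_univ, nsmul_eq_mul]
  field_simp

lemma second_moment {G : I → I → ℝ} [Nonempty I] (hG : Orth G) (s : ℝ) :
    𝔼 z, dens G s z * (Phi G z - s ^ 2) ^ 2 ≤ 1 / Fintype.card I := by
  have h : ∀ z, dens G s z * (Phi G z - s ^ 2) ^ 2 =
      dens G s z * Phi G z ^ 2 - (2 * s ^ 2) * (dens G s z * Phi G z) + s ^ 4 * dens G s z := by
    intro z; ring
  simp only [h]
  rw [expect_add_distrib, expect_sub_distrib, ← mul_expect, ← mul_expect, expect_dens_Phi hG,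
    expect_dens]
  have := expect_dens_Phi_sq hG s
  nlinarith

end Pool.Agent.Lib.MP_3bba25_lc
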