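import Mathlib
import Pool.Agent.Lib.MP_3bba25_lc.Cube

set_option autoImplicit false
set_option linter.unusedSectionVars false

open Finset
open scoped BigOperators

namespace Pool.Agent.Lib.MP_3bba25_lc

variable {L W : Type} [Fintype L] [DecidableEq L] [Fintype W] [Nonempty W]

lemma expect_prod_type {α β : Type} [Fintype α] [Fintype β] (F : α × β → ℝ) :
    𝔼 p, F p = 𝔼 a, 𝔼 b, F (a, b) := by
  rw [← univ_product_univ, expect_product]

lemma resample (F : (L → W) → ℝ) (l : L) :
    𝔼 u, F u = 𝔼 w, 𝔼 u, F (Function.update u l w) := by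
  let σ : W × (L → W) → W × (L → W) := fun p => (p.2 l, Function.update p.2 l p.1)
  have hσ : Function.Involutive σ := by
    rintro ⟨w, u⟩
    simp [σ]
  have h1 : 𝔼 p : W × (L → W), F (Function.update p.2 l p.1) = 𝔼 p : W × (L → W), F p.2 :=
    Fintype.expect_equiv hσ.toPerm _ _ fun _ => rfl
  rw [expect_prod_type, expect_prod_type] at h1
  simp only at h1
  rw [h1, Fintype.expect_const]

/-- The marginal in one coordinate. -/
noncomputable def fm (f : (L → W) → ℝ) (l : L) (w : W) : ℝ := 𝔼 u, f (Function.update u l w)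

/-- The deficiency of the marginal. -/
noncomputable def df (f : (L → W) → ℝ) (l : L) : ℝ := 𝔼 w, max (𝔼 u, f u - fm f l w) 0

lemma resample_mul (f : (L → W) → ℝ) (l : L) (s : W → ℝ) :
    𝔼 u, f u * s (u l) = 𝔼 w, fm f l w * s w := by
  rw [resample _ l]
  refine expect_congr rfl fun w _ => ?_
  simp only [Function.update_self, fm, expect_mul]

lemma fm_nonneg {f : (L → W) → ℝ} (hf : ∀ u, 0 ≤ f u) (l : L) (w : W) : 0 ≤ fm f l w :=
  expect_nonneg fun _ _ => hf _

lemma df_nonneg (f : (L → W) → ℝ) (l : L) : 0 ≤ df f l :=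
  expect_nonneg fun _ _ => le_max_right _ _

lemma df_le {f : (L → W) → ℝ} (hf : ∀ u, 0 ≤ f u) (l : L) : df f l ≤ 𝔼 u, f u := by
  refine expect_le univ_nonempty fun w _ => max_le ?_ (expect_nonneg fun _ _ => hf _)
  linarith [fm_nonneg hf l w]

lemma expect_exp_le (e : W → ℝ) (he : ∀ w, |e w| ≤ 1) (h0 : 𝔼 w, e w = 0) (lam : ℝ)
    (hl0 : 0 < lam) (hl1 : lam ≤ 1) : 𝔼 w, Real.exp (lam * e w) ≤ Real.exp (lam ^ 2) := by
  have h1 : ∀ w, Real.exp (lam * e w) ≤ 1 + lam ^ 2 + lam * e w := by
    intro w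
    have h2 : |lam * e w| ≤ lam := by
      rw [abs_mul, abs_of_pos hl0]
      exact mul_le_of_le_one_right hl0.le (he w)
    have h3 := Real.abs_exp_sub_one_sub_id_le (h2.trans hl1)
    have h4 : (lam * e w) ^ 2 ≤ lam ^ 2 := by
      rw [← sq_abs]
      exact pow_le_pow_left₀ (abs_nonneg _) h2 2
    linarith [(abs_le.mp h3).2]
  refine (expect_le_expect fun w _ => h1 w).trans ?_
  rw [expect_add_distrib, ← mul_expect, h0, Fintype.expect_const]
  linarith [Real.add_one_le_exp (lam ^ 2)]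

lemma deficiency [Nonempty L] (f : (L → W) → ℝ) (hf0 : ∀ u, 0 ≤ f u) (hf1 : ∀ u, f u ≤ 1)
    (lam : ℝ) (hl0 : 0 < lam) (hl1 : lam ≤ 1) :
    𝔼 l, df f l ≤ 2 * lam * 𝔼 u, f u +
      Real.exp (-(lam ^ 2 * Fintype.card L)) / (lam * Fintype.card L) := by
  classical
  have hN : (0 : ℝ) < Fintype.card L := by exact_mod_cast Fintype.card_pos
  set N : ℝ := (Fintype.card L : ℝ) with hNdef
  let s : L → W → ℝ := fun l w => if fm f l w < 𝔼 u, f u then 1 else 0
  let e : L → W → ℝ := fun l w => 𝔼 w', s l w' - s l w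
  have hs0 : ∀ l w, 0 ≤ s l w := fun l w => by simp only [s]; split_ifs <;> simp
  have hs1 : ∀ l w, s l w ≤ 1 := fun l w => by simp only [s]; split_ifs <;> simp
  have he : ∀ l w, |e l w| ≤ 1 := by
    intro l w
    have h1 : 0 ≤ 𝔼 w', s l w' := expect_nonneg fun _ _ => hs0 _ _
    have h2 : 𝔼 w', s l w' ≤ 1 := expect_le univ_nonempty fun _ _ => hs1 _ _
    rw [abs_le]
    constructor <;> simp only [e] <;> linarith [hs0 l w, hs1 l w]
  have he0 : ∀ l, 𝔼 w, e l w = 0 := by
    intro l
    simp only [e]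
    rw [expect_sub_distrib, Fintype.expect_const, sub_self]
  have h1 : ∀ l, df f l = 𝔼 u, f u * e l (u l) := by
    intro l
    have h2 : ∀ w, max (𝔼 u, f u - fm f l w) 0 = (𝔼 u, f u) * s l w - fm f l w * s l w := by
      intro w
      simp only [s]
      split_ifs with h
      · rw [max_eq_left (by linarith)]; ring
      · rw [max_eq_right (by linarith)]; ring
    simp only [df, h2, e, mul_sub]
    rw [expect_sub_distrib, expect_sub_distrib, resample_mul f l (s l), ← mul_expect,
      ← expect_mul]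
  have h2 : ∀ u : L → W, f u * ∑ l, e l (u l) ≤ (2 * lam * N) * f u +
      Real.exp (-(2 * lam ^ 2 * N)) / lam * ∏ l, Real.exp (lam * e l (u l)) := by
    intro u
    set S := ∑ l, e l (u l) with hS
    have h3 : ∏ l, Real.exp (lam * e l (u l)) = Real.exp (lam * S) := by
      rw [hS, mul_sum, Real.exp_sum]
    rw [h3, div_mul_eq_mul_div, ← Real.exp_add]
    set E := Real.exp (-(2 * lam ^ 2 * N) + lam * S) / lam with hE
    have hE0 : 0 ≤ E := by positivity
    have h4 : S ≤ 2 * lam * N + E := by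
      have := Real.add_one_le_exp (-(2 * lam ^ 2 * N) + lam * S)
      rw [hE, ← sub_le_iff_le_add', le_div_iff₀ hl0]
      nlinarith
    nlinarith [hf0 u, hf1 u]
  have h3 : 𝔼 u : L → W, ∏ l, Real.exp (lam * e l (u l)) ≤ Real.exp (lam ^ 2 * N) := by
    rw [expect_prod (fun l w => Real.exp (lam * e l w))]
    refine (prod_le_prod (fun l _ => expect_nonneg fun _ _ => (Real.exp_pos _).le)
      fun l _ => expect_exp_le (e l) (he l) (he0 l) lam hl0 hl1).trans (le_of_eq ?_)
    rw [prod_const, card_univ, ← Real.exp_nat_mul, mul_comm]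
  have h4 : ∑ l, df f l ≤ (2 * lam * N) * 𝔼 u, f u + Real.exp (-(lam ^ 2 * N)) / lam := by
    simp only [h1]
    rw [← expect_sum_comm]
    simp only [← mul_sum]
    refine (expect_le_expect fun u _ => h2 u).trans ?_
    rw [expect_add_distrib, ← mul_expect, ← mul_expect]
    refine add_le_add le_rfl ((mul_le_mul_of_nonneg_left h3 (by positivity)).trans (le_of_eq ?_))
    rw [div_mul_eq_mul_div, ← Real.exp_add]
    congr 2
    ring
  rw [Fintype.expect_eq_sum_div_card, div_le_iff₀ hN]
  refine h4.trans (le_of_eq ?_)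
  field_simp

lemma corr_lower {W : Type} [Fintype W] [AddCommGroup W] (f g : (L → W) → ℝ)
    (hf : ∀ u, 0 ≤ f u) (hg : ∀ u, 0 ≤ g u) (l : L) (p : W) :
    (𝔼 u, f u) * (𝔼 v, g v) - df f l * (𝔼 v, g v) - (𝔼 u, f u) * df g l ≤
      𝔼 u, 𝔼 v, f u * g (Function.update v l (p - u l)) := by
  have h1 : 𝔼 u, 𝔼 v, f u * g (Function.update v l (p - u l)) =
      𝔼 w, fm f l w * fm g l (p - w) := by
    rw [← resample_mul f l (fun w => fm g l (p - w))]
    simp only [fm, mul_expect]
  have h2 : df g l = 𝔼 w, max (𝔼 v, g v - fm g l (p - w)) 0 :=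
    (Fintype.expect_equiv (Equiv.subLeft p) _ _ fun _ => rfl).symm
  rw [h1, h2, df, expect_mul univ (fun w => max (𝔼 u, f u - fm f l w) 0), mul_expect univ
    (fun w => max (𝔼 v, g v - fm g l (p - w)) 0),
    ← Fintype.expect_const (ι := W) ((𝔼 u, f u) * (𝔼 v, g v)), ← expect_sub_distrib,
    ← expect_sub_distrib]
  refine expect_le_expect fun w _ => ?_
  have ha : 0 ≤ 𝔼 u, f u := expect_nonneg fun _ _ => hf _
  have hb : 0 ≤ 𝔼 u, g u := expect_nonneg fun _ _ => hg _
  have ha' := fm_nonneg hf l w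
  have hb' := fm_nonneg hg l (p - w)
  set a := 𝔼 u, f u
  set b := 𝔼 u, g u
  set a' := fm f l w
  set b' := fm g l (p - w)
  rcases le_total a a' with h | h <;> rcases le_total b b' with h' | h'
  · rw [max_eq_right (by linarith), max_eq_right (by linarith)]
    nlinarith
  · rw [max_eq_right (by linarith), max_eq_left (by linarith)]
    nlinarith
  · rw [max_eq_left (by linarith), max_eq_right (by linarith)]
    nlinarith
  · rw [max_eq_left (by linarith), max_eq_left (by linarith)]
    nlinarith [mul_nonneg (sub_nonneg.mpr h) (sub_nonneg.mpr h')]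

end Pool.Agent.Lib.MP_3bba25_lc
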