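import Mathlib

set_option autoImplicit false

open Finset
open scoped BigOperators

namespace Pool.Agent.Lib.MP_3bba25_lc

/-- Deterministic protocol trees: at an inner node one party sends one bit depending on its own
input; a leaf carries the output. -/
inductive Proto (X Y : Type) : Type
  | leaf (out : Bool) : Proto X Y
  | alice (msg : X → Bool) (l r : Proto X Y) : Proto X Y
  | bob (msg : Y → Bool) (l r : Proto X Y) : Proto X Y

/-- The output of a protocol tree. -/
noncomputable def Proto.run {X Y : Type} (P : Proto X Y) (x : X) (y : Y) : Bool :=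
  Proto.rec (motive := fun _ => Bool) (fun out => out)
    (fun msg _ _ l r => if msg x = true then r else l)
    (fun msg _ _ l r => if msg y = true then r else l) P

/-- The number of bits sent on a given input. -/
noncomputable def Proto.bits {X Y : Type} (P : Proto X Y) (x : X) (y : Y) : ℕ :=
  Proto.rec (motive := fun _ => ℕ) (fun _ => 0)
    (fun msg _ _ l r => (if msg x = true then r else l) + 1)
    (fun msg _ _ l r => (if msg y = true then r else l) + 1) P

/-- A private-coin protocol with at most `c` bits computes `f` with probability at least 2/3. -/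
def RandComputes {X Y : Type} (f : X → Y → Bool) (c : ℕ) : Prop :=
  ∃ (A B : Type) (_ : Fintype A) (_ : Fintype B) (μ : A → ℝ) (ν : B → ℝ)
    (P : Proto (X × A) (Y × B)),
    (∀ a, 0 ≤ μ a) ∧ ∑ a, μ a = 1 ∧ (∀ b, 0 ≤ ν b) ∧ ∑ b, ν b = 1 ∧
    (∀ x y a b, P.bits (x, a) (y, b) ≤ c) ∧
    ∀ x y, (2 : ℝ) / 3 ≤ ∑ a, ∑ b, if P.run (x, a) (y, b) = f x y then μ a * ν b else 0

/-- Bounded-error randomized communication complexity. -/
noncomputable def randCC {X Y : Type} (f : X → Y → Bool) : ℕ := sInf {c | RandComputes f c}

/-- One turn of a quantum protocol on the space (Alice) x (one channel qubit) x (Bob): either Alice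
applies a unitary to her register and the channel, or Bob to the channel and his register. -/
noncomputable def qstep {A B : Type} [Fintype A] [DecidableEq A] [Fintype B] [DecidableEq B]
    (ψ : A × Bool × B → ℂ)
    (t : Matrix.unitaryGroup (A × Bool) ℂ ⊕ Matrix.unitaryGroup (Bool × B) ℂ) :
    A × Bool × B → ℂ :=
  Sum.elim
    (fun U s => ∑ p : A × Bool, U.1 (s.1, s.2.1) p * ψ (p.1, p.2, s.2.2))
    (fun V s => ∑ p : Bool × B, V.1 s.2 p * ψ (s.1, p)) t

/-- A quantum protocol with at most `c` turns (one qubit each), started in an unentangled basis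
state, whose final channel qubit is measured, computes `f` with probability at least 2/3. -/
def QuantComputes {X Y : Type} (f : X → Y → Bool) (c : ℕ) : Prop :=
  ∃ (A B : Type) (_ : Fintype A) (_ : DecidableEq A) (_ : Fintype B) (_ : DecidableEq B)
    (a₀ : X → A) (b₀ : Y → B)
    (turns : List (Matrix.unitaryGroup (A × Bool) ℂ ⊕ Matrix.unitaryGroup (Bool × B) ℂ)),
    turns.length ≤ c ∧
    ∀ x y, (2 : ℝ) / 3 ≤ ∑ a, ∑ b,
      ‖turns.foldl qstep (fun s => if s = (a₀ x, false, b₀ y) then 1 else 0) (a, f x y, b)‖ ^ 2

/-- Bounded-error quantum communication complexity without prior entanglement. -/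
noncomputable def quantCC {X Y : Type} (f : X → Y → Bool) : ℕ := sInf {c | QuantComputes f c}

end Pool.Agent.Lib.MP_3bba25_lc
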