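import Mathlib
import Pool.Agent.Lib.MP_3bba25_lc.Defs

set_option autoImplicit false

open Finset
open scoped BigOperators

namespace Pool.Agent.Lib.MP_3bba25_lc

lemma run_leaf {X Y : Type} (o : Bool) (x : X) (y : Y) : (Proto.leaf o).run x y = o := rfl

lemma run_alice {X Y : Type} (m : X → Bool) (l r : Proto X Y) (x : X) (y : Y) :
    (Proto.alice m l r).run x y = if m x = true then r.run x y else l.run x y := rfl

lemma run_bob {X Y : Type} (m : Y → Bool) (l r : Proto X Y) (x : X) (y : Y) :
    (Proto.bob m l r).run x y = if m y = true then r.run x y else l.run x y := rfl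

lemma bits_leaf {X Y : Type} (o : Bool) (x : X) (y : Y) : (Proto.leaf o).bits x y = 0 := rfl

lemma bits_alice {X Y : Type} (m : X → Bool) (l r : Proto X Y) (x : X) (y : Y) :
    (Proto.alice m l r).bits x y = (if m x = true then r.bits x y else l.bits x y) + 1 := rfl

lemma bits_bob {X Y : Type} (m : Y → Bool) (l r : Proto X Y) (x : X) (y : Y) :
    (Proto.bob m l r).bits x y = (if m y = true then r.bits x y else l.bits x y) + 1 := rfl

lemma rects {X Y : Type} (c : ℕ) (P : Proto X Y) :
    ∃ (T : Type) (_ : Fintype T) (a : T → X → ℝ) (b : T → Y → ℝ),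
      Fintype.card T ≤ 2 ^ c ∧ (∀ t x, 0 ≤ a t x ∧ a t x ≤ 1) ∧ (∀ t y, 0 ≤ b t y ∧ b t y ≤ 1) ∧
      ∀ x y, P.bits x y ≤ c → ∑ t, a t x * b t y = if P.run x y = true then 0 else 1 := by
  induction P generalizing c with
  | leaf o =>
    refine ⟨Unit, inferInstance, fun _ _ => if o = true then 0 else 1, fun _ _ => 1,
      by simpa using Nat.one_le_two_pow, fun _ _ => ?_, fun _ _ => by simp, fun x y _ => ?_⟩
    · split_ifs <;> simp
    · simp [run_leaf]
  | alice m l r ihl ihr =>
    rcases c with _ | c
    · exact ⟨Empty, inferInstance, fun _ _ => 0, fun _ _ => 0, by simp, by simp, by simp,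
        fun x y h => by simp [bits_alice, bits_bob] at h⟩
    obtain ⟨T₁, _, a₁, b₁, h1, h2, h3, h4⟩ := ihl c
    obtain ⟨T₂, _, a₂, b₂, k1, k2, k3, k4⟩ := ihr c
    refine ⟨T₁ ⊕ T₂, inferInstance,
      Sum.elim (fun t x => if m x = true then 0 else a₁ t x)
        (fun t x => if m x = true then a₂ t x else 0), Sum.elim b₁ b₂, ?_, ?_, ?_, ?_⟩
    · rw [Fintype.card_sum, pow_succ]; omega
    · rintro (t | t) x
      · simp only [Sum.elim_inl]
        split_ifs
        · simp
        · exact h2 t x
      · simp only [Sum.elim_inr]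
        split_ifs
        · exact k2 t x
        · simp
    · rintro (t | t) y
      · exact h3 t y
      · exact k3 t y
    · intro x y h
      simp only [bits_alice, bits_bob, run_alice, run_bob, Fintype.sum_sum_type, Sum.elim_inl, Sum.elim_inr] at h ⊢
      by_cases hm : m x = true
      · simp only [hm, if_true, zero_mul, sum_const_zero, zero_add] at h ⊢
        exact k4 x y (by omega)
      · simp only [hm, Bool.false_eq_true, if_false, zero_mul, sum_const_zero, add_zero] at h ⊢
        exact h4 x y (by omega)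
  | bob m l r ihl ihr =>
    rcases c with _ | c
    · exact ⟨Empty, inferInstance, fun _ _ => 0, fun _ _ => 0, by simp, by simp, by simp,
        fun x y h => by simp [bits_alice, bits_bob] at h⟩
    obtain ⟨T₁, _, a₁, b₁, h1, h2, h3, h4⟩ := ihl c
    obtain ⟨T₂, _, a₂, b₂, k1, k2, k3, k4⟩ := ihr c
    refine ⟨T₁ ⊕ T₂, inferInstance, Sum.elim a₁ a₂,
      Sum.elim (fun t y => if m y = true then 0 else b₁ t y)
        (fun t y => if m y = true then b₂ t y else 0), ?_, ?_, ?_, ?_⟩
    · rw [Fintype.card_sum, pow_succ]; omega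
    · rintro (t | t) x
      · exact h2 t x
      · exact k2 t x
    · rintro (t | t) y
      · simp only [Sum.elim_inl]
        split_ifs
        · simp
        · exact h3 t y
      · simp only [Sum.elim_inr]
        split_ifs
        · exact k3 t y
        · simp
    · intro x y h
      simp only [bits_alice, bits_bob, run_alice, run_bob, Fintype.sum_sum_type, Sum.elim_inl, Sum.elim_inr] at h ⊢
      by_cases hm : m y = true
      · simp only [hm, if_true, mul_zero, sum_const_zero, zero_add] at h ⊢
        exact k4 x y (by omega)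
      · simp only [hm, Bool.false_eq_true, if_false, mul_zero, sum_const_zero, add_zero] at h ⊢
        exact h4 x y (by omega)

/-- The trivial protocol running through a list of candidates. -/
def triv {X Y : Type} [DecidableEq X] (f : X → Y → Bool) : List X → Proto X Y
  | [] => Proto.leaf false
  | x' :: l => Proto.alice (fun x => decide (x = x')) (triv f l)
      (Proto.bob (f x') (Proto.leaf false) (Proto.leaf true))

lemma triv_bits {X Y : Type} [DecidableEq X] (f : X → Y → Bool) (l : List X) (x : X) (y : Y) :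
    (triv f l).bits x y ≤ l.length + 1 := by
  induction l with
  | nil => simp [triv, bits_leaf]
  | cons x' l ih =>
    simp only [triv, bits_alice, bits_bob, bits_leaf, List.length_cons]
    split_ifs <;> omega

lemma triv_run {X Y : Type} [DecidableEq X] (f : X → Y → Bool) (l : List X) (x : X) (y : Y)
    (hx : x ∈ l) : (triv f l).run x y = f x y := by
  induction l with
  | nil => simp at hx
  | cons x' l ih =>
    simp only [triv, run_alice, run_bob, run_leaf, decide_eq_true_eq]
    by_cases h : x = x'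
    · subst h
      cases f x y <;> simp
    · rw [if_neg h]
      exact ih ((List.mem_cons.mp hx).resolve_left h)

lemma exists_randComputes {X Y : Type} [Fintype X] (f : X → Y → Bool) :
    ∃ c, RandComputes f c := by
  classical
  refine ⟨(univ : Finset (X × Unit)).toList.length + 1, Unit, Unit, inferInstance, inferInstance,
    fun _ => 1, fun _ => 1, triv (fun x y => f x.1 y.1) univ.toList, by simp, by simp, by simp,
    by simp, fun x y a b => triv_bits _ _ _ _, fun x y => ?_⟩
  simp only [univ_unique, sum_singleton]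
  rw [triv_run _ _ _ _ (by simp)]
  norm_num

/-- The rejection probability of a randomized protocol as an average of sums of rectangles. -/
lemma rand_rects {X Y : Type} (f : X → Y → Bool) (c : ℕ) (h : RandComputes f c) :
    ∃ (Ω : Type) (_ : Fintype Ω) (w : Ω → ℝ) (T : Type) (_ : Fintype T)
      (a : Ω → T → X → ℝ) (b : Ω → T → Y → ℝ),
      (∀ ω, 0 ≤ w ω) ∧ ∑ ω, w ω = 1 ∧ Fintype.card T ≤ 2 ^ c ∧
      (∀ ω t x, 0 ≤ a ω t x ∧ a ω t x ≤ 1) ∧ (∀ ω t y, 0 ≤ b ω t y ∧ b ω t y ≤ 1) ∧
      (∀ ω x y, ∑ t, a ω t x * b ω t y ≤ 1) ∧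
      (∀ x y, f x y = false → 2 / 3 ≤ ∑ ω, w ω * ∑ t, a ω t x * b ω t y) ∧
      (∀ x y, f x y = true → ∑ ω, w ω * ∑ t, a ω t x * b ω t y ≤ 1 / 3) := by
  obtain ⟨A, B, _, _, μ, ν, P, hμ0, hμ1, hν0, hν1, hb, hc⟩ := h
  obtain ⟨T, _, a, b, h1, h2, h3, h4⟩ := rects c P
  have hw : ∑ ω : A × B, μ ω.1 * ν ω.2 = 1 := by
    rw [Fintype.sum_prod_type, ← sum_mul_sum, hμ1, hν1, one_mul]
  refine ⟨A × B, inferInstance, fun ω => μ ω.1 * ν ω.2, T, inferInstance,
    fun ω t x => a t (x, ω.1), fun ω t y => b t (y, ω.2),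
    fun ω => mul_nonneg (hμ0 _) (hν0 _), hw, h1, fun ω t x => h2 _ _, fun ω t y => h3 _ _,
    fun ω x y => ?_, fun x y hf => ?_, fun x y hf => ?_⟩
  · rw [h4 _ _ (hb _ _ _ _)]
    split_ifs <;> simp
  · refine (hc x y).trans (le_of_eq ?_)
    rw [Fintype.sum_prod_type]
    refine sum_congr rfl fun p _ => sum_congr rfl fun q _ => ?_
    rw [h4 _ _ (hb _ _ _ _), hf]
    cases P.run (x, p) (y, q) <;> simp
  · have h5 := hc x y
    have h6 : (∑ p, ∑ q, if P.run (x, p) (y, q) = f x y then μ p * ν q else 0) +
        ∑ ω : A × B, μ ω.1 * ν ω.2 * ∑ t, a t (x, ω.1) * b t (y, ω.2) = 1 := by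
      rw [← hw, Fintype.sum_prod_type, Fintype.sum_prod_type, ← sum_add_distrib]
      refine sum_congr rfl fun p _ => ?_
      rw [← sum_add_distrib]
      refine sum_congr rfl fun q _ => ?_
      rw [h4 _ _ (hb _ _ _ _), hf]
      cases P.run (x, p) (y, q) <;> simp
    linarith

end Pool.Agent.Lib.MP_3bba25_lc
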