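import Mathlib
import Pool.Agent.Lib.MP_3bba25_lc.Defic
import Pool.Agent.Lib.MP_3bba25_lc.Rects

set_option autoImplicit false
set_option linter.unusedSectionVars false

open Finset
open scoped BigOperators

namespace Pool.Agent.Lib.MP_3bba25_lc

variable {Z : Type} [Fintype Z] [Nonempty Z]

/-- The transfer property of a signed density on pairs. -/
def Transfer (D : Z → Z → ℝ) (δ₁ δ₂ τ : ℝ) : Prop :=
  ∀ f g : Z → ℝ, (∀ z, 0 ≤ f z) → (∀ z, f z ≤ 1) → (∀ z, 0 ≤ g z) → (∀ z, g z ≤ 1) →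
    𝔼 x, 𝔼 y, D x y * (f x * g y) ≤ (𝔼 x, f x) * (𝔼 y, g y) +
      δ₁ * ((2 * 𝔼 z, f z + τ) * (2 * 𝔼 z, g z + τ)) + δ₂

lemma term_bound (D : Z → Z → ℝ) (δ₁ δ₂ τ η M : ℝ) (hδ₁ : 0 ≤ δ₁) (hδ₂ : 0 ≤ δ₂) (hτ : 0 ≤ τ)
    (htr : Transfer D δ₁ δ₂ τ) (hneg : 𝔼 x, 𝔼 y, max (-D x y) 0 ≤ η)
    {T : Type} [Fintype T] (hM : (Fintype.card T : ℝ) ≤ M) (hM1 : 1 ≤ M) (hτM : τ * M ≤ 1)
    (α β φ ψ : T → Z → ℝ) (hα : ∀ t x, α t x ≤ 1) (hβ : ∀ t x, β t x ≤ 1)
    (hφ0 : ∀ t x, 0 ≤ φ t x) (hφ : ∀ t x, φ t x ≤ α t x)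
    (hψ0 : ∀ t x, 0 ≤ ψ t x) (hψ : ∀ t x, ψ t x ≤ β t x)
    (hab : ∀ x y, ∑ t, α t x * β t y ≤ 1) :
    𝔼 x, 𝔼 y, max (D x y) 0 * ∑ t, φ t x * ψ t y ≤
      ∑ t, (𝔼 x, φ t x) * (𝔼 y, ψ t y) + 9 * δ₁ + M * δ₂ + η := by
  have h0 : ∀ x y, ∑ t, φ t x * ψ t y ≤ 1 := fun x y =>
    (sum_le_sum fun t _ => mul_le_mul (hφ t x) (hψ t y) (hψ0 t y)
      ((hφ0 t x).trans (hφ t x))).trans (hab x y)
  have h1 : ∀ x y, max (D x y) 0 * ∑ t, φ t x * ψ t y ≤
      ∑ t, D x y * (φ t x * ψ t y) + max (-D x y) 0 := by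
    intro x y
    rw [← mul_sum]
    have h2 : 0 ≤ ∑ t, φ t x * ψ t y := sum_nonneg fun t _ => mul_nonneg (hφ0 _ _) (hψ0 _ _)
    rcases le_total 0 (D x y) with h | h
    · rw [max_eq_left h, max_eq_right (by linarith), add_zero]
    · rw [max_eq_right h, max_eq_left (by linarith)]
      nlinarith [h0 x y]
  refine (expect_le_expect fun x _ => expect_le_expect fun y _ => h1 x y).trans ?_
  simp only [expect_add_distrib, expect_sum_comm]
  refine add_le_add ?_ hneg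
  refine (sum_le_sum fun t _ => htr (φ t) (ψ t) (hφ0 t) (fun x => (hφ t x).trans (hα t x))
    (hψ0 t) (fun x => (hψ t x).trans (hβ t x))).trans ?_
  rw [sum_add_distrib, sum_add_distrib, ← mul_sum, sum_const, card_univ, nsmul_eq_mul]
  refine add_le_add (add_le_add le_rfl ?_) (mul_le_mul_of_nonneg_right hM hδ₂)
  rw [mul_comm 9]
  refine mul_le_mul_of_nonneg_left ?_ hδ₁
  have h3 : ∑ t, (𝔼 x, φ t x) * (𝔼 y, ψ t y) ≤ 1 := by
    simp only [expect_mul_expect]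
    rw [← expect_sum_comm]
    refine expect_le univ_nonempty fun x _ => ?_
    rw [← expect_sum_comm]
    exact expect_le univ_nonempty fun y _ => h0 x y
  have h4 : ∀ t, (2 * 𝔼 z, φ t z + τ) * (2 * 𝔼 z, ψ t z + τ) ≤
      4 * ((𝔼 x, φ t x) * (𝔼 y, ψ t y)) + 5 * τ := by
    intro t
    have a1 : 𝔼 z, φ t z ≤ 1 := expect_le univ_nonempty fun x _ => (hφ t x).trans (hα t x)
    have a2 : 𝔼 z, ψ t z ≤ 1 := expect_le univ_nonempty fun x _ => (hψ t x).trans (hβ t x)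
    have a3 : τ ≤ 1 := by nlinarith
    nlinarith
  refine (sum_le_sum fun t _ => h4 t).trans ?_
  rw [sum_add_distrib, ← mul_sum, sum_const, card_univ, nsmul_eq_mul]
  nlinarith

variable {L W : Type} [Fintype L] [DecidableEq L] [Nonempty L] [Fintype W] [AddCommGroup W]

/-- Mass under the distribution with independent cells. -/
noncomputable def P0 (D : L → Z → Z → ℝ) (h : Z × (L → W) → Z × (L → W) → ℝ) (l : L) : ℝ :=
  𝔼 x, 𝔼 y, max (D l x y) 0 * 𝔼 u, 𝔼 v, h (x, u) (y, v)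

/-- Mass under the distribution with a planted cell. -/
noncomputable def P1 (D : L → Z → Z → ℝ) (π : L → Z → Z → W)
    (h : Z × (L → W) → Z × (L → W) → ℝ) (l : L) : ℝ :=
  𝔼 x, 𝔼 y, max (D l x y) 0 * 𝔼 u, 𝔼 v, h (x, u) (y, Function.update v l (π l x y - u l))

lemma det_bound (D : L → Z → Z → ℝ) (π : L → Z → Z → W) (δ₁ δ₂ τ η M lam : ℝ) (hδ₁ : 0 ≤ δ₁)
    (hδ₂ : 0 ≤ δ₂) (hτ : 0 ≤ τ) (hl0 : 0 < lam) (hl1 : lam ≤ 1)
    (htr : ∀ l, Transfer (D l) δ₁ δ₂ τ) (hneg : ∀ l, 𝔼 x, 𝔼 y, max (-D l x y) 0 ≤ η)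
    {T : Type} [Fintype T] (hM : (Fintype.card T : ℝ) ≤ M) (hM1 : 1 ≤ M) (hτM : τ * M ≤ 1)
    (a b : T → Z × (L → W) → ℝ) (ha : ∀ t x, 0 ≤ a t x ∧ a t x ≤ 1)
    (hb : ∀ t x, 0 ≤ b t x ∧ b t x ≤ 1) (hab : ∀ x y, ∑ t, a t x * b t y ≤ 1) :
    𝔼 l, P0 D (fun x y => ∑ t, a t x * b t y) l ≤
      𝔼 l, P1 D π (fun x y => ∑ t, a t x * b t y) l +
        2 * (2 * lam + M * (Real.exp (-(lam ^ 2 * Fintype.card L)) / (lam * Fintype.card L)) +
          9 * δ₁ + M * δ₂ + η) := by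
  set κ := Real.exp (-(lam ^ 2 * Fintype.card L)) / (lam * Fintype.card L) with hκ
  have hκ0 : 0 ≤ κ := by positivity
  let α : T → Z → ℝ := fun t x => 𝔼 u, a t (x, u)
  let β : T → Z → ℝ := fun t y => 𝔼 v, b t (y, v)
  let d : L → T → Z → ℝ := fun l t x => df (fun u => a t (x, u)) l
  let e : L → T → Z → ℝ := fun l t y => df (fun v => b t (y, v)) l
  have hα0 : ∀ t x, 0 ≤ α t x := fun t x => expect_nonneg fun _ _ => (ha _ _).1
  have hβ0 : ∀ t x, 0 ≤ β t x := fun t x => expect_nonneg fun _ _ => (hb _ _).1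
  have hα1 : ∀ t x, α t x ≤ 1 := fun t x => expect_le univ_nonempty fun _ _ => (ha _ _).2
  have hβ1 : ∀ t x, β t x ≤ 1 := fun t x => expect_le univ_nonempty fun _ _ => (hb _ _).2
  have hsum : ∀ x y, 𝔼 u, 𝔼 v, ∑ t, a t (x, u) * b t (y, v) = ∑ t, α t x * β t y := by
    intro x y
    simp only [expect_sum_comm, α, β, expect_mul_expect]
  have hαβ : ∀ x y, ∑ t, α t x * β t y ≤ 1 := by
    intro x y
    rw [← hsum]
    exact expect_le univ_nonempty fun u _ => expect_le univ_nonempty fun v _ => hab _ _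
  have hαβ' : ∑ t, (𝔼 x, α t x) * (𝔼 y, β t y) ≤ 1 := by
    simp only [expect_mul_expect]
    rw [← expect_sum_comm]
    refine expect_le univ_nonempty fun x _ => ?_
    rw [← expect_sum_comm]
    exact expect_le univ_nonempty fun y _ => hαβ x y
  have h1 : ∀ l, P0 D (fun x y => ∑ t, a t x * b t y) l ≤
      P1 D π (fun x y => ∑ t, a t x * b t y) l +
        (𝔼 x, 𝔼 y, max (D l x y) 0 * ∑ t, d l t x * β t y +
          𝔼 x, 𝔼 y, max (D l x y) 0 * ∑ t, α t x * e l t y) := by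
    intro l
    simp only [P0, P1, ← expect_add_distrib, ← mul_add]
    refine expect_le_expect fun x _ => expect_le_expect fun y _ =>
      mul_le_mul_of_nonneg_left ?_ (le_max_right _ _)
    rw [hsum]
    simp only [expect_sum_comm, ← sum_add_distrib]
    refine sum_le_sum fun t _ => ?_
    have := corr_lower (fun u => a t (x, u)) (fun v => b t (y, v)) (fun _ => (ha _ _).1)
      (fun _ => (hb _ _).1) l (π l x y)
    simp only [α, β, d, e]
    linarith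
  have h2 : ∀ l, 𝔼 x, 𝔼 y, max (D l x y) 0 * ∑ t, d l t x * β t y ≤
      ∑ t, (𝔼 x, d l t x) * (𝔼 y, β t y) + 9 * δ₁ + M * δ₂ + η := fun l =>
    term_bound (D l) δ₁ δ₂ τ η M hδ₁ hδ₂ hτ (htr l) (hneg l) hM hM1 hτM α β (d l) β hα1 hβ1
      (fun t x => df_nonneg _ _) (fun t x => df_le (fun _ => (ha _ _).1) _) hβ0
      (fun _ _ => le_rfl) hαβ
  have h3 : ∀ l, 𝔼 x, 𝔼 y, max (D l x y) 0 * ∑ t, α t x * e l t y ≤
      ∑ t, (𝔼 x, α t x) * (𝔼 y, e l t y) + 9 * δ₁ + M * δ₂ + η := fun l =>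
    term_bound (D l) δ₁ δ₂ τ η M hδ₁ hδ₂ hτ (htr l) (hneg l) hM hM1 hτM α β α (e l) hα1 hβ1
      hα0 (fun _ _ => le_rfl) (fun t x => df_nonneg _ _) (fun t x => df_le (fun _ => (hb _ _).1) _)
      hαβ
  have h4 : ∀ t, 𝔼 l, 𝔼 x, d l t x ≤ 2 * lam * 𝔼 x, α t x + κ := by
    intro t
    rw [expect_comm, mul_expect, ← Fintype.expect_const (ι := Z) κ, ← expect_add_distrib]
    exact expect_le_expect fun x _ =>
      deficiency _ (fun _ => (ha _ _).1) (fun _ => (ha _ _).2) lam hl0 hl1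
  have h5 : ∀ t, 𝔼 l, 𝔼 x, e l t x ≤ 2 * lam * 𝔼 x, β t x + κ := by
    intro t
    rw [expect_comm, mul_expect, ← Fintype.expect_const (ι := Z) κ, ← expect_add_distrib]
    exact expect_le_expect fun x _ =>
      deficiency _ (fun _ => (hb _ _).1) (fun _ => (hb _ _).2) lam hl0 hl1
  have h6 : 𝔼 l, ∑ t, (𝔼 x, d l t x) * (𝔼 y, β t y) ≤ 2 * lam + M * κ := by
    rw [expect_sum_comm]
    simp only [← expect_mul]
    have : ∀ t, (𝔼 l, 𝔼 x, d l t x) * (𝔼 y, β t y) ≤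
        2 * lam * ((𝔼 x, α t x) * (𝔼 y, β t y)) + κ := by
      intro t
      have a1 : 0 ≤ 𝔼 y, β t y := expect_nonneg fun _ _ => hβ0 _ _
      have a2 : 𝔼 y, β t y ≤ 1 := expect_le univ_nonempty fun _ _ => hβ1 _ _
      nlinarith [mul_le_mul_of_nonneg_right (h4 t) a1]
    refine (sum_le_sum fun t _ => this t).trans ?_
    rw [sum_add_distrib, ← mul_sum, sum_const, card_univ, nsmul_eq_mul]
    nlinarith
  have h7 : 𝔼 l, ∑ t, (𝔼 x, α t x) * (𝔼 y, e l t y) ≤ 2 * lam + M * κ := by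
    rw [expect_sum_comm]
    simp only [← mul_expect]
    have : ∀ t, (𝔼 x, α t x) * (𝔼 l, 𝔼 y, e l t y) ≤
        2 * lam * ((𝔼 x, α t x) * (𝔼 y, β t y)) + κ := by
      intro t
      have a1 : 0 ≤ 𝔼 y, α t y := expect_nonneg fun _ _ => hα0 _ _
      have a2 : 𝔼 y, α t y ≤ 1 := expect_le univ_nonempty fun _ _ => hα1 _ _
      nlinarith [mul_le_mul_of_nonneg_left (h5 t) a1]
    refine (sum_le_sum fun t _ => this t).trans ?_
    rw [sum_add_distrib, ← mul_sum, sum_const, card_univ, nsmul_eq_mul]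
    nlinarith
  refine (expect_le_expect fun l _ => (h1 l).trans
    (add_le_add le_rfl (add_le_add (h2 l) (h3 l)))).trans ?_
  simp only [expect_add_distrib, Fintype.expect_const]
  linarith

open Classical in
/-- The total function: some good cell carries the right certificate. -/
noncomputable def FF (good : L → Z → Z → Prop) (π : L → Z → Z → W)
    (x y : Z × (L → W)) : Bool :=
  decide (∃ l, good l x.1 y.1 ∧ x.2 l + y.2 l = π l x.1 y.1)

lemma P0_sum (D : L → Z → Z → ℝ) {Ω : Type} [Fintype Ω] (w : Ω → ℝ)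
    (h : Ω → Z × (L → W) → Z × (L → W) → ℝ) (l : L) :
    P0 D (fun x y => ∑ ω, w ω * h ω x y) l = ∑ ω, w ω * P0 D (h ω) l := by
  simp only [P0, expect_sum_comm, mul_sum, mul_expect]
  exact sum_congr rfl fun ω _ => expect_congr rfl fun x _ => expect_congr rfl fun y _ =>
    expect_congr rfl fun u _ => expect_congr rfl fun v _ => by ring

lemma P1_sum (D : L → Z → Z → ℝ) (π : L → Z → Z → W) {Ω : Type} [Fintype Ω] (w : Ω → ℝ)
    (h : Ω → Z × (L → W) → Z × (L → W) → ℝ) (l : L) :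
    P1 D π (fun x y => ∑ ω, w ω * h ω x y) l = ∑ ω, w ω * P1 D π (h ω) l := by
  simp only [P1, expect_sum_comm, mul_sum, mul_expect]
  exact sum_congr rfl fun ω _ => expect_congr rfl fun x _ => expect_congr rfl fun y _ =>
    expect_congr rfl fun u _ => expect_congr rfl fun v _ => by ring

open Classical in
lemma expect_cell (u : L → W) (l : L) (p : W) :
    𝔼 v : L → W, (if u l + v l = p then (1 : ℝ) else 0) = 1 / Fintype.card W := by
  rw [resample _ l]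
  simp only [Function.update_self, Fintype.expect_const]
  rw [Fintype.expect_eq_sum_div_card]
  congr 1
  simp only [← eq_sub_iff_add_eq', sum_ite_eq', mem_univ, if_true]

lemma P0_ge (D : L → Z → Z → ℝ) (good : L → Z → Z → Prop) (π : L → Z → Z → W)
    (hD : ∀ l, 𝔼 x, 𝔼 y, D l x y = 1) (r : Z × (L → W) → Z × (L → W) → ℝ)
    (hr0 : ∀ x y, 0 ≤ r x y) (hr : ∀ x y, FF good π x y = false → 2 / 3 ≤ r x y)
    (hLW : (Fintype.card L : ℝ) ≤ Fintype.card W) (l : L) :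
    2 / 3 * (1 - (Fintype.card L : ℝ) / Fintype.card W) ≤ P0 D r l := by
  classical
  have hW : (0 : ℝ) < Fintype.card W := by exact_mod_cast Fintype.card_pos
  have h0 : 0 ≤ 2 / 3 * (1 - (Fintype.card L : ℝ) / Fintype.card W) := by
    have := (div_le_one hW).mpr hLW
    linarith
  have h1 : ∀ x y, 2 / 3 * (1 - (Fintype.card L : ℝ) / Fintype.card W) ≤
      𝔼 u, 𝔼 v, r (x, u) (y, v) := by
    intro x y
    have h2 : ∀ u v : L → W, 2 / 3 * (1 - ∑ l', if u l' + v l' = π l' x y then (1 : ℝ) else 0) ≤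
        r (x, u) (y, v) := by
      intro u v
      have h3 : ∀ l', (0 : ℝ) ≤ if u l' + v l' = π l' x y then (1 : ℝ) else 0 :=
        fun l' => by split_ifs <;> simp
      cases hF : FF good π (x, u) (y, v)
      · have := hr _ _ hF
        have h4 := sum_nonneg fun l' (_ : l' ∈ univ) => h3 l'
        linarith
      · obtain ⟨l', _, hl'⟩ := of_decide_eq_true hF
        have h4 := single_le_sum (fun l' (_ : l' ∈ univ) => h3 l') (mem_univ l')
        simp only at hl'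
        rw [if_pos hl'] at h4
        linarith [hr0 (x, u) (y, v)]
    refine le_trans (le_of_eq ?_) (expect_le_expect fun u _ => expect_le_expect fun v _ => h2 u v)
    simp only [← mul_expect, expect_sub_distrib, expect_sum_comm, Fintype.expect_const]
    have h5 : ∀ (u : L → W) l', 𝔼 v : L → W, (if u l' + v l' = π l' x y then (1 : ℝ) else 0) =
        1 / Fintype.card W := fun u l' => by convert expect_cell u l' (π l' x y)
    simp only [h5, Fintype.expect_const, sum_const, card_univ, nsmul_eq_mul, mul_one_div]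
  have h2 : 1 ≤ 𝔼 x, 𝔼 y, max (D l x y) 0 := by
    rw [← hD l]
    exact expect_le_expect fun x _ => expect_le_expect fun y _ => le_max_left _ _
  refine le_trans ?_ (expect_le_expect fun x _ => expect_le_expect fun y _ =>
    mul_le_mul_of_nonneg_left (h1 x y) (le_max_right _ _))
  simp only [← expect_mul]
  exact le_mul_of_one_le_left h0 h2

open Classical in
lemma P1_le (D : L → Z → Z → ℝ) (good : L → Z → Z → Prop) (π : L → Z → Z → W) (η ζ : ℝ)
    (hD : ∀ l, 𝔼 x, 𝔼 y, D l x y = 1) (hneg : ∀ l, 𝔼 x, 𝔼 y, max (-D l x y) 0 ≤ η)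
    (hgood : ∀ l, 𝔼 x, 𝔼 y, max (D l x y) 0 * (if good l x y then 0 else 1) ≤ ζ)
    (r : Z × (L → W) → Z × (L → W) → ℝ)
    (hr1 : ∀ x y, r x y ≤ 1) (hr : ∀ x y, FF good π x y = true → r x y ≤ 1 / 3) (l : L) :
    P1 D π r l ≤ (1 + η) / 3 + ζ := by
  have h1 : ∀ x y, 𝔼 u, 𝔼 v, r (x, u) (y, Function.update v l (π l x y - u l)) ≤
      1 / 3 + (if good l x y then 0 else 1) := by
    intro x y
    refine expect_le univ_nonempty fun u _ => expect_le univ_nonempty fun v _ => ?_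
    split_ifs with h
    · rw [add_zero]
      exact hr _ _ (decide_eq_true ⟨l, h, by simp⟩)
    · linarith [hr1 (x, u) (y, Function.update v l (π l x y - u l))]
  refine (expect_le_expect fun x _ => expect_le_expect fun y _ =>
    mul_le_mul_of_nonneg_left (h1 x y) (le_max_right _ _)).trans ?_
  simp only [mul_add, expect_add_distrib, ← expect_mul]
  have h2 : 𝔼 x, 𝔼 y, max (D l x y) 0 = 𝔼 x, 𝔼 y, D l x y + 𝔼 x, 𝔼 y, max (-D l x y) 0 := by
    simp only [← expect_add_distrib]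
    refine expect_congr rfl fun x _ => expect_congr rfl fun y _ => ?_
    rcases le_total 0 (D l x y) with h | h
    · rw [max_eq_left h, max_eq_right (by linarith), add_zero]
    · rw [max_eq_right h, max_eq_left (by linarith), add_neg_cancel]
  rw [h2, hD l]
  linarith [hneg l, hgood l]

open Classical in
theorem rand_bound (D : L → Z → Z → ℝ) (good : L → Z → Z → Prop) (π : L → Z → Z → W)
    (δ₁ δ₂ τ η ζ lam : ℝ) (hδ₁ : 0 ≤ δ₁)
    (hδ₂ : 0 ≤ δ₂) (hτ : 0 ≤ τ) (hl0 : 0 < lam) (hl1 : lam ≤ 1)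
    (htr : ∀ l, Transfer (D l) δ₁ δ₂ τ) (hneg : ∀ l, 𝔼 x, 𝔼 y, max (-D l x y) 0 ≤ η)
    (hD : ∀ l, 𝔼 x, 𝔼 y, D l x y = 1)
    (hgood : ∀ l, 𝔼 x, 𝔼 y, max (D l x y) 0 * (if good l x y then 0 else 1) ≤ ζ)
    (hLW : (Fintype.card L : ℝ) ≤ Fintype.card W) (c : ℕ) (hτM : τ * 2 ^ c ≤ 1)
    (hR : RandComputes (FF good π) c) :
    2 / 3 * (1 - (Fintype.card L : ℝ) / Fintype.card W) ≤ (1 + η) / 3 + ζ +
      2 * (2 * lam + 2 ^ c * (Real.exp (-(lam ^ 2 * Fintype.card L)) / (lam * Fintype.card L)) +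
          9 * δ₁ + 2 ^ c * δ₂ + η) := by
  obtain ⟨Ω, _, w, T, _, a, b, hw0, hw1, hT, ha, hb, hab, hf, ht⟩ := rand_rects _ c hR
  let h : Ω → Z × (L → W) → Z × (L → W) → ℝ := fun ω x y => ∑ t, a ω t x * b ω t y
  have hr0 : ∀ x y, 0 ≤ ∑ ω, w ω * h ω x y := fun x y => sum_nonneg fun ω _ =>
    mul_nonneg (hw0 ω) (sum_nonneg fun t _ => mul_nonneg (ha _ _ _).1 (hb _ _ _).1)
  have hr1 : ∀ x y, ∑ ω, w ω * h ω x y ≤ 1 := fun x y => by
    rw [← hw1]
    exact sum_le_sum fun ω _ => mul_le_of_le_one_right (hw0 ω) (hab ω x y)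
  have h0 := le_expect univ_nonempty fun l (_ : l ∈ univ) =>
    P0_ge D good π hD (fun x y => ∑ ω, w ω * h ω x y) hr0 hf hLW l
  have h1 := expect_le univ_nonempty fun l (_ : l ∈ univ) =>
    P1_le D good π η ζ hD hneg hgood (fun x y => ∑ ω, w ω * h ω x y) hr1 ht l
  simp only [P0_sum, P1_sum, expect_sum_comm, ← mul_expect] at h0 h1
  have h2 := sum_le_sum fun ω (_ : ω ∈ univ) => mul_le_mul_of_nonneg_left
    (det_bound D π δ₁ δ₂ τ η (2 ^ c) lam hδ₁ hδ₂ hτ hl0 hl1 htr hneg (by exact_mod_cast hT)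
      (one_le_pow₀ (by norm_num)) hτM (a ω) (b ω) (ha ω) (hb ω) (hab ω)) (hw0 ω)
  rw [sum_congr rfl fun ω _ => mul_add (w ω) _ _, sum_add_distrib, ← sum_mul, hw1, one_mul] at h2
  exact h0.trans (h2.trans (add_le_add h1 le_rfl))

end Pool.Agent.Lib.MP_3bba25_lc
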