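import Mathlib
import Pool.Agent.Lib.MP_3bba25_lc.Defs
import Pool.Agent.Lib.MP_3bba25_lc.Gauss

set_option autoImplicit false
set_option linter.unusedSectionVars false

open Finset
open scoped BigOperators

namespace Pool.Agent.Lib.MP_3bba25_lc

/-- A real matrix with orthonormal rows as a unitary. -/
def toU {α : Type} [Fintype α] [DecidableEq α] (O : α → α → ℝ) (h : Orth O) :
    Matrix.unitaryGroup α ℂ :=
  ⟨Matrix.of fun i j => (O i j : ℂ), by
    rw [Matrix.mem_unitaryGroup_iff]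
    ext i j
    have := congrArg (fun r : ℝ => (r : ℂ)) (h i j)
    simp only [Matrix.mul_apply, Matrix.star_apply, Matrix.of_apply, Matrix.one_apply,
      RCLike.star_def, Complex.conj_ofReal]
    push_cast at this
    rw [this]
    split_ifs <;> simp⟩

lemma toU_apply {α : Type} [Fintype α] [DecidableEq α] (O : α → α → ℝ) (h : Orth O) (i j : α) :
    (toU O h).1 i j = (O i j : ℂ) := rfl

/-- Permutation matrices. -/
def pm {α : Type} [DecidableEq α] (σ : α → α) : α → α → ℝ := fun s t => if σ s = t then 1 else 0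

lemma orth_pm {α : Type} [Fintype α] [DecidableEq α] (σ : α → α) (h : Function.Injective σ) :
    Orth (pm σ) := by
  intro i i'
  simp only [pm, ite_mul, one_mul, zero_mul, sum_ite_eq, mem_univ, if_true, h.eq_iff]
  simp only [eq_comm]

/-- Matrix acting on a column vector. -/
def act {α : Type} [Fintype α] (O : α → α → ℝ) (φ : α → ℝ) : α → ℝ := fun m => ∑ m', O m m' * φ m'

lemma act_pm {α : Type} [Fintype α] [DecidableEq α] (σ : α → α) (φ : α → ℝ) :
    act (pm σ) φ = fun s => φ (σ s) := by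
  funext s
  simp [act, pm]

section step
variable {A B : Type} [Fintype A] [DecidableEq A] [Fintype B] [DecidableEq B]

lemma qstep_permA (σ : A × Bool → A × Bool) (h : Orth (pm σ)) (ψ : A × Bool × B → ℂ) :
    qstep ψ (Sum.inl (toU (pm σ) h)) =
      fun s => ψ ((σ (s.1, s.2.1)).1, (σ (s.1, s.2.1)).2, s.2.2) := by
  funext s
  simp only [qstep, Sum.elim_inl, toU_apply, pm]
  rw [sum_eq_single (σ (s.1, s.2.1))]
  · simp
  · intro p _ hp
    simp [hp.symm]
  · simp

lemma qstep_permB (σ : Bool × B → Bool × B) (h : Orth (pm σ)) (ψ : A × Bool × B → ℂ) :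
    qstep ψ (Sum.inr (toU (pm σ) h)) = fun s => ψ (s.1, σ s.2) := by
  funext s
  simp only [qstep, Sum.elim_inr, toU_apply, pm]
  rw [sum_eq_single (σ s.2)]
  · simp
  · intro p _ hp
    simp [hp.symm]
  · simp

end step

variable {X Y M J : Type} [Fintype X] [DecidableEq X] [Fintype Y] [DecidableEq Y]
  [Fintype M] [DecidableEq M] [Fintype J] [DecidableEq J]

/-- Alice exchanges one qubit of her register with the channel. -/
def swA (X : Type) (e : M ≃ (J → Bool)) (j : J) (s : (X × M) × Bool) : (X × M) × Bool :=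
  ((s.1.1, e.symm (Function.update (e s.1.2) j s.2)), e s.1.2 j)

/-- Bob exchanges one qubit of his register with the channel. -/
def swB (Y : Type) (e : M ≃ (J → Bool)) (j : J) (s : Bool × (Y × M)) : Bool × (Y × M) :=
  (e s.2.2 j, (s.2.1, e.symm (Function.update (e s.2.2) j s.1)))

lemma swA_inv (e : M ≃ (J → Bool)) (j : J) : Function.Involutive (swA X e j) := by
  rintro ⟨⟨x, m⟩, c⟩
  simp [swA]

lemma swB_inv (e : M ≃ (J → Bool)) (j : J) : Function.Involutive (swB Y e j) := by
  rintro ⟨c, ⟨y, m⟩⟩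
  simp [swB]

/-- The type of turns. -/
abbrev Turn (X Y M : Type) [Fintype X] [DecidableEq X] [Fintype Y] [DecidableEq Y]
    [Fintype M] [DecidableEq M] : Type :=
  Matrix.unitaryGroup ((X × M) × Bool) ℂ ⊕ Matrix.unitaryGroup (Bool × (Y × M)) ℂ

/-- Turns exchanging the listed qubits of the two registers. -/
noncomputable def swaps (X Y : Type) [Fintype X] [DecidableEq X] [Fintype Y] [DecidableEq Y]
    (e : M ≃ (J → Bool)) : List J → List (Turn X Y M)
  | [] => []
  | j :: l => Sum.inl (toU (pm (swA X e j)) (orth_pm _ (swA_inv e j).injective)) ::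
      Sum.inr (toU (pm (swB Y e j)) (orth_pm _ (swB_inv e j).injective)) ::
      Sum.inl (toU (pm (swA X e j)) (orth_pm _ (swA_inv e j).injective)) :: swaps X Y e l

lemma swaps_length (e : M ≃ (J → Bool)) (l : List J) : (swaps X Y e l).length = 3 * l.length := by
  induction l with
  | nil => rfl
  | cons j l ih => simp only [swaps, List.length_cons, ih]; omega

lemma foldl_swaps (e : M ≃ (J → Bool)) (l : List J) (hl : l.Nodup)
    (ψ : (X × M) × Bool × (Y × M) → ℂ) :
    (swaps X Y e l).foldl qstep ψ = fun s =>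
      ψ ((s.1.1, e.symm fun j => if j ∈ l then e s.2.2.2 j else e s.1.2 j), s.2.1,
        (s.2.2.1, e.symm fun j => if j ∈ l then e s.1.2 j else e s.2.2.2 j)) := by
  induction l generalizing ψ with
  | nil => simp [swaps]
  | cons j l ih =>
    obtain ⟨hj, hl⟩ := List.nodup_cons.mp hl
    simp only [swaps, List.foldl_cons]
    rw [ih hl, qstep_permA, qstep_permB, qstep_permA]
    funext s
    simp only [swA, swB, Equiv.apply_symm_apply, Function.update_self, Function.update_idem, hj,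
      if_false]
    congr 4
    · funext k
      by_cases hk : k = j
      · subst hk; simp
      · simp [hk]
    · congr 1
      funext k
      by_cases hk : k = j
      · subst hk; simp
      · simp [hk]

lemma foldl_swaps_all (e : M ≃ (J → Bool)) (ψ : (X × M) × Bool × (Y × M) → ℂ) :
    (swaps X Y e univ.toList).foldl qstep ψ = fun s =>
      ψ ((s.1.1, s.2.2.2), s.2.1, (s.2.2.1, s.1.2)) := by
  rw [foldl_swaps e _ (nodup_toList _)]
  simp

/-- Controlled operation of Alice. -/
def ctA (U : X → M → M → ℝ) (s t : (X × M) × Bool) : ℝ :=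
  if s.1.1 = t.1.1 ∧ s.2 = t.2 then U s.1.1 s.1.2 t.1.2 else 0

/-- Controlled operation of Bob. -/
def ctB (U : Y → M → M → ℝ) (s t : Bool × (Y × M)) : ℝ :=
  if s.2.1 = t.2.1 ∧ s.1 = t.1 then U s.2.1 s.2.2 t.2.2 else 0

lemma sum_ctA (U : X → M → M → ℝ) (s : (X × M) × Bool) {K : Type} [Field K] (c : ℝ →+* K)
    (F : (X × M) × Bool → K) :
    ∑ t, c (ctA U s t) * F t = ∑ m, c (U s.1.1 s.1.2 m) * F ((s.1.1, m), s.2) := by
  simp only [Fintype.sum_prod_type, ctA]
  rw [sum_eq_single s.1.1]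
  · refine sum_congr rfl fun m _ => ?_
    rw [sum_eq_single s.2]
    · simp
    · intro b _ hb; simp [hb.symm]
    · simp
  · intro x _ hx; simp [hx.symm]
  · simp

lemma sum_ctB (U : Y → M → M → ℝ) (s : Bool × (Y × M)) {K : Type} [Field K] (c : ℝ →+* K)
    (F : Bool × (Y × M) → K) :
    ∑ t, c (ctB U s t) * F t = ∑ m, c (U s.2.1 s.2.2 m) * F (s.1, (s.2.1, m)) := by
  simp only [Fintype.sum_prod_type, ctB]
  rw [sum_eq_single s.1]
  · rw [sum_eq_single s.2.1]
    · simp
    · intro b _ hb; simp [hb.symm]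
    · simp
  · intro x _ hx; simp [hx.symm]
  · simp

lemma orth_ctA (U : X → M → M → ℝ) (h : ∀ x, Orth (U x)) : Orth (ctA U) := by
  rintro ⟨⟨x, m⟩, c⟩ ⟨⟨x', m'⟩, c'⟩
  have := sum_ctA U ((x, m), c) (RingHom.id ℝ) (ctA U ((x', m'), c'))
  simp only [RingHom.id_apply] at this
  rw [this]
  simp only [ctA, Prod.mk.injEq]
  by_cases h1 : x' = x ∧ c' = c
  · obtain ⟨rfl, rfl⟩ := h1
    simp [h x' m m']
  · have h2 : ¬ ((x = x' ∧ m = m') ∧ c = c') := fun h2 => h1 ⟨h2.1.1.symm, h2.2.symm⟩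
    simp [h1, h2]

lemma orth_ctB (U : Y → M → M → ℝ) (h : ∀ x, Orth (U x)) : Orth (ctB U) := by
  rintro ⟨c, ⟨x, m⟩⟩ ⟨c', ⟨x', m'⟩⟩
  have := sum_ctB U (c, (x, m)) (RingHom.id ℝ) (ctB U (c', (x', m')))
  simp only [RingHom.id_apply] at this
  rw [this]
  simp only [ctB, Prod.mk.injEq]
  by_cases h1 : x' = x ∧ c' = c
  · obtain ⟨rfl, rfl⟩ := h1
    simp [h x' m m']
  · have h2 : ¬ (c = c' ∧ x = x' ∧ m = m') := fun h2 => h1 ⟨h2.2.1.symm, h2.1.symm⟩
    simp [h1, h2]

/-- The working register is held by Alice. -/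
def stA (m₀ : M) (x : X) (y : Y) (φ : M → ℝ) (s : (X × M) × Bool × (Y × M)) : ℂ :=
  if s.1.1 = x ∧ s.2.1 = false ∧ s.2.2.1 = y ∧ s.2.2.2 = m₀ then (φ s.1.2 : ℂ) else 0

/-- The working register is held by Bob. -/
def stB (m₀ : M) (x : X) (y : Y) (φ : M → ℝ) (s : (X × M) × Bool × (Y × M)) : ℂ :=
  if s.1.1 = x ∧ s.2.1 = false ∧ s.2.2.1 = y ∧ s.1.2 = m₀ then (φ s.2.2.2 : ℂ) else 0

lemma swaps_stA (e : M ≃ (J → Bool)) (m₀ : M) (x : X) (y : Y) (φ : M → ℝ) :
    (swaps X Y e univ.toList).foldl qstep (stA m₀ x y φ) = stB m₀ x y φ := by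
  rw [foldl_swaps_all]; rfl

lemma swaps_stB (e : M ≃ (J → Bool)) (m₀ : M) (x : X) (y : Y) (φ : M → ℝ) :
    (swaps X Y e univ.toList).foldl qstep (stB m₀ x y φ) = stA m₀ x y φ := by
  rw [foldl_swaps_all]; rfl

lemma qstep_ctA (U : X → M → M → ℝ) (h : Orth (ctA U)) (m₀ : M) (x : X) (y : Y) (φ : M → ℝ) :
    qstep (stA m₀ x y φ) (Sum.inl (toU (ctA U) h)) = stA m₀ x y (act (U x) φ) := by
  funext s
  simp only [qstep, Sum.elim_inl, toU_apply]
  have := sum_ctA U (s.1, s.2.1) Complex.ofRealHom (fun p => stA m₀ x y φ (p.1, p.2, s.2.2))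
  simp only [Complex.ofRealHom_eq_coe] at this
  rw [this]
  simp only [stA, act]
  split_ifs with h1
  · simp [h1.1]
  · simp

lemma qstep_ctB (U : Y → M → M → ℝ) (h : Orth (ctB U)) (m₀ : M) (x : X) (y : Y) (φ : M → ℝ) :
    qstep (stB m₀ x y φ) (Sum.inr (toU (ctB U) h)) = stB m₀ x y (act (U y) φ) := by
  funext s
  simp only [qstep, Sum.elim_inr, toU_apply]
  have := sum_ctB U s.2 Complex.ofRealHom (fun p => stB m₀ x y φ (s.1, p))
  simp only [Complex.ofRealHom_eq_coe] at this
  rw [this]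
  simp only [stB, act]
  split_ifs with h1
  · simp [h1.2.2.1]
  · simp

/-- Bob writes the output on the channel. -/
def wr (out : Y → M → Bool) (s : Bool × (Y × M)) : Bool × (Y × M) :=
  (xor s.1 (out s.2.1 s.2.2), s.2)

lemma wr_inv (out : Y → M → Bool) : Function.Involutive (wr out) := by
  rintro ⟨c, p⟩
  simp [wr]

theorem three_messages (e : M ≃ (J → Bool)) (m₀ : M) (U₁ U₃ : X → M → M → ℝ)
    (U₂ : Y → M → M → ℝ) (h₁ : ∀ x, Orth (U₁ x)) (h₂ : ∀ y, Orth (U₂ y)) (h₃ : ∀ x, Orth (U₃ x))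
    (out : Y → M → Bool) (f : X → Y → Bool)
    (h : ∀ x y, (2 : ℝ) / 3 ≤ ∑ m, if out y m = f x y then
      act (U₃ x) (act (U₂ y) (act (U₁ x) fun m => if m = m₀ then 1 else 0)) m ^ 2 else 0) :
    QuantComputes f (9 * Fintype.card J + 4) := by
  refine ⟨X × M, Y × M, inferInstance, inferInstance, inferInstance, inferInstance,
    fun x => (x, m₀), fun y => (y, m₀),
    Sum.inl (toU (ctA U₁) (orth_ctA U₁ h₁)) :: (swaps X Y e univ.toList ++
      (Sum.inr (toU (ctB U₂) (orth_ctB U₂ h₂)) :: (swaps X Y e univ.toList ++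
        (Sum.inl (toU (ctA U₃) (orth_ctA U₃ h₃)) :: (swaps X Y e univ.toList ++
          [Sum.inr (toU (pm (wr out)) (orth_pm _ (wr_inv out).injective))]))))), ?_, ?_⟩
  · simp only [List.length_cons, List.length_append, swaps_length, length_toList, card_univ,
      List.length_nil]
    omega
  · intro x y
    have h0 : (fun s : (X × M) × Bool × (Y × M) =>
        if s = ((x, m₀), false, (y, m₀)) then (1 : ℂ) else 0) =
        stA m₀ x y fun m => if m = m₀ then 1 else 0 := by
      funext ⟨⟨x', m⟩, c, ⟨y', m'⟩⟩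
      simp only [stA, Prod.mk.injEq]
      by_cases a1 : x' = x <;> by_cases a2 : m = m₀ <;> simp [a1, a2]
    rw [h0]
    simp only [List.foldl_cons, List.foldl_append, qstep_ctA, qstep_ctB, swaps_stA, swaps_stB,
      List.foldl_nil, qstep_permB]
    refine (h x y).trans (le_of_eq ?_)
    symm
    simp only [Fintype.sum_prod_type, stB, wr]
    rw [sum_eq_single x, sum_eq_single m₀, sum_eq_single y]
    · refine sum_congr rfl fun m _ => ?_
      cases out y m <;> cases f x y <;> simp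
    · intro b _ hb; simp [hb]
    · simp
    · intro b _ hb; simp [hb]
    · simp
    · intro b _ hb; simp [hb]
    · simp

end Pool.Agent.Lib.MP_3bba25_lc
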