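import Mathlib
import Pool.Agent.Lib.MP_3bba25_lc.QSim

set_option autoImplicit false
set_option linter.unusedSectionVars false

open Finset
open scoped BigOperators

namespace Pool.Agent.Lib.MP_3bba25_lc

variable {K : Type} [Fintype K] [DecidableEq K]

lemma Orth.transpose {O : K → K → ℝ} (h : Orth O) : Orth fun i j => O j i := by
  have h1 : (Matrix.of O) * (Matrix.of O).transpose = 1 := by
    ext i j
    simp only [Matrix.mul_apply, Matrix.transpose_apply, Matrix.of_apply, Matrix.one_apply]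
    exact h i j
  have h2 := mul_eq_one_comm.mp h1
  intro i j
  have := congrFun (congrFun h2 i) j
  simpa only [Matrix.mul_apply, Matrix.transpose_apply, Matrix.of_apply, Matrix.one_apply] using this

lemma sum_act_sq {O : K → K → ℝ} (h : Orth O) (φ : K → ℝ) :
    ∑ k, act O φ k ^ 2 = ∑ k, φ k ^ 2 := by
  have h1 : ∀ k, act O φ k ^ 2 = ∑ i, ∑ i', φ i * φ i' * (O k i * O k i') := by
    intro k
    rw [sq, act, sum_mul_sum]
    exact sum_congr rfl fun i _ => sum_congr rfl fun i' _ => by ring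
  simp only [h1]
  rw [sum_comm]
  refine sum_congr rfl fun i _ => ?_
  rw [sum_comm]
  have h2 := h.transpose i
  simp only at h2
  simp only [← mul_sum, h2, mul_ite, mul_one, mul_zero, sum_ite_eq, mem_univ, if_true, sq]

/-- Tensor powers. -/
def tens (T : ℕ) (O : K → K → ℝ) (m m' : Fin T → K) : ℝ := ∏ t, O (m t) (m' t)

lemma prod_ite_eq_fun {T : Type} [Fintype T] [DecidableEq T] (m m' : T → K) :
    ∏ t, (if m t = m' t then (1 : ℝ) else 0) = if m = m' then 1 else 0 := by
  split_ifs with h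
  · simp [h]
  · obtain ⟨t, ht⟩ := Function.ne_iff.mp h
    exact prod_eq_zero (mem_univ t) (if_neg ht)

lemma act_tens (T : ℕ) (O : K → K → ℝ) (φ : Fin T → K → ℝ) :
    act (tens T O) (fun m => ∏ t, φ t (m t)) = fun m => ∏ t, act O (φ t) (m t) := by
  funext m
  simp only [act, tens, ← prod_mul_distrib]
  rw [prod_univ_sum, Fintype.piFinset_univ]

lemma orth_tens (T : ℕ) {O : K → K → ℝ} (h : Orth O) : Orth (tens T O) := by
  intro m m'
  rw [← prod_ite_eq_fun]
  simp only [← h _ _]
  exact congrFun (act_tens T O fun t => O (m' t)) m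

lemma sum_prod_fun (T : ℕ) (g : K → ℝ) : ∑ m : Fin T → K, ∏ t, g (m t) = (∑ k, g k) ^ T := by
  rw [← Fintype.piFinset_univ, ← prod_univ_sum]
  simp

variable {X Y : Type} [Fintype X] [DecidableEq X] [Fintype Y] [DecidableEq Y]

open Classical in
theorem amplify (j : ℕ) (hK : Fintype.card K = 2 ^ j) (k₀ : K) (V₁ V₃ : X → K → K → ℝ)
    (V₂ : Y → K → K → ℝ) (h₁ : ∀ x, Orth (V₁ x)) (h₂ : ∀ y, Orth (V₂ y)) (h₃ : ∀ x, Orth (V₃ x))
    (acc : Y → K → Prop) (f : X → Y → Bool) (T : ℕ) (φ : X → Y → K → ℝ)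
    (hφ : ∀ x y, act (V₃ x) (act (V₂ y) (act (V₁ x) fun k => if k = k₀ then 1 else 0)) = φ x y)
    (ht : ∀ x y, f x y = true → 2 ≤ T * ∑ k, if acc y k then φ x y k ^ 2 else 0)
    (hf : ∀ x y, f x y = false → T * (∑ k, if acc y k then φ x y k ^ 2 else 0) ≤ 1 / 3) :
    QuantComputes f (9 * (T * j) + 4) := by
  have hc : Fintype.card (Fin T → K) = Fintype.card (Fin (T * j) → Bool) := by
    simp [hK, ← pow_mul, mul_comm]
  have := three_messages (Fintype.equivOfCardEq hc) (fun _ => k₀) (fun x => tens T (V₁ x))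
    (fun x => tens T (V₃ x)) (fun y => tens T (V₂ y)) (fun x => orth_tens T (h₁ x))
    (fun x => orth_tens T (h₂ x)) (fun x => orth_tens T (h₃ x))
    (fun y m => decide (∃ t, acc y (m t))) f ?_
  · simpa using this
  intro x y
  have e0 : (fun m : Fin T → K => if m = fun _ => k₀ then (1 : ℝ) else 0) =
      fun m => ∏ t, (fun (_ : Fin T) k => if k = k₀ then (1 : ℝ) else 0) t (m t) := by
    funext m
    rw [prod_ite_eq_fun m fun _ => k₀]
  rw [e0, act_tens T (V₁ x) (fun _ k => if k = k₀ then (1 : ℝ) else 0),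
    act_tens T (V₂ y) (fun _ => act (V₁ x) fun k => if k = k₀ then (1 : ℝ) else 0),
    act_tens T (V₃ x) (fun _ => act (V₂ y) (act (V₁ x) fun k => if k = k₀ then (1 : ℝ) else 0))]
  simp only [hφ]
  have n1 : ∑ k, φ x y k ^ 2 = 1 := by
    rw [← hφ, sum_act_sq (h₃ x), sum_act_sq (h₂ y), sum_act_sq (h₁ x)]
    simp
  set a := ∑ k, if acc y k then φ x y k ^ 2 else 0 with ha
  have ha0 : 0 ≤ a := sum_nonneg fun k _ => by positivity
  have n2 : ∑ k, (if acc y k then 0 else φ x y k ^ 2) = 1 - a := by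
    rw [eq_sub_iff_add_eq, ha, ← sum_add_distrib, ← n1]
    exact sum_congr rfl fun k _ => by split_ifs <;> simp
  have ha1 : 0 ≤ 1 - a := by
    rw [← n2]
    exact sum_nonneg fun k _ => by positivity
  have n3 : ∑ m : Fin T → K, (if decide (∃ t, acc y (m t)) = false then
      (∏ t, φ x y (m t)) ^ 2 else 0) = (1 - a) ^ T := by
    rw [← n2, ← sum_prod_fun]
    refine sum_congr rfl fun m _ => ?_
    split_ifs with h
    · rw [← prod_pow]
      refine prod_congr rfl fun t _ => ?_
      rw [if_neg fun h' => (of_decide_eq_false h) ⟨t, h'⟩]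
    · obtain ⟨t, ht⟩ : ∃ t, acc y (m t) := by simpa using h
      symm
      exact prod_eq_zero (mem_univ t) (if_pos ht)
  have n4 : ∑ m : Fin T → K, (if decide (∃ t, acc y (m t)) = true then
      (∏ t, φ x y (m t)) ^ 2 else 0) = 1 - (1 - a) ^ T := by
    rw [eq_sub_iff_add_eq, ← n3, ← sum_add_distrib]
    have : ∑ m : Fin T → K, (∏ t, φ x y (m t)) ^ 2 = 1 := by
      simp only [← prod_pow]
      rw [sum_prod_fun T fun k => φ x y k ^ 2, n1, one_pow]
    rw [← this]
    refine sum_congr rfl fun m _ => ?_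
    cases decide (∃ t, acc y (m t)) <;> simp
  cases hxy : f x y
  · rw [n3]
    have h1 := hf x y hxy
    have h2 := one_add_mul_le_pow (show -2 ≤ -a by linarith) T
    rw [← sub_eq_add_neg 1 a] at h2
    linarith
  · rw [n4]
    have h1 := ht x y hxy
    have h2 := one_add_mul_le_pow (show -2 ≤ a by linarith) T
    have h3 : (1 - a) ^ T * (1 + a) ^ T ≤ 1 := by
      rw [← mul_pow]
      exact pow_le_one₀ (by positivity) (by nlinarith)
    have h4 : 0 ≤ (1 - a) ^ T := by positivity
    nlinarith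

end Pool.Agent.Lib.MP_3bba25_lc
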