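import Mathlib
import Pool.Agent.Lib.MP_3bba25_lc.QAmp
import Pool.Agent.Lib.MP_3bba25_lc.Cert
import Pool.Agent.Lib.MP_3bba25_lc.Density
import Pool.Agent.Lib.MP_3bba25_lc.Lower

set_option autoImplicit false
set_option linter.unusedSectionVars false

open Finset
open scoped BigOperators

namespace Pool.Agent.Lib.MP_3bba25_lc

section general
variable {A B : Type} [Fintype A] [DecidableEq A] [Fintype B] [DecidableEq B]

/-- Kronecker product. -/
def kron (U : A → A → ℝ) (V : B → B → ℝ) (s t : A × B) : ℝ := U s.1 t.1 * V s.2 t.2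

lemma act_kron (U : A → A → ℝ) (V : B → B → ℝ) (φ : A → ℝ) (ψ : B → ℝ) :
    act (kron U V) (fun k => φ k.1 * ψ k.2) = fun k => act U φ k.1 * act V ψ k.2 := by
  funext k
  simp only [act, kron, Fintype.sum_prod_type, sum_mul_sum]
  exact sum_congr rfl fun a _ => sum_congr rfl fun b _ => by ring

lemma orth_kron {U : A → A → ℝ} {V : B → B → ℝ} (hU : Orth U) (hV : Orth V) :
    Orth (kron U V) := by
  rintro ⟨a, b⟩ ⟨a', b'⟩
  have := congrFun (act_kron U V (U a') (V b')) (a, b)
  simp only [act] at this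
  simp only [kron] at this ⊢
  rw [this, hU, hV]
  by_cases h1 : a = a' <;> by_cases h2 : b = b' <;> simp [h1, h2]

/-- A matrix with signs on both sides. -/
def dh (a b : A → Bool) (H : A → A → ℝ) (i j : A) : ℝ := sg (a i) * H i j * sg (b j)

lemma orth_dh (a b : A → Bool) {H : A → A → ℝ} (h : Orth H) : Orth (dh a b H) := by
  intro i i'
  have : ∀ j, dh a b H i j * dh a b H i' j = sg (a i) * sg (a i') * (H i j * H i' j) := by
    intro j
    simp only [dh]
    linear_combination (sg (a i) * sg (a i') * (H i j * H i' j)) * sg_mul_self (b j)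
  simp only [this, ← mul_sum, h i i']
  split_ifs with h1
  · subst h1; simp [sg_mul_self]
  · simp

lemma orth_comp {O : A → A → ℝ} (h : Orth O) (σ : A → A) (hσ : Function.Injective σ) :
    Orth fun k k' => O (σ k) k' := by
  intro i i'
  simp only [h (σ i) (σ i'), hσ.eq_iff]

lemma orth_id : Orth (pm (id : A → A)) := orth_pm _ Function.injective_id

lemma act_id (φ : A → ℝ) : act (pm id) φ = φ := act_pm id φ

end general

section hadamard
variable {ι : Type} [Fintype ι] [DecidableEq ι]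

/-- Integer signs. -/
def sz (b : Bool) : ℤ := if b then -1 else 1

lemma sz_cast (b : Bool) : (sz b : ℝ) = sg b := by cases b <;> simp [sz]

lemma abs_sz (b : Bool) : |sz b| = 1 := by cases b <;> simp [sz]

/-- The parity of the inner product. -/
def sgz (a b : ι → Bool) : ℤ := ∏ k, sz (a k && b k)

lemma abs_sgz (a b : ι → Bool) : |sgz a b| = 1 := by
  simp [sgz, abs_prod, abs_sz]

lemma sgz_comm (a b : ι → Bool) : sgz a b = sgz b a := by
  simp [sgz, Bool.and_comm]

lemma sgz_mul_self (a b : ι → Bool) : (sgz a b : ℝ) * sgz a b = 1 := by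
  rw [← abs_mul_abs_self, ← Int.cast_abs, abs_sgz]
  simp

/-- Hadamard matrices. -/
def had (γ : ℝ) (a b : ι → Bool) : ℝ := γ * sgz a b

lemma had_zero (γ : ℝ) (a : ι → Bool) : had γ a (fun _ => false) = γ := by
  simp [had, sgz, sz]

lemma orth_had (γ : ℝ) (hγ : γ ^ 2 * 2 ^ Fintype.card ι = 1) :
    Orth (had γ : (ι → Bool) → (ι → Bool) → ℝ) := by
  intro a a'
  have h1 : ∀ b, had γ a b * had γ a' b = γ ^ 2 * ∏ k, (sg (a k && b k) * sg (a' k && b k)) := by
    intro b
    simp only [had, sgz, Int.cast_prod, sz_cast, prod_mul_distrib]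
    ring
  simp only [h1]
  rw [← mul_sum, ← Fintype.piFinset_univ,
    ← prod_univ_sum (fun _ => univ) (fun k c => sg (a k && c) * sg (a' k && c))]
  split_ifs with h
  · subst h
    simp only [sg_mul_self, sum_const, card_univ, Fintype.card_bool, prod_const]
    simpa using hγ
  · obtain ⟨k, hk⟩ := Function.ne_iff.mp h
    rw [prod_eq_zero (mem_univ k), mul_zero]
    revert hk
    cases a k <;> cases a' k <;> simp

/-- The family of orthogonal matrices. -/
def GG (γ : ℝ) (l i j : ι → Bool) : ℝ := sgz l j * had γ i j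

lemma orth_GG (γ : ℝ) (hγ : γ ^ 2 * 2 ^ Fintype.card ι = 1) (l : ι → Bool) : Orth (GG γ l) := by
  intro i i'
  rw [← orth_had γ hγ i i']
  refine sum_congr rfl fun j _ => ?_
  simp only [GG]
  linear_combination (had γ i j * had γ i' j) * sgz_mul_self l j

lemma abs_GG (γ : ℝ) (hγ : 0 ≤ γ) (l i j : ι → Bool) : |GG γ l i j| ≤ γ := by
  simp only [GG, had, abs_mul, ← Int.cast_abs, abs_sgz, abs_of_nonneg hγ]
  simp

/-- Alice's integer vector. -/
def XA (l : ι → Bool) (x : (ι → Bool) ⊕ (ι → Bool) → Bool) (q : (ι → Bool) × (ι → Bool)) : ℤ :=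
  sgz l q.2 * sgz q.1 q.2 * (sz (x (Sum.inl q.1)) * sz (x (Sum.inr q.2)))

/-- Bob's integer vector. -/
def YB (y : (ι → Bool) ⊕ (ι → Bool) → Bool) (q : (ι → Bool) × (ι → Bool)) : ℤ :=
  sz (y (Sum.inl q.1)) * sz (y (Sum.inr q.2))

lemma abs_XY (l : ι → Bool) (x y : (ι → Bool) ⊕ (ι → Bool) → Bool) :
    |∑ q, XA l x q * YB y q| ≤ Fintype.card ((ι → Bool) × (ι → Bool)) := by
  refine (abs_sum_le_sum_abs _ _).trans (le_of_eq ?_)
  simp only [XA, YB, abs_mul, abs_sgz, abs_sz, mul_one, sum_const, card_univ, nsmul_eq_mul]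

lemma Phi_eq (γ : ℝ) (hγ : γ ^ 2 * 2 ^ Fintype.card ι = 1) (l : ι → Bool)
    (x y : (ι → Bool) ⊕ (ι → Bool) → Bool) :
    Phi (GG γ l) (bx x y) = ((∑ q, XA l x q * YB y q : ℤ) : ℝ) * γ ^ 3 := by
  have h : (Fintype.card (ι → Bool) : ℝ) = 2 ^ Fintype.card ι := by simp
  rw [Phi, h, div_eq_iff (by positivity), Fintype.sum_prod_type]
  push_cast
  simp only [sum_mul]
  refine sum_congr rfl fun i _ => sum_congr rfl fun j _ => ?_
  simp only [GG, had, XA, YB, bx, sg_xor]
  push_cast
  simp only [sz_cast]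
  linear_combination (-(sgz l j * sgz i j * (sg (x (Sum.inl i)) * sg (x (Sum.inr j))) *
    (sg (y (Sum.inl i)) * sg (y (Sum.inr j))) * γ)) * hγ

lemma amp_eq (γ : ℝ) (hγ : γ ^ 2 * 2 ^ Fintype.card ι = 1)
    (x y : (ι → Bool) ⊕ (ι → Bool) → Bool) :
    act (dh (fun _ => false) (fun j => x (Sum.inr j)) (had γ))
      (act (dh (fun j => y (Sum.inr j)) (fun i => y (Sum.inl i)) (had γ))
        (act (dh (fun i => x (Sum.inl i)) (fun _ => false) (had γ))
          fun k => if k = fun _ => false then 1 else 0)) =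
      fun l => Phi (GG γ l) (bx x y) := by
  funext l
  have h : (Fintype.card (ι → Bool) : ℝ) = 2 ^ Fintype.card ι := by simp
  rw [Phi, h, eq_div_iff (by positivity), sum_comm]
  simp only [act, dh, mul_ite, mul_one, mul_zero, sum_ite_eq', mem_univ, if_true, had_zero,
    sum_mul, mul_sum, sg_false]
  refine sum_congr rfl fun j _ => sum_congr rfl fun i _ => ?_
  simp only [GG, had, bx, sg_xor, sgz_comm j i]
  linear_combination ((sgz l j * sgz i j * (sg (x (Sum.inl i)) * sg (x (Sum.inr j))) *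
    (sg (y (Sum.inl i)) * sg (y (Sum.inr j))) * γ)) * hγ

end hadamard

end Pool.Agent.Lib.MP_3bba25_lc
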