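import Mathlib
import Pool.Agent.Lib.MP_3bba25_lc.Defs

set_option autoImplicit false

open Finset
open scoped BigOperators

namespace Pool.Agent.Lib.MP_3bba25_lc

/-- A Merlin-Arthur protocol of cost at most `c`: both parties see a witness of `w` bits, then
public coins are tossed and a protocol tree with at most `d` bits is run, `w + d ≤ c`. -/
def MAComputes {X Y : Type} (f : X → Y → Bool) (c : ℕ) : Prop :=
  ∃ (w d : ℕ) (Ω : Type) (_ : Fintype Ω) (μ : Ω → ℝ) (P : (Fin w → Bool) → Ω → Proto X Y),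
    w + d ≤ c ∧ (∀ ω, 0 ≤ μ ω) ∧ ∑ ω, μ ω = 1 ∧ (∀ s ω x y, (P s ω).bits x y ≤ d) ∧
    (∀ x y, f x y = true →
      ∃ s, (2 : ℝ) / 3 ≤ ∑ ω, if (P s ω).run x y = true then μ ω else 0) ∧
    ∀ x y, f x y = false →
      ∀ s, (∑ ω, if (P s ω).run x y = true then μ ω else 0) ≤ (1 : ℝ) / 3

end Pool.Agent.Lib.MP_3bba25_lc
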