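import Mathlib
import Pool.Agent.Lib.MP_3bba25_lc.Density
import Pool.Agent.Lib.MP_3bba25_lc.QAmp

set_option autoImplicit false
set_option linter.unusedSectionVars false

open Finset MeasureTheory ProbabilityTheory
open scoped BigOperators

namespace Pool.Agent.Lib.MP_3bba25_lc

variable {V : Type} [Fintype V] [DecidableEq V]

lemma integral_cexp_gm (t : V → ℝ) :
    ∫ g, Complex.exp ((∑ i, t i * g i : ℝ) * Complex.I) ∂(gm V) =
      ((Real.exp (-(∑ i, t i ^ 2) / 2) : ℝ) : ℂ) := by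
  have h : ∀ g : V → ℝ, Complex.exp ((∑ i, t i * g i : ℝ) * Complex.I) =
      ∏ i, Complex.exp (t i * g i * Complex.I) := by
    intro g
    rw [← Complex.exp_sum]
    push_cast
    rw [sum_mul]
  simp only [h]
  rw [integral_fintype_prod_eq_prod (fun i (x : ℝ) => Complex.exp (t i * x * Complex.I))]
  simp only [← charFun_apply_real, charFun_gaussianReal]
  rw [← Complex.exp_sum]
  push_cast
  congr 1
  rw [neg_div, sum_div, ← sum_neg_distrib]
  exact sum_congr rfl fun i _ => by simp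

/-- A Gaussian vector together with its rotation. -/
noncomputable def vv (G : V → V → ℝ) (g : V → ℝ) : V ⊕ V → ℝ := Sum.elim g (rot G g)

lemma nice_vv (G : V → V → ℝ) (k : V ⊕ V) : Nice fun g => vv G g k := by
  rcases k with i | j
  · exact nice_coord i
  · exact nice_rot G j

lemma nice_sin (G : V → V → ℝ) (k : V ⊕ V) : Nice fun g => Real.sin (vv G g k) :=
  (nice_vv G k).of_le (Real.measurable_sin.comp (nice_vv G k).1) fun _ => Real.abs_sin_le_abs

/-- Moments of sines. -/
noncomputable def sm (G : V → V → ℝ) (U : Finset (V ⊕ V)) : ℝ :=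
  ∫ g, ∏ k ∈ U, Real.sin (vv G g k) ∂(gm V)

lemma abs_sm_le (G : V → V → ℝ) (U : Finset (V ⊕ V)) : |sm G U| ≤ 1 := by
  have h := norm_integral_le_of_norm_le_const (μ := gm V)
    (f := fun g => ∏ k ∈ U, Real.sin (vv G g k)) (C := 1) (Filter.Eventually.of_forall fun g => by
      rw [Real.norm_eq_abs, abs_prod]
      exact prod_le_one (fun _ _ => abs_nonneg _) fun _ _ => Real.abs_sin_le_one _)
  rw [sm]
  simpa using h

/-- The cross form. -/
noncomputable def Bq (G : V → V → ℝ) (U : Finset (V ⊕ V)) (ε : V ⊕ V → Bool) : ℝ :=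
  ∑ q ∈ U.toLeft ×ˢ U.toRight, G q.1 q.2 * (sg (ε (Sum.inl q.1)) * sg (ε (Sum.inr q.2)))

lemma prod_sin (U : Finset (V ⊕ V)) (a : V ⊕ V → ℝ) :
    ∑ ε : V ⊕ V → Bool, (chi U ε : ℂ) *
        Complex.exp ((∑ k ∈ U, sg (ε k) * a k : ℝ) * Complex.I) =
      2 ^ Fintype.card (V ⊕ V) * Complex.I ^ U.card * ((∏ k ∈ U, Real.sin (a k) : ℝ) : ℂ) := by
  have h1 : ∀ ε : V ⊕ V → Bool, (chi U ε : ℂ) *
      Complex.exp ((∑ k ∈ U, sg (ε k) * a k : ℝ) * Complex.I) =
      ∏ k, (if k ∈ U then (sg (ε k) : ℂ) * Complex.exp (sg (ε k) * a k * Complex.I) else 1) := by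
    intro ε
    rw [← prod_filter, filter_mem_eq_inter, univ_inter, prod_mul_distrib, ← Complex.exp_sum, chi]
    push_cast
    rw [sum_mul]
  simp only [h1]
  rw [← Fintype.piFinset_univ, ← prod_univ_sum (fun _ => univ)
    (fun k b => if k ∈ U then (sg b : ℂ) * Complex.exp (sg b * a k * Complex.I) else 1)]
  have h2 : ∀ k, ∑ b : Bool, (if k ∈ U then (sg b : ℂ) * Complex.exp (sg b * a k * Complex.I)
      else 1) = 2 * (if k ∈ U then Complex.I * (Real.sin (a k) : ℂ) else 1) := by
    intro k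
    split_ifs
    · rw [Fintype.sum_bool, sg_true, sg_false, Complex.ofReal_sin, Complex.sin]
      push_cast
      have := Complex.I_mul_I
      simp only [neg_mul, one_mul]
      linear_combination (-(Complex.exp (-(a k * Complex.I)) - Complex.exp (a k * Complex.I))) * this
    · simp
  simp only [h2]
  rw [prod_mul_distrib, prod_const, card_univ, ← prod_filter, filter_mem_eq_inter, univ_inter,
    prod_mul_distrib, prod_const, mul_assoc]
  push_cast
  rfl

lemma lin_form (G : V → V → ℝ) (U : Finset (V ⊕ V)) (ε : V ⊕ V → Bool) (g : V → ℝ) :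
    ∑ k ∈ U, sg (ε k) * vv G g k = ∑ i, ((if i ∈ U.toLeft then sg (ε (Sum.inl i)) else 0) +
      ∑ j ∈ U.toRight, G i j * sg (ε (Sum.inr j))) * g i := by
  rw [sum_sum_eq_sum_toLeft_add_sum_toRight]
  simp only [vv, Sum.elim_inl, Sum.elim_inr, rot, add_mul, sum_add_distrib, ite_mul, zero_mul,
    sum_mul, mul_sum]
  rw [← sum_filter, filter_mem_eq_inter, univ_inter, sum_comm]
  congr 1
  exact sum_congr rfl fun i _ => sum_congr rfl fun j _ => by ring

lemma norm_form {G : V → V → ℝ} (hG : Orth G) (U : Finset (V ⊕ V)) (ε : V ⊕ V → Bool) :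
    ∑ i, ((if i ∈ U.toLeft then sg (ε (Sum.inl i)) else 0) +
      ∑ j ∈ U.toRight, G i j * sg (ε (Sum.inr j))) ^ 2 = U.card + 2 * Bq G U ε := by
  have h1 : ∑ i, (if i ∈ U.toLeft then sg (ε (Sum.inl i)) else 0) ^ 2 = U.toLeft.card := by
    simp only [ite_pow, sg_sq, ne_eq, OfNat.ofNat_ne_zero, not_false_eq_true, zero_pow]
    rw [← sum_filter, filter_mem_eq_inter, univ_inter]
    simp
  have h2 : ∑ i, (∑ j ∈ U.toRight, G i j * sg (ε (Sum.inr j))) ^ 2 = U.toRight.card := by
    have h3 : ∀ i, (∑ j ∈ U.toRight, G i j * sg (ε (Sum.inr j))) ^ 2 =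
        ∑ j ∈ U.toRight, ∑ j' ∈ U.toRight,
          sg (ε (Sum.inr j)) * sg (ε (Sum.inr j')) * (G i j * G i j') := by
      intro i
      rw [sq, sum_mul_sum]
      exact sum_congr rfl fun j _ => sum_congr rfl fun j' _ => by ring
    simp only [h3]
    rw [sum_comm, card_eq_sum_ones]
    push_cast
    refine sum_congr rfl fun j hj => ?_
    rw [sum_comm]
    have h4 := hG.transpose j
    simp only at h4
    simp only [← mul_sum, h4, mul_ite, mul_one, mul_zero, sum_ite_eq, hj, if_true, sg_mul_self]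
  have h3 : ∑ i, (if i ∈ U.toLeft then sg (ε (Sum.inl i)) else 0) *
      ∑ j ∈ U.toRight, G i j * sg (ε (Sum.inr j)) = Bq G U ε := by
    simp only [ite_mul, zero_mul]
    rw [← sum_filter, filter_mem_eq_inter, univ_inter, Bq, sum_product]
    refine sum_congr rfl fun i _ => ?_
    rw [mul_sum]
    exact sum_congr rfl fun j _ => by ring
  rw [← card_toLeft_add_card_toRight (u := U)]
  push_cast
  rw [← h1, ← h2, ← h3, mul_sum, ← sum_add_distrib, ← sum_add_distrib]
  exact sum_congr rfl fun i _ => by ring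

lemma sm_formula {G : V → V → ℝ} (hG : Orth G) (U : Finset (V ⊕ V)) :
    Complex.I ^ U.card * (sm G U : ℂ) =
      ((Real.exp (-(U.card : ℝ) / 2) * 𝔼 ε, chi U ε * Real.exp (-Bq G U ε) : ℝ) : ℂ) := by
  have h0 : (2 : ℂ) ^ Fintype.card (V ⊕ V) ≠ 0 := pow_ne_zero _ two_ne_zero
  apply mul_left_cancel₀ h0
  have h1 : ∀ ε : V ⊕ V → Bool, Integrable (fun g => (chi U ε : ℂ) *
      Complex.exp ((∑ k ∈ U, sg (ε k) * vv G g k : ℝ) * Complex.I)) (gm V) := by
    intro ε
    refine Integrable.const_mul ?_ _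
    have hm : Measurable fun g => ∑ k ∈ U, sg (ε k) * vv G g k :=
      (nice_sum _ _ fun k _ => (nice_const _).mul (nice_vv G k)).1
    refine Integrable.of_bound (C := 1) (Complex.measurable_exp.comp
      ((Complex.measurable_ofReal.comp hm).mul_const _)).aestronglyMeasurable
      (Filter.Eventually.of_forall fun g => ?_)
    exact (Complex.norm_exp_ofReal_mul_I _).le
  rw [← mul_assoc, sm, ← integral_complex_ofReal, ← integral_const_mul]
  simp only [← prod_sin]
  rw [integral_finsetSum _ fun ε _ => h1 ε]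
  simp only [integral_const_mul, lin_form, integral_cexp_gm, norm_form hG]
  rw [Fintype.expect_eq_sum_div_card, Fintype.card_fun, Fintype.card_bool]
  have h2 : ∀ ε : V ⊕ V → Bool, Real.exp (-((U.card : ℝ) + 2 * Bq G U ε) / 2) =
      Real.exp (-(U.card : ℝ) / 2) * Real.exp (-Bq G U ε) := by
    intro ε
    rw [← Real.exp_add]
    congr 1
    ring
  simp only [h2]
  generalize Real.exp (-(U.card : ℝ) / 2) = A
  push_cast
  field_simp
  rw [mul_sum]
  exact sum_congr rfl fun ε _ => by ring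

lemma expect_flip {ι : Type} [Fintype ι] [DecidableEq ι] (U : Finset ι) (k : ι) (hk : k ∈ U)
    (F : (ι → Bool) → ℝ) (hF : ∀ z, F (Function.update z k (!z k)) = F z) :
    𝔼 z, chi U z * F z = 0 := by
  have h : Function.Involutive fun z : ι → Bool => Function.update z k (!z k) := by
    intro z
    simp
  have h1 : 𝔼 z, chi U (Function.update z k (!z k)) * F (Function.update z k (!z k)) =
      𝔼 z, chi U z * F z := Fintype.expect_equiv h.toPerm _ _ fun _ => rfl
  have h2 : ∀ z : ι → Bool, chi U (Function.update z k (!z k)) = -chi U z := by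
    intro z
    rw [chi, chi, ← mul_prod_erase U _ hk, ← mul_prod_erase U _ hk, Function.update_self, sg_not,
      neg_mul]
    congr 2
    exact prod_congr rfl fun i hi => by rw [Function.update_of_ne (ne_of_mem_erase hi)]
  simp only [h2, hF, neg_mul, expect_neg_distrib] at h1
  linarith

lemma expect_Bq_pow (G : V → V → ℝ) (U : Finset (V ⊕ V)) (e : ℕ) (he : 2 * e < U.card) :
    𝔼 ε, chi U ε * Bq G U ε ^ e = 0 := by
  simp only [Bq, sum_pow', mul_sum, expect_sum_comm]
  refine sum_eq_zero fun φ _ => ?_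
  obtain ⟨k, hk, hk'⟩ : ∃ k ∈ U, k ∉ (univ.image fun c => Sum.inl (φ c).1) ∪
      (univ.image fun c => Sum.inr (φ c).2) := by
    refine exists_mem_notMem_of_card_lt_card (lt_of_le_of_lt ((card_union_le _ _).trans ?_) he)
    have h1 := card_image_le (s := univ) (f := fun c => (Sum.inl (φ c).1 : V ⊕ V))
    have h2 := card_image_le (s := univ) (f := fun c => (Sum.inr (φ c).2 : V ⊕ V))
    simp only [card_univ, Fintype.card_fin] at h1 h2
    omega
  refine expect_flip U k hk _ fun z => prod_congr rfl fun c _ => ?_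
  simp only [mem_union, mem_image, mem_univ, true_and, not_or, not_exists] at hk'
  rw [Function.update_of_ne (hk'.1 c), Function.update_of_ne (hk'.2 c)]

lemma abs_chi {ι : Type} (U : Finset ι) (z : ι → Bool) : |chi U z| = 1 := by
  simp [chi, abs_prod, abs_sg]

lemma abs_Bq_le (G : V → V → ℝ) (γ : ℝ) (hγ : ∀ i j, |G i j| ≤ γ) (hγ0 : 0 ≤ γ)
    (U : Finset (V ⊕ V)) (ε : V ⊕ V → Bool) : |Bq G U ε| ≤ (U.card : ℝ) ^ 2 * γ := by
  refine (abs_sum_le_sum_abs _ _).trans ?_
  refine (sum_le_card_nsmul _ _ γ fun q _ => by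
    rw [abs_mul, abs_mul, abs_sg, abs_sg, mul_one, mul_one]; exact hγ _ _).trans ?_
  rw [nsmul_eq_mul, card_product, ← card_toLeft_add_card_toRight (u := U)]
  refine mul_le_mul_of_nonneg_right ?_ hγ0
  push_cast
  nlinarith [Nat.cast_nonneg (α := ℝ) U.toLeft.card, Nat.cast_nonneg (α := ℝ) U.toRight.card]

lemma abs_sm_pow {G : V → V → ℝ} (hG : Orth G) (γ : ℝ) (hγ : ∀ i j, |G i j| ≤ γ) (hγ0 : 0 ≤ γ)
    (x : ℝ) (hx1 : x ≤ 1) (U : Finset (V ⊕ V)) (hU : (U.card : ℝ) ^ 2 * γ ≤ x) (e : ℕ)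
    (he0 : 0 < e) (he : 2 * e ≤ U.card + 1) : |sm G U| ≤ 2 * x ^ e := by
  have hx0 : 0 ≤ x := le_trans (by positivity) hU
  have h1 := congrArg norm (sm_formula hG U)
  rw [norm_mul, norm_pow, Complex.norm_I, one_pow, one_mul, Complex.norm_real, Complex.norm_real,
    Real.norm_eq_abs, Real.norm_eq_abs, abs_mul, abs_of_pos (Real.exp_pos _)] at h1
  have h2 : 𝔼 ε, chi U ε * Real.exp (-Bq G U ε) = 𝔼 ε, chi U ε * (Real.exp (-Bq G U ε) -
      ∑ m ∈ range e, (-Bq G U ε) ^ m / m.factorial) := by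
    simp only [mul_sub, expect_sub_distrib, mul_sum, expect_sum_comm]
    rw [sum_eq_zero, sub_zero]
    intro m hm
    have h3 : ∀ ε, chi U ε * ((-Bq G U ε) ^ m / m.factorial) =
        ((-1) ^ m / m.factorial) * (chi U ε * Bq G U ε ^ m) := by
      intro ε
      rw [neg_pow]
      ring
    simp only [h3, ← mul_expect]
    rw [expect_Bq_pow G U m (by have := mem_range.mp hm; omega), mul_zero]
  have h3 : |𝔼 ε, chi U ε * Real.exp (-Bq G U ε)| ≤ 2 * x ^ e := by
    rw [h2]
    refine (abs_expect_le _ _).trans (expect_le univ_nonempty fun ε _ => ?_)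
    have h4 : |-Bq G U ε| ≤ x := by
      rw [abs_neg]
      exact (abs_Bq_le G γ hγ hγ0 U ε).trans hU
    rw [abs_mul, abs_chi, one_mul]
    refine (Real.exp_bound (h4.trans hx1) he0).trans ?_
    rw [mul_comm]
    refine mul_le_mul ?_ (pow_le_pow_left₀ (abs_nonneg _) h4 e) (by positivity) (by norm_num)
    have h5 : (1 : ℝ) ≤ e.factorial := by exact_mod_cast e.factorial_pos
    have h6 : (1 : ℝ) ≤ e := by exact_mod_cast he0
    rw [div_le_iff₀ (by positivity)]
    push_cast
    nlinarith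
  rw [h1]
  have h4 : Real.exp (-(U.card : ℝ) / 2) ≤ 1 := by
    rw [Real.exp_le_one_iff]
    have := Nat.cast_nonneg (α := ℝ) U.card
    linarith
  exact (mul_le_of_le_one_left (abs_nonneg _) h4).trans h3

lemma sm_pair {G : V → V → ℝ} (hG : Orth G) (i j : V) :
    sm G {Sum.inl i, Sum.inr j} = Real.exp (-1) * Real.sinh (G i j) := by
  have h1 := sm_formula hG {Sum.inl i, Sum.inr j}
  have hne : (Sum.inl i : V ⊕ V) ≠ Sum.inr j := Sum.inl_ne_inr
  have hL : ({Sum.inl i, Sum.inr j} : Finset (V ⊕ V)).toLeft = {i} := by ext; simp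
  have hR : ({Sum.inl i, Sum.inr j} : Finset (V ⊕ V)).toRight = {j} := by ext; simp
  have h2 : ∀ ε : V ⊕ V → Bool, chi {Sum.inl i, Sum.inr j} ε *
      Real.exp (-Bq G {Sum.inl i, Sum.inr j} ε) =
      Real.cosh (G i j) * (chi {Sum.inl i, Sum.inr j} ε * chi ∅ ε) - Real.sinh (G i j) := by
    intro ε
    simp only [Bq, hL, hR, singleton_product_singleton, sum_singleton, chi, prod_pair hne,
      prod_empty, Real.cosh_eq, Real.sinh_eq]
    cases ε (Sum.inl i) <;> cases ε (Sum.inr j) <;> simp <;> ring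
  simp only [h2, expect_sub_distrib, ← mul_expect, expect_chi_mul, Fintype.expect_const,
    card_pair hne] at h1
  rw [if_neg (by simp), Complex.I_sq] at h1
  have h3 : (-1 : ℝ) * sm G {Sum.inl i, Sum.inr j} =
      Real.exp (-((2 : ℕ) : ℝ) / 2) * (Real.cosh (G i j) * 0 - Real.sinh (G i j)) := by
    exact_mod_cast h1
  have h4 : -((2 : ℕ) : ℝ) / 2 = -1 := by norm_num
  rw [h4] at h3
  linarith

end Pool.Agent.Lib.MP_3bba25_lc
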