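import Mathlib
import Pool.Agent.Lib.MP_3bba25_lc.SinMom
import Pool.Agent.Lib.MP_3bba25_lc.Lower

set_option autoImplicit false
set_option linter.unusedSectionVars false

open Finset MeasureTheory ProbabilityTheory
open scoped BigOperators symmDiff

namespace Pool.Agent.Lib.MP_3bba25_lc

variable {V : Type} [Fintype V] [DecidableEq V]

/-- Fourier coefficients of the positive density. -/
noncomputable def ms (G : V → V → ℝ) (U : Finset (V ⊕ V)) : ℝ := (1 / 2) ^ U.card * sm G U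

/-- The positive density. -/
noncomputable def ds (G : V → V → ℝ) (z : V ⊕ V → Bool) : ℝ := ∑ U, ms G U * chi U z

/-- Fourier coefficients of the density multiplied by the bilinear form. -/
noncomputable def mt' (G : V → V → ℝ) (U : Finset (V ⊕ V)) : ℝ :=
  (∑ i, ∑ j, G i j * ms G (U ∆ {Sum.inl i, Sum.inr j})) / Fintype.card V

lemma ms_empty (G : V → V → ℝ) : ms G ∅ = 1 := by simp [ms, sm]

lemma ds_nonneg (G : V → V → ℝ) (z : V ⊕ V → Bool) : 0 ≤ ds G z := by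
  have h : ds G z = ∫ g, ∏ k, (1 + sg (z k) * (1 / 2 * Real.sin (vv G g k))) ∂(gm V) := by
    simp only [prod_one_add, powerset_univ]
    rw [integral_finsetSum _ fun U _ =>
      (nice_prod _ _ fun k _ => (nice_const _).mul ((nice_const _).mul (nice_sin G k))).integrable]
    refine sum_congr rfl fun U _ => ?_
    simp only [prod_mul_distrib, prod_const]
    rw [integral_const_mul, integral_const_mul, mul_comm, ms, sm, chi]
  rw [h]
  refine integral_nonneg fun g => prod_nonneg fun k _ => ?_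
  have h1 := Real.sin_le_one (vv G g k)
  have h2 := Real.neg_one_le_sin (vv G g k)
  cases z k <;> simp <;> linarith

lemma expect_ds (G : V → V → ℝ) : 𝔼 z, ds G z = 1 := by
  have := fc_sum (ms G) ∅
  simpa [fc, ms_empty, ds] using this

lemma chi_symmDiff {ι : Type} [Fintype ι] [DecidableEq ι] (U W : Finset ι) (z : ι → Bool) :
    chi (U ∆ W) z = chi U z * chi W z := by
  simp only [chi_eq_prod, ← prod_mul_distrib, mem_symmDiff]
  refine prod_congr rfl fun k _ => ?_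
  by_cases h1 : k ∈ U <;> by_cases h2 : k ∈ W <;> simp [h1, h2, sg_mul_self]

lemma ds_mul_Phi (G : V → V → ℝ) (z : V ⊕ V → Bool) :
    ds G z * Phi G z = ∑ U, mt' G U * chi U z := by
  have h1 : ∀ i j, ds G z * (sg (z (Sum.inl i)) * sg (z (Sum.inr j))) =
      ∑ U, ms G (U ∆ {Sum.inl i, Sum.inr j}) * chi U z := by
    intro i j
    have h2 : sg (z (Sum.inl i)) * sg (z (Sum.inr j)) = chi {Sum.inl i, Sum.inr j} z := by
      rw [chi, prod_pair Sum.inl_ne_inr]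
    have h3 : Function.Involutive fun U : Finset (V ⊕ V) => U ∆ {Sum.inl i, Sum.inr j} :=
      symmDiff_left_involutive _
    rw [h2, ds, sum_mul]
    refine Fintype.sum_equiv h3.toPerm _ _ fun U => ?_
    simp only [Function.Involutive.coe_toPerm, symmDiff_symmDiff_cancel_right, chi_symmDiff,
      mul_assoc]
  simp only [Phi, mt', div_mul_eq_mul_div, ← sum_div, ← mul_div_assoc, mul_sum, sum_mul]
  congr 1
  rw [sum_comm (s := (univ : Finset (Finset (V ⊕ V))))]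
  refine sum_congr rfl fun i _ => ?_
  rw [sum_comm (s := (univ : Finset (Finset (V ⊕ V))))]
  refine sum_congr rfl fun j _ => ?_
  rw [mul_left_comm, h1, mul_sum]
  simp only [mul_assoc]

lemma abs_ms_two (G : V → V → ℝ) (U : Finset (V ⊕ V)) : |ms G U| ≤ 1 / 2 ^ U.card := by
  rw [ms, abs_mul, abs_of_nonneg (by positivity), one_div_pow]
  exact mul_le_of_le_one_right (by positivity) (abs_sm_le G U)

lemma abs_ms_pow {G : V → V → ℝ} (hG : Orth G) (γ : ℝ) (hγ : ∀ i j, |G i j| ≤ γ) (hγ0 : 0 ≤ γ)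
    (x : ℝ) (hx1 : x ≤ 1) (U : Finset (V ⊕ V)) (hU : (U.card : ℝ) ^ 2 * γ ≤ x) (e : ℕ)
    (he : 2 * e ≤ U.card + 1) : |ms G U| ≤ x ^ e := by
  rcases Nat.eq_zero_or_pos e with rfl | he0
  · refine (abs_ms_two G U).trans ?_
    rw [pow_zero, div_le_one (by positivity)]
    exact one_le_pow₀ (by norm_num)
  · have h1 := abs_sm_pow hG γ hγ hγ0 x hx1 U hU e he0 he
    have h2 : ((1 : ℝ) / 2) ^ U.card ≤ (1 / 2) ^ 1 :=
      pow_le_pow_of_le_one (by norm_num) (by norm_num) (by omega)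
    rw [ms, abs_mul, abs_of_nonneg (by positivity)]
    refine (mul_le_mul h2 h1 (abs_nonneg _) (by norm_num)).trans (le_of_eq (by ring))

lemma card_sd_le {ι : Type} [DecidableEq ι] (U : Finset ι) (a b : ι) :
    (U ∆ {a, b}).card ≤ U.card + 2 :=
  (card_le_card (symmDiff_le_sup (a := U) (b := {a, b}))).trans
    ((card_union_le _ _).trans (Nat.add_le_add_left card_le_two _))

lemma card_sd_ge {ι : Type} [DecidableEq ι] (U : Finset ι) (a b : ι) :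
    U.card ≤ (U ∆ {a, b}).card + 2 := by
  have := card_sd_le (U ∆ {a, b}) a b
  rwa [symmDiff_symmDiff_cancel_right] at this

lemma card_sd_eq {ι : Type} [DecidableEq ι] (U : Finset ι) (a b : ι) (hab : a ≠ b) (ha : a ∉ U)
    (hb : b ∉ U) : (U ∆ {a, b}).card = U.card + 2 := by
  have h : Disjoint U {a, b} := by simp [ha, hb]
  rw [h.symmDiff_eq_sup, sup_eq_union, card_union_of_disjoint h, card_pair hab]

lemma abs_mt_two [Nonempty V] (G : V → V → ℝ) (γ : ℝ) (hγ : ∀ i j, |G i j| ≤ γ) (hγ0 : 0 ≤ γ)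
    (U : Finset (V ⊕ V)) : |mt' G U| ≤ 4 * (Fintype.card V * γ) / 2 ^ U.card := by
  have hN : (0 : ℝ) < Fintype.card V := by exact_mod_cast Fintype.card_pos
  have h1 : ∀ i j, |G i j * ms G (U ∆ {Sum.inl i, Sum.inr j})| ≤ γ * (4 / 2 ^ U.card) := by
    intro i j
    rw [abs_mul]
    refine mul_le_mul (hγ i j) ((abs_ms_two _ _).trans ?_) (abs_nonneg _) hγ0
    rw [div_le_div_iff₀ (by positivity) (by positivity), one_mul, mul_comm,
      show (4 : ℝ) = 2 ^ 2 by norm_num, ← pow_add]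
    exact pow_le_pow_right₀ (by norm_num) (card_sd_ge U _ _)
  rw [mt', abs_div, abs_of_pos hN, div_le_iff₀ hN]
  refine (abs_sum_le_sum_abs _ _).trans ((sum_le_sum fun i _ => (abs_sum_le_sum_abs _ _).trans
    (sum_le_sum fun j _ => h1 i j)).trans (le_of_eq ?_))
  simp only [sum_const, card_univ, nsmul_eq_mul]
  ring

lemma abs_mt_pow [Nonempty V] {G : V → V → ℝ} (hG : Orth G) (γ : ℝ) (hγ : ∀ i j, |G i j| ≤ γ)
    (hγ0 : 0 ≤ γ) (hNγ : Fintype.card V * γ ^ 2 = 1) (K : ℕ) (hx1 : (K : ℝ) ^ 2 * γ ≤ 1)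
    (U : Finset (V ⊕ V)) (hU : U.card + 2 ≤ K) (e : ℕ) (he : 2 * (e + 1) ≤ U.card + 1) :
    |mt' G U| ≤ (K ^ 2 + 1) * ((K : ℝ) ^ 2 * γ) ^ (e + 1) := by
  have hN : (0 : ℝ) < Fintype.card V := by exact_mod_cast Fintype.card_pos
  set x : ℝ := (K : ℝ) ^ 2 * γ with hx
  have hx0 : 0 ≤ x := by positivity
  have h1 : ∀ i j, |G i j * ms G (U ∆ {Sum.inl i, Sum.inr j})| ≤ γ * x ^ (e + 2) +
      ((if i ∈ U.toLeft then γ * x ^ e else 0) + if j ∈ U.toRight then γ * x ^ e else 0) := by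
    intro i j
    have h2 : (((U ∆ {Sum.inl i, Sum.inr j}).card : ℕ) : ℝ) ^ 2 * γ ≤ x := by
      refine mul_le_mul_of_nonneg_right (pow_le_pow_left₀ (by positivity) ?_ 2) hγ0
      exact_mod_cast (card_sd_le U _ _).trans hU
    have h3 : ∀ e', 2 * e' ≤ (U ∆ {Sum.inl i, Sum.inr j}).card + 1 →
        |G i j * ms G (U ∆ {Sum.inl i, Sum.inr j})| ≤ γ * x ^ e' := fun e' he' => by
      rw [abs_mul]
      exact mul_le_mul (hγ i j) (abs_ms_pow hG γ hγ hγ0 x hx1 _ h2 e' he') (abs_nonneg _) hγ0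
    have h4 := h3 e (by have := card_sd_ge U (Sum.inl i) (Sum.inr j); omega)
    have h5 : 0 ≤ γ * x ^ e := by positivity
    have h6 : 0 ≤ γ * x ^ (e + 2) := by positivity
    split_ifs with a1 a2 a2
    · linarith
    · linarith
    · linarith
    · have := h3 (e + 2) (by
        rw [card_sd_eq U _ _ Sum.inl_ne_inr (by simpa using a1) (by simpa using a2)]; omega)
      linarith
  rw [mt', abs_div, abs_of_pos hN, div_le_iff₀ hN]
  refine (abs_sum_le_sum_abs _ _).trans ((sum_le_sum fun i _ => (abs_sum_le_sum_abs _ _).trans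
    (sum_le_sum fun j _ => h1 i j)).trans ?_)
  simp only [sum_add_distrib, sum_const, card_univ, nsmul_eq_mul, ← mul_sum, ← sum_filter,
    filter_mem_eq_inter, univ_inter]
  have h7 : ((U.toLeft.card : ℝ) + U.toRight.card) * γ ≤ x := by
    refine mul_le_mul_of_nonneg_right ?_ hγ0
    have h8 : U.toLeft.card + U.toRight.card ≤ K ^ 2 := by
      rw [card_toLeft_add_card_toRight]
      nlinarith
    exact_mod_cast h8
  have h8 : (Fintype.card V : ℝ) * γ * x = K ^ 2 := by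
    rw [hx]
    linear_combination ((K : ℝ) ^ 2) * hNγ
  have h9 : (Fintype.card V : ℝ) * (Fintype.card V * (γ * x ^ (e + 2))) =
      K ^ 2 * x ^ (e + 1) * Fintype.card V := by
    rw [← h8]
    ring
  have h10 := mul_le_mul_of_nonneg_right h7 (show 0 ≤ x ^ e * Fintype.card V by positivity)
  rw [h9, pow_succ x e]
  nlinarith

lemma mt_empty [Nonempty V] {G : V → V → ℝ} (hG : Orth G) : 1 / 11 ≤ mt' G ∅ := by
  have hN : (0 : ℝ) < Fintype.card V := by exact_mod_cast Fintype.card_pos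
  have h0 : 4 / 11 ≤ Real.exp (-1) := by
    rw [Real.exp_neg, le_inv_comm₀ (by norm_num) (Real.exp_pos _)]
    linarith [Real.exp_one_lt_d9]
  have h1 : ∀ i j, 1 / 11 * (G i j * G i j) ≤
      G i j * ms G ((∅ : Finset (V ⊕ V)) ∆ {Sum.inl i, Sum.inr j}) := by
    intro i j
    rw [← bot_eq_empty, bot_symmDiff, ms, sm_pair hG, card_pair Sum.inl_ne_inr]
    have h2 : G i j * G i j ≤ G i j * Real.sinh (G i j) := by
      rcases le_total 0 (G i j) with h | h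
      · exact mul_le_mul_of_nonneg_left (Real.self_le_sinh_iff.mpr h) h
      · exact mul_le_mul_of_nonpos_left (Real.sinh_le_self_iff.mpr h) h
    have h3 := mul_self_nonneg (G i j)
    nlinarith [mul_le_mul h0 h2 h3 (Real.exp_pos _).le]
  rw [mt', le_div_iff₀ hN]
  refine le_trans (le_of_eq ?_) (sum_le_sum fun i _ => sum_le_sum fun j _ => h1 i j)
  simp only [← mul_sum, hG _ _, if_true, sum_const, card_univ, nsmul_eq_mul, mul_one]
  ring

lemma pow_half_le (C x ρ δ : ℝ) (hC : 1 ≤ C) (hx : 0 ≤ x) (hδ0 : 0 ≤ δ) (hδ : δ ≤ 1)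
    (hρ : ρ ^ 2 ≤ 1) (h : C * x ≤ δ * ρ ^ 4) (k e : ℕ) (hk : k ≤ 2 * (e + 1)) :
    C * x ^ (e + 1) ≤ δ * (ρ ^ k) ^ 2 := by
  have h0 : 0 ≤ ρ ^ 4 := by positivity
  have h1 : x ≤ ρ ^ 4 := by nlinarith
  have h2 : C * x ^ (e + 1) ≤ δ * (ρ ^ 2) ^ (2 * (e + 1)) := by
    have := mul_le_mul h (pow_le_pow_left₀ hx h1 e) (by positivity) (by positivity)
    refine le_trans (le_of_eq (by ring)) (this.trans (le_of_eq (by ring)))
  refine h2.trans (mul_le_mul_of_nonneg_left ?_ hδ0)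
  rw [← pow_mul ρ k 2, mul_comm k 2, pow_mul ρ 2 k]
  exact pow_le_pow_of_le_one (sq_nonneg _) hρ hk

lemma coeff_bound [Nonempty V] {G : V → V → ℝ} (hG : Orth G) (γ : ℝ) (hγ : ∀ i j, |G i j| ≤ γ)
    (hγ0 : 0 ≤ γ) (hγ1 : γ ≤ 1) (hNγ : Fintype.card V * γ ^ 2 = 1) (K : ℕ) (ρ δ₁ δ₂ : ℝ)
    (hδ0 : 0 ≤ δ₁) (hδ1 : δ₁ ≤ 1) (hρ : ρ ^ 2 ≤ 1)
    (h : ((K : ℝ) ^ 2 + 1) * ((K : ℝ) ^ 2 * γ) ≤ δ₁ * ρ ^ 4)
    (h' : 8 * (Fintype.card V * γ) / 2 ^ K ≤ δ₂) (U : Finset (V ⊕ V)) (hU : U ≠ ∅) :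
    |ms G U| ≤ δ₁ * (ρ ^ U.card) ^ 2 + δ₂ ∧ |mt' G U| ≤ δ₁ * (ρ ^ U.card) ^ 2 + δ₂ := by
  have hN : (0 : ℝ) < Fintype.card V := by exact_mod_cast Fintype.card_pos
  have hk := card_pos.mpr (nonempty_iff_ne_empty.mpr hU)
  have hδ2 : 0 ≤ δ₂ := le_trans (by positivity) h'
  have hC : (1 : ℝ) ≤ (K : ℝ) ^ 2 + 1 := le_add_of_nonneg_left (by positivity)
  have hx0 : 0 ≤ (K : ℝ) ^ 2 * γ := by positivity
  by_cases hK : U.card + 2 ≤ K
  · obtain ⟨e, he1, he2⟩ : ∃ e, 2 * (e + 1) ≤ U.card + 1 ∧ U.card ≤ 2 * (e + 1) :=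
      ⟨(U.card + 1) / 2 - 1, by omega, by omega⟩
    have h1 := pow_half_le _ _ ρ δ₁ hC hx0 hδ0 hδ1 hρ h U.card e he2
    have hx1 : (K : ℝ) ^ 2 * γ ≤ 1 := by
      have h2 : ρ ^ 4 ≤ 1 := by nlinarith [sq_nonneg ρ]
      have h3 : δ₁ * ρ ^ 4 ≤ 1 := mul_le_one₀ hδ1 (by positivity) h2
      nlinarith
    have h2 := abs_mt_pow hG γ hγ hγ0 hNγ K hx1 U hK e he1
    have h3 := abs_ms_pow hG γ hγ hγ0 _ hx1 U (mul_le_mul_of_nonneg_right
      (pow_le_pow_left₀ (by positivity) (by exact_mod_cast (by omega : U.card ≤ K)) 2) hγ0)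
      (e + 1) he1
    have h4 := le_mul_of_one_le_left (pow_nonneg hx0 (e + 1)) hC
    exact ⟨by linarith, by linarith⟩
  · have h1 : 4 * (Fintype.card V * γ) / 2 ^ U.card ≤ δ₂ := by
      refine le_trans ?_ h'
      rw [div_le_div_iff₀ (by positivity) (by positivity)]
      have h2 : (2 : ℝ) ^ K ≤ 2 ^ (U.card + 1) := pow_le_pow_right₀ (by norm_num) (by omega)
      rw [pow_succ] at h2
      nlinarith [mul_le_mul_of_nonneg_left h2 (show 0 ≤ Fintype.card V * γ by positivity)]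
    have h2 : (1 : ℝ) / 2 ^ U.card ≤ 4 * (Fintype.card V * γ) / 2 ^ U.card := by
      refine div_le_div_of_nonneg_right ?_ (by positivity)
      nlinarith [mul_le_mul_of_nonneg_left hγ1 (show 0 ≤ Fintype.card V * γ by positivity)]
    have h3 : 0 ≤ δ₁ * (ρ ^ U.card) ^ 2 := by positivity
    exact ⟨by linarith [abs_ms_two G U], by linarith [abs_mt_two G γ hγ hγ0 U]⟩

lemma bilinear_lower {ι : Type} [Fintype ι] [DecidableEq ι] (s : ℕ) (hs : 1 ≤ s) (ρ : ℝ)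
    (hρ : ρ ^ 2 * (4 * s) ≤ 1) (m : Finset ι → ℝ) (δ₁ δ₂ : ℝ) (hδ₁ : 0 ≤ δ₁) (hδ₂ : 0 ≤ δ₂)
    (hm : ∀ U, U ≠ ∅ → |m U| ≤ δ₁ * (ρ ^ U.card) ^ 2 + δ₂)
    (f g : (ι → Bool) → ℝ) (hf0 : ∀ z, 0 ≤ f z) (hf1 : ∀ z, f z ≤ 1)
    (hg0 : ∀ z, 0 ≤ g z) (hg1 : ∀ z, g z ≤ 1) :
    m ∅ * ((𝔼 x, f x) * (𝔼 y, g y)) -
        (δ₁ * ((2 * 𝔼 z, f z + 2 / 4 ^ s) * (2 * 𝔼 z, g z + 2 / 4 ^ s)) + δ₂) ≤
      𝔼 x, 𝔼 y, (∑ U, m U * chi U (bx x y)) * (f x * g y) := by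
  have h := bilinear s hs ρ hρ (fun U => (if U = ∅ then 1 + m ∅ else 0) - m U) δ₁ δ₂ hδ₁ hδ₂
    (by simp) (fun U hU => by simpa [hU] using hm U hU) f g hf0 hf1 hg0 hg1
  simp only [sub_mul, sum_sub_distrib, ite_mul, zero_mul, sum_ite_eq', mem_univ, if_true,
    chi_empty, mul_one, expect_sub_distrib, ← mul_expect, ← expect_mul] at h
  linarith

/-- The lower transfer property. -/
def LowT {Z : Type} [Fintype Z] (D : Z → Z → ℝ) (κ δ₁ δ₂ τ : ℝ) : Prop :=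
  ∀ f g : Z → ℝ, (∀ z, 0 ≤ f z) → (∀ z, f z ≤ 1) → (∀ z, 0 ≤ g z) → (∀ z, g z ≤ 1) →
    κ * ((𝔼 x, f x) * (𝔼 y, g y)) - 2 * (δ₁ * ((2 * 𝔼 z, f z + τ) * (2 * 𝔼 z, g z + τ)) + δ₂) ≤
      𝔼 x, 𝔼 y, D x y * (f x * g y)

open Classical in
theorem transfer_ds [Nonempty V] {G : V → V → ℝ} (hG : Orth G) (γ : ℝ) (hγ : ∀ i j, |G i j| ≤ γ)
    (hγ0 : 0 ≤ γ) (hγ1 : γ ≤ 1) (hNγ : Fintype.card V * γ ^ 2 = 1) (K c : ℕ) (δ₂ : ℝ)
    (h : ((K : ℝ) ^ 2 + 1) * ((K : ℝ) ^ 2 * γ) * (16 * (c + 1) ^ 2) * 1000 ≤ 1)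
    (h' : 8 * (Fintype.card V * γ) / 2 ^ K ≤ δ₂) :
    Transfer (fun x y => ds G (bx x y)) (1 / 1000) δ₂ (2 / 4 ^ (c + 1)) ∧
    LowT (fun x y => ds G (bx x y) * if 1 / 24 ≤ Phi G (bx x y) then 1 else 0) (13 / 264)
      (1 / 1000) δ₂ (2 / 4 ^ (c + 1)) := by
  obtain ⟨ρ, hρ⟩ : ∃ ρ : ℝ, ρ ^ 2 = 1 / (4 * (c + 1)) :=
    ⟨√(1 / (4 * (c + 1))), Real.sq_sqrt (by positivity)⟩
  have hδ2 : 0 ≤ δ₂ := le_trans (by positivity) h'
  have h1 : ρ ^ 2 * (4 * ((c + 1 : ℕ) : ℝ)) ≤ 1 := by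
    rw [hρ]
    push_cast
    exact le_of_eq (by field_simp)
  have h2 := coeff_bound hG γ hγ hγ0 hγ1 hNγ K ρ (1 / 1000) δ₂ (by norm_num) (by norm_num)
    (by
      rw [hρ, div_le_one (by positivity)]
      linarith [Nat.cast_nonneg (α := ℝ) c])
    (by
      rw [show ρ ^ 4 = (ρ ^ 2) ^ 2 by ring, hρ, div_pow, one_pow, div_mul_div_comm,
        le_div_iff₀ (by positivity)]
      refine le_trans (le_of_eq ?_) (h.trans (le_of_eq (by norm_num)))
      ring) h'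
  have h3 : Transfer (fun x y => ds G (bx x y)) (1 / 1000) δ₂ (2 / 4 ^ (c + 1)) :=
    fun f g hf0 hf1 hg0 hg1 => bilinear (c + 1) (by omega) ρ h1 (ms G) _ _ (by norm_num) hδ2
      (ms_empty G) (fun U hU => (h2 U hU).1) f g hf0 hf1 hg0 hg1
  refine ⟨h3, fun f g hf0 hf1 hg0 hg1 => ?_⟩
  have h4 := bilinear_lower (c + 1) (by omega) ρ h1 (mt' G) _ _ (by norm_num) hδ2
    (fun U hU => (h2 U hU).2) f g hf0 hf1 hg0 hg1
  have h5 := h3 f g hf0 hf1 hg0 hg1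
  simp only [← ds_mul_Phi] at h4
  have h6 : ∀ x y, ds G (bx x y) * Phi G (bx x y) * (f x * g y) -
      1 / 24 * (ds G (bx x y) * (f x * g y)) ≤
      (ds G (bx x y) * if 1 / 24 ≤ Phi G (bx x y) then 1 else 0) * (f x * g y) := by
    intro x y
    have a1 := mul_nonneg (ds_nonneg G (bx x y)) (mul_nonneg (hf0 x) (hg0 y))
    have a2 := (abs_le.mp (abs_Phi_le hG (bx x y))).2
    split_ifs with a3
    · nlinarith
    · nlinarith [not_le.mp a3]
  refine le_trans ?_ (expect_le_expect fun x _ => expect_le_expect fun y _ => h6 x y)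
  simp only [expect_sub_distrib, ← mul_expect univ _ (1 / 24 : ℝ)]
  have a1 : 0 ≤ 𝔼 x, f x := expect_nonneg fun _ _ => hf0 _
  have a2 : 0 ≤ 𝔼 x, g x := expect_nonneg fun _ _ => hg0 _
  have a3 := mul_le_mul_of_nonneg_right (mt_empty hG) (mul_nonneg a1 a2)
  have a4 : 0 ≤ (2 * 𝔼 z, f z + 2 / 4 ^ (c + 1)) * (2 * 𝔼 z, g z + 2 / 4 ^ (c + 1)) := by
    positivity
  linarith

end Pool.Agent.Lib.MP_3bba25_lc
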