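import Mathlib
import Pool.Agent.Lib.MP_3bba25_lc.Alg

set_option autoImplicit false
set_option linter.unusedSectionVars false

open Finset
open scoped BigOperators

namespace Pool.Agent.Lib.MP_3bba25_lc

/-- Bit strings. -/
abbrev Bits (n : ℕ) : Type := Fin n → Bool

/-- The part of an input carrying two sign vectors. -/
abbrev ZZ (n : ℕ) : Type := Bits n ⊕ Bits n → Bool

/-- The number of pairs. -/
abbrev mN (n : ℕ) : ℕ := Fintype.card (Bits n × Bits n)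

/-- Cells. -/
abbrev WW (n p : ℕ) : Type := Fin (2 * mN n + 1) → ZMod p

/-- Enumeration of pairs. -/
noncomputable def kap (n : ℕ) (q : Bits n × Bits n) : ℕ := Fintype.equivFin _ q

lemma kap_le (n : ℕ) (q : Bits n × Bits n) : kap n q ≤ mN n := (Fintype.equivFin _ q).2.le

lemma kap_inj (n : ℕ) : Function.Injective (kap n) := fun _ _ h =>
  (Fintype.equivFin _).injective (Fin.ext h)

/-- The middle index. -/
def mid (n : ℕ) : Fin (2 * mN n + 1) := ⟨mN n, by omega⟩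

variable {n : ℕ} (p : ℕ) [Fact p.Prime]

/-- The certificate. -/
noncomputable def piC (l : Bits n) (x y : ZZ n) : WW n p :=
  cv (mN n) (kap n) (fun q => (XA l x q : ZMod p)) (fun q => (YB y q : ZMod p))

/-- Good cells. -/
def goodC (γ θ : ℝ) (l : Bits n) (x y : ZZ n) : Prop := θ ≤ Phi (GG γ l) (bx x y)

/-- Alice's message. -/
noncomputable def msgA (x : ZZ n × (Bits n → WW n p)) (l : Bits n) (r : ZMod p) :
    ZMod p × ZMod p × ZMod p :=
  (ev (x.2 l) r, ∑ q, (XA l x.1 q : ZMod p) * r ^ kap n q, x.2 l (mid n))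

/-- Bob's test. -/
def chk (γ θ : ℝ) (y : ZZ n × (Bits n → WW n p)) (l : Bits n) (r : ZMod p)
    (a : ZMod p × ZMod p × ZMod p) : Prop :=
  a.1 + ev (y.2 l) r = a.2.1 * ∑ q, (YB y.1 q : ZMod p) * r ^ (mN n - kap n q) ∧
    ∃ s : ℤ, |s| ≤ mN n ∧ θ ≤ s * γ ^ 3 ∧ (s : ZMod p) = a.2.2 + y.2 l (mid n)

lemma piC_mid (l : Bits n) (x y : ZZ n) :
    piC p l x y (mid n) = ((∑ q, XA l x q * YB y q : ℤ) : ZMod p) := by
  rw [piC, mid, cv_mid _ _ (kap_le n) (kap_inj n)]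
  push_cast
  rfl

lemma chk_of (γ θ : ℝ) (hγ : γ ^ 2 * 2 ^ Fintype.card (Fin n) = 1)
    (x y : ZZ n × (Bits n → WW n p)) (l : Bits n) (h1 : goodC γ θ l x.1 y.1)
    (h2 : x.2 l + y.2 l = piC p l x.1 y.1) (r : ZMod p) : chk p γ θ y l r (msgA p x l r) := by
  refine ⟨?_, ∑ q, XA l x.1 q * YB y.1 q, abs_XY _ _ _, ?_, ?_⟩
  · simp only [msgA]
    rw [← ev_add, h2, piC, ev_cv _ _ (kap_le n)]
  · rw [← Phi_eq γ hγ]
    exact h1
  · rw [← piC_mid, ← h2]
    rfl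

open Classical in
lemma card_chk (γ θ : ℝ) (hγ : γ ^ 2 * 2 ^ Fintype.card (Fin n) = 1) (hp : 2 * mN n < p)
    (x y : ZZ n × (Bits n → WW n p)) (l : Bits n)
    (h : ¬ (goodC γ θ l x.1 y.1 ∧ x.2 l + y.2 l = piC p l x.1 y.1)) {Pt : Type} [Fintype Pt]
    (pt : Pt ↪ ZMod p) :
    (univ.filter fun r => chk p γ θ y l (pt r) (msgA p x l (pt r))).card ≤ 2 * mN n := by
  by_cases h2 : x.2 l + y.2 l = piC p l x.1 y.1
  · have h1 : ¬ goodC γ θ l x.1 y.1 := fun h1 => h ⟨h1, h2⟩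
    rw [filter_eq_empty_iff.mpr, card_empty]
    · exact Nat.zero_le _
    rintro r _ ⟨_, s, hs1, hs2, hs3⟩
    refine h1 ?_
    have h3 : (s : ZMod p) = ((∑ q, XA l x.1 q * YB y.1 q : ℤ) : ZMod p) := by
      rw [hs3, ← piC_mid, ← h2]
      rfl
    have h4 := abs_XY l x.1 y.1
    have h5 : s = ∑ q, XA l x.1 q * YB y.1 q := by
      have h6 := (ZMod.intCast_eq_intCast_iff_dvd_sub _ _ _).mp h3
      have h7 := Int.eq_zero_of_abs_lt_dvd h6 (by
        have := abs_sub (∑ q, XA l x.1 q * YB y.1 q) s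
        have hp' : ((2 * mN n : ℕ) : ℤ) < p := by exact_mod_cast hp
        push_cast at hp'
        simp only [mN] at hs1 hp'
        linarith)
      linarith
    rw [goodC, Phi_eq γ hγ, ← h5]
    exact hs2
  · rw [← card_map pt]
    refine card_agree _ _ h2 _ fun r hr => ?_
    obtain ⟨r', hr', rfl⟩ := mem_map.mp hr
    have := (mem_filter.mp hr').2.1
    simp only [msgA] at this
    rw [ev_add, this, piC, ev_cv _ _ (kap_le n)]

lemma bx_eq_zero {ι : Type} (a b : ι → Bool) : bx a b = (fun _ => false) ↔ a = b := by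
  simp only [bx, funext_iff]
  refine forall_congr' fun k => ?_
  cases a k <;> cases b k <;> simp

lemma FF_iff {Z L W : Type} [Fintype L] [AddCommGroup W] (good : L → Z → Z → Prop)
    (π : L → Z → Z → W) (x y : Z × (L → W)) :
    FF good π x y = true ↔ ∃ l, good l x.1 y.1 ∧ x.2 l + y.2 l = π l x.1 y.1 := by
  simp [FF]

open Classical in
theorem amplify2 {A Pt Ms V X Y : Type} [Fintype A] [DecidableEq A] [Fintype Pt] [DecidableEq Pt]
    [Fintype Ms] [DecidableEq Ms] [Fintype X] [DecidableEq X] [Fintype Y] [DecidableEq Y]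
    (j : ℕ) (hK : Fintype.card (A × Pt × Ms) = 2 ^ j) (a₀ : A) (r₀ : Pt) (g₀ : Ms)
    (U₁ U₃ : X → A → A → ℝ) (U₂ : Y → A → A → ℝ) (Hp : Pt → Pt → ℝ) (ρ : ℝ)
    (hρ : ∀ r, Hp r r₀ = ρ) (h₁ : ∀ x, Orth (U₁ x)) (h₂ : ∀ y, Orth (U₂ y))
    (h₃ : ∀ x, Orth (U₃ x)) (hH : Orth Hp) (sh : Ms → Ms → Ms)
    (hsh : ∀ g, Function.Injective (sh g)) (hsh0 : ∀ g g', sh g g' = g₀ ↔ g = g') (enc : V ↪ Ms)
    (msg : X → A → Pt → V) (c : Y → A → Pt → V → Prop) (Φ : X → Y → A → ℝ)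
    (hΦ : ∀ x y, act (U₃ x) (act (U₂ y) (act (U₁ x) fun k => if k = a₀ then 1 else 0)) = Φ x y)
    (f : X → Y → Bool) (T : ℕ)
    (ht : ∀ x y, f x y = true → 2 ≤ T * ∑ l, Φ x y l ^ 2 *
      (ρ ^ 2 * (univ.filter fun r => c y l r (msg x l r)).card))
    (hf : ∀ x y, f x y = false → T * ∑ l, Φ x y l ^ 2 *
      (ρ ^ 2 * (univ.filter fun r => c y l r (msg x l r)).card) ≤ 1 / 3) :
    QuantComputes f (9 * (T * j) + 4) := by
  let P : X → A × Pt × Ms → A × Pt × Ms :=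
    fun x k => (k.1, k.2.1, sh (enc (msg x k.1 k.2.1)) k.2.2)
  have hP : ∀ x, Function.Injective (P x) := by
    rintro x ⟨l, r, g⟩ ⟨l', r', g'⟩ h
    simp only [P, Prod.mk.injEq] at h
    obtain ⟨rfl, rfl, h⟩ := h
    rw [hsh _ h]
  let acc : Y → A × Pt × Ms → Prop := fun y k => ∃ a, k.2.2 = enc a ∧ c y k.1 k.2.1 a
  let φ : X → Y → A × Pt × Ms → ℝ := fun x y k => Φ x y k.1 *
      (ρ * if enc (msg x k.1 k.2.1) = k.2.2 then 1 else 0)
  have hsum : ∀ x y, (∑ k : A × Pt × Ms, if acc y k then φ x y k ^ 2 else 0) =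
      ∑ l, Φ x y l ^ 2 * (ρ ^ 2 * (univ.filter fun r => c y l r (msg x l r)).card) := by
    intro x y
    simp only [Fintype.sum_prod_type, card_filter]
    push_cast
    simp only [mul_sum]
    refine sum_congr rfl fun l _ => sum_congr rfl fun r _ => ?_
    rw [sum_eq_single (enc (msg x l r))]
    · simp only [acc, φ, enc.apply_eq_iff_eq, exists_eq_left', if_true]
      split_ifs <;> ring
    · intro g _ hg
      simp [φ, hg.symm]
    · simp
  refine amplify j hK (a₀, r₀, g₀) (fun x => kron (U₁ x) (kron Hp (pm id)))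
    (fun x k k' => kron (U₃ x) (pm id) (P x k) k') (fun y => kron (U₂ y) (pm id))
    (fun x => orth_kron (h₁ x) (orth_kron hH orth_id)) (fun y => orth_kron (h₂ y) orth_id)
    (fun x => orth_comp (orth_kron (h₃ x) orth_id) _ (hP x)) acc f T φ ?_
    (fun x y h => by rw [hsum]; exact ht x y h) (fun x y h => by rw [hsum]; exact hf x y h)
  intro x y
  let d₁ : A → ℝ := fun l => if l = a₀ then 1 else 0
  let d₂ : Pt → ℝ := fun l => if l = r₀ then 1 else 0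
  let d₃ : Ms → ℝ := fun l => if l = g₀ then 1 else 0
  have e0 : (fun k : A × Pt × Ms => if k = (a₀, r₀, g₀) then (1 : ℝ) else 0) =
      fun k => d₁ k.1 * (d₂ k.2.1 * d₃ k.2.2) := by
    funext ⟨l, r, g⟩
    simp only [Prod.mk.injEq, d₁, d₂, d₃]
    by_cases a1 : l = a₀ <;> by_cases a2 : r = r₀ <;> by_cases a3 : g = g₀ <;> simp [a1, a2, a3]
  have e1 := act_kron (U₁ x) (kron Hp (pm id)) d₁ (fun s : Pt × Ms => d₂ s.1 * d₃ s.2)
  rw [act_kron Hp (pm id) d₂ d₃, act_id] at e1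
  have e2 := act_kron (U₂ y) (pm id) (act (U₁ x) d₁) (fun s : Pt × Ms => act Hp d₂ s.1 * d₃ s.2)
  rw [act_id] at e2
  have e3 := act_kron (U₃ x) (pm id) (act (U₂ y) (act (U₁ x) d₁))
    (fun s : Pt × Ms => act Hp d₂ s.1 * d₃ s.2)
  rw [act_id, hΦ] at e3
  rw [e0, e1, e2]
  funext k
  refine Eq.trans (congrFun e3 (P x k)) ?_
  simp only [P, φ, d₂, d₃, act, mul_ite, mul_one, mul_zero, sum_ite_eq', mem_univ, if_true, hρ,
    hsh0]

open Classical in
theorem quant_upper (b₁ b₂ T : ℕ) (γ ρ θ : ℝ) (hγ : γ ^ 2 * 2 ^ Fintype.card (Fin n) = 1)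
    (hρ : ρ ^ 2 * 2 ^ Fintype.card (Fin b₁) = 1) (hθ : 0 ≤ θ) (hp1 : 2 ^ b₁ ≤ p)
    (hp2 : p ^ 3 ≤ 2 ^ b₂) (hp3 : 2 * mN n < p) (hT1 : 2 ≤ T * θ ^ 2)
    (hT2 : T * (2 * mN n) * 3 ≤ 2 ^ b₁) :
    QuantComputes (FF (goodC (n := n) γ θ) (piC p)) (9 * (T * (n + (b₁ + b₂))) + 4) := by
  obtain ⟨pt⟩ : Nonempty (Bits b₁ ↪ ZMod p) :=
    Function.Embedding.nonempty_of_card_le (by simpa using hp1)
  obtain ⟨enc⟩ : Nonempty (ZMod p × ZMod p × ZMod p ↪ Bits b₂) :=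
    Function.Embedding.nonempty_of_card_le (by simpa [pow_succ, mul_assoc] using hp2)
  refine amplify2 (A := Bits n) (Pt := Bits b₁) (Ms := Bits b₂) (n + (b₁ + b₂))
    (by simp [pow_add]) (fun _ => false) (fun _ => false) (fun _ => false)
    (fun x => dh (fun i => x.1 (Sum.inl i)) (fun _ => false) (had γ))
    (fun x => dh (fun _ => false) (fun j => x.1 (Sum.inr j)) (had γ))
    (fun y => dh (fun j => y.1 (Sum.inr j)) (fun i => y.1 (Sum.inl i)) (had γ)) (had ρ) ρ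
    (had_zero ρ) (fun x => orth_dh _ _ (orth_had γ hγ)) (fun x => orth_dh _ _ (orth_had γ hγ))
    (fun x => orth_dh _ _ (orth_had γ hγ)) (orth_had ρ hρ) bx ?_ bx_eq_zero enc
    (fun x l r => msgA p x l (pt r)) (fun y l r a => chk p γ θ y l (pt r) a)
    (fun x y l => Phi (GG γ l) (bx x.1 y.1)) (fun x y => amp_eq γ hγ x.1 y.1) _ T ?_ ?_
  · intro g
    refine Function.Involutive.injective fun g' => ?_
    funext k
    simp [bx]
  · intro x y hxy
    obtain ⟨l, h1, h2⟩ := (FF_iff _ _ _ _).mp hxy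
    refine hT1.trans (mul_le_mul_of_nonneg_left ?_ (Nat.cast_nonneg _))
    refine le_trans ?_ (single_le_sum (fun l _ => by positivity) (mem_univ l))
    rw [filter_true_of_mem fun r _ => chk_of p γ θ hγ x y l h1 h2 _]
    have : ((univ : Finset (Bits b₁)).card : ℝ) = 2 ^ Fintype.card (Fin b₁) := by simp
    rw [this, hρ, mul_one]
    exact pow_le_pow_left₀ hθ h1 2
  · intro x y hxy
    have h1 := mt (FF_iff _ _ x y).mpr (by rw [hxy]; simp)
    have h2 : ∑ l, Phi (GG γ l) (bx x.1 y.1) ^ 2 = 1 := by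
      have := amp_eq γ hγ x.1 y.1
      simp only [← congrFun this]
      rw [sum_act_sq (orth_dh _ _ (orth_had γ hγ)), sum_act_sq (orth_dh _ _ (orth_had γ hγ)),
        sum_act_sq (orth_dh _ _ (orth_had γ hγ))]
      simp
    have h3 : ∑ l, Phi (GG γ l) (bx x.1 y.1) ^ 2 * (ρ ^ 2 *
        (univ.filter fun r => chk p γ θ y l (pt r) (msgA p x l (pt r))).card) ≤
        ρ ^ 2 * (2 * mN n : ℕ) := by
      rw [← one_mul (ρ ^ 2 * (2 * mN n : ℕ)), ← h2, sum_mul]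
      refine sum_le_sum fun l _ => mul_le_mul_of_nonneg_left (mul_le_mul_of_nonneg_left ?_
        (sq_nonneg _)) (sq_nonneg _)
      exact_mod_cast card_chk p γ θ hγ hp3 x y l (fun h => h1 ⟨l, h⟩) pt
    refine (mul_le_mul_of_nonneg_left h3 (Nat.cast_nonneg _)).trans ?_
    have h4 : ((T * (2 * mN n) * 3 : ℕ) : ℝ) ≤ (2 ^ b₁ : ℕ) := by exact_mod_cast hT2
    rw [Fintype.card_fin] at hρ
    generalize mN n = m at h4 ⊢
    push_cast at h4 ⊢
    nlinarith [mul_le_mul_of_nonneg_left h4 (sq_nonneg ρ)]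

end Pool.Agent.Lib.MP_3bba25_lc
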