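import Mathlib
import Pool.Agent.Lib.MP_3bba25_lc.Upper

set_option autoImplicit false
set_option linter.unusedSectionVars false

open Finset
open scoped BigOperators

namespace Pool.Agent.Lib.MP_3bba25_lc

section generic
variable {I : Type} [Fintype I] [DecidableEq I] [Nonempty I]

lemma transfer_dens {G : I → I → ℝ} (hG : Orth G) (γ : ℝ) (hγ : ∀ i j, |G i j| ≤ γ)
    (hγ0 : 0 ≤ γ) (s : ℝ) (hs : s ^ 2 ≤ 1 / 2) (c : ℕ)
    (hc : ((c : ℝ) + 10) * (16 * (c + 1) ^ 2) * 1000 * γ ≤ 1) :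
    Transfer (fun x y => dens G s (bx x y)) (1 / 1000) (1 / 2 ^ (c + 10)) (2 / 4 ^ (c + 1)) := by
  intro f g hf0 hf1 hg0 hg1
  obtain ⟨ρ, hρ⟩ : ∃ ρ : ℝ, ρ ^ 2 = 1 / (4 * (c + 1)) :=
    ⟨√(1 / (4 * (c + 1))), Real.sq_sqrt (by positivity)⟩
  refine bilinear (c + 1) (by omega) ρ ?_ (mm G s) (1 / 1000) (1 / 2 ^ (c + 10)) (by norm_num)
    (by positivity) (mm_empty G s) (fun U hU => ?_) f g hf0 hf1 hg0 hg1
  · rw [hρ]
    push_cast
    exact le_of_eq (by field_simp)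
  · refine mm_bound hG γ hγ hγ0 s hs (c + 10) ρ (1 / 1000) (by norm_num) (by norm_num) ?_ U hU
    rw [show ρ ^ 4 = (ρ ^ 2) ^ 2 by ring, hρ, div_pow, one_pow, div_mul_div_comm,
      le_div_iff₀ (by positivity)]
    push_cast
    refine le_trans (le_of_eq ?_) (hc.trans (le_of_eq (by norm_num)))
    ring

lemma neg_dens {G : I → I → ℝ} (hG : Orth G) (s : ℝ) (hs0 : 0 < s) (hs : s ^ 2 ≤ 1 / 2) (y : ℝ)
    (hy : 2 * Real.exp (-(1 / (2 * s ^ 2))) * Fintype.card I ≤ y) (hy1 : y ≤ 1 / 2) :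
    𝔼 z, max (-dens G s z) 0 ≤ y := by
  have h1 := expect_abs_dens hG s hs0 hs
  set a := 2 * Real.exp (-(1 / (2 * s ^ 2))) with ha
  have ha0 : 0 ≤ a := by positivity
  have hy0 : 0 ≤ y := le_trans (by positivity) hy
  have h2 : (1 + a) ^ Fintype.card I ≤ 1 + 2 * y := by
    have h3 : (1 + a) ^ Fintype.card I ≤ Real.exp y := by
      refine (pow_le_pow_left₀ (by positivity) (show 1 + a ≤ Real.exp a by
        linarith [Real.add_one_le_exp a]) _).trans ?_
      rw [← Real.exp_nat_mul, Real.exp_le_exp, mul_comm]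
      exact hy
    refine h3.trans ((Real.exp_bound_div_one_sub_of_interval hy0 (by linarith)).trans ?_)
    rw [div_le_iff₀ (by linarith)]
    nlinarith
  have h4 : ∀ z, max (-dens G s z) 0 = (1 / 2) * |dens G s z| - (1 / 2) * dens G s z := by
    intro z
    rcases le_total 0 (dens G s z) with h | h
    · rw [max_eq_right (by linarith), abs_of_nonneg h, sub_self]
    · rw [max_eq_left (by linarith), abs_of_nonpos h]; ring
  simp only [h4]
  rw [expect_sub_distrib, ← mul_expect, ← mul_expect, expect_dens]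
  linarith

open Classical in
lemma bad_dens {G : I → I → ℝ} (hG : Orth G) (s : ℝ) (hs0 : 0 < s) (hs : s ^ 2 ≤ 1 / 2) (η : ℝ)
    (hη : 𝔼 z, max (-dens G s z) 0 ≤ η) :
    𝔼 z, max (dens G s z) 0 * (if s ^ 2 / 2 ≤ Phi G z then 0 else 1) ≤
      4 / s ^ 4 * (1 / Fintype.card I + 4 * η) := by
  have h1 : ∀ z, max (dens G s z) 0 * (if s ^ 2 / 2 ≤ Phi G z then 0 else 1) ≤
      4 / s ^ 4 * (dens G s z * (Phi G z - s ^ 2) ^ 2 + 4 * max (-dens G s z) 0) := by
    intro z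
    have h2 : (if s ^ 2 / 2 ≤ Phi G z then (0 : ℝ) else 1) ≤ 4 / s ^ 4 * (Phi G z - s ^ 2) ^ 2 := by
      split_ifs with h
      · positivity
      · rw [div_mul_eq_mul_div, le_div_iff₀ (by positivity)]
        have h3 : s ^ 2 / 2 ≤ s ^ 2 - Phi G z := by linarith
        have h4 := pow_le_pow_left₀ (by positivity) h3 2
        nlinarith
    have h3 : (Phi G z - s ^ 2) ^ 2 ≤ 4 := by
      have := abs_le.mp (abs_Phi_le hG z)
      nlinarith [sq_nonneg s]
    refine (mul_le_mul_of_nonneg_left h2 (le_max_right _ _)).trans ?_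
    rw [mul_left_comm]
    refine mul_le_mul_of_nonneg_left ?_ (by positivity)
    rcases le_total 0 (dens G s z) with h | h
    · rw [max_eq_left h, max_eq_right (by linarith)]; linarith
    · rw [max_eq_right h, max_eq_left (by linarith)]; nlinarith
  refine (expect_le_expect fun z _ => h1 z).trans ?_
  rw [← mul_expect, expect_add_distrib, ← mul_expect]
  refine mul_le_mul_of_nonneg_left ?_ (by positivity)
  linarith [second_moment hG s]

end generic

lemma sq_le_two_pow (n : ℕ) (hn : 40 ≤ n) : 57600 * n ^ 2 ≤ 2 ^ n := by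
  induction n, hn using Nat.le_induction with
  | base => norm_num
  | succ n hn ih => rw [pow_succ 2]; nlinarith

theorem rand_lower (j n p : ℕ) [Fact p.Prime] (hn : n = 2 * (3 * j + 20)) (hp : 100 * 2 ^ n ≤ p)
    (c : ℕ) (hc : c ≤ 2 ^ j) :
    ¬ RandComputes (FF (goodC (n := n) (1 / 2 ^ (3 * j + 20)) (1 / (8 * n))) (piC p)) c := by
  intro hR
  set γ : ℝ := 1 / 2 ^ (3 * j + 20) with hγdef
  have hn40 : 40 ≤ n := by omega
  have hnR : (40 : ℝ) ≤ n := by exact_mod_cast hn40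
  have hγ : γ ^ 2 * 2 ^ Fintype.card (Fin n) = 1 := by
    rw [Fintype.card_fin, hn, hγdef, pow_mul' 2 2]
    field_simp
  have hγ0 : 0 ≤ γ := by positivity
  obtain ⟨s, hs0, hs⟩ : ∃ s : ℝ, 0 < s ∧ s ^ 2 = 1 / (4 * n) :=
    ⟨√(1 / (4 * n)), Real.sqrt_pos.mpr (by positivity), Real.sq_sqrt (by positivity)⟩
  have hs2 : s ^ 2 ≤ 1 / 2 := by
    rw [hs]
    exact one_div_le_one_div_of_le (by norm_num) (by linarith)
  have hθ : (1 : ℝ) / (8 * n) = s ^ 2 / 2 := by rw [hs]; field_simp; norm_num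
  have hcard : (Fintype.card (Bits n) : ℝ) = 2 ^ n := by simp
  have hcardW : (100 : ℝ) * 2 ^ n ≤ Fintype.card (WW n p) := by
    have h1 : Fintype.card (WW n p) = p ^ (2 * mN n + 1) := by
      rw [Fintype.card_fun, ZMod.card, Fintype.card_fin]
    have h2 : p ≤ p ^ (2 * mN n + 1) := Nat.le_self_pow (by omega) p
    rw [h1]
    exact_mod_cast hp.trans h2
  have hN : (57600 : ℝ) * n ^ 2 ≤ 2 ^ n := by exact_mod_cast sq_le_two_pow n hn40
  have hNpos : (0 : ℝ) < 2 ^ n := by positivity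
  have hcR : (c : ℝ) ≤ 2 ^ j := by exact_mod_cast hc
  have hj1 : (1 : ℝ) ≤ 2 ^ j := one_le_pow₀ (by norm_num)
  have hc2 : ((c : ℝ) + 10) * (16 * (c + 1) ^ 2) * 1000 * γ ≤ 1 := by
    rw [hγdef, mul_one_div, div_le_one (by positivity), pow_add, pow_mul']
    have h1 : (c : ℝ) + 10 ≤ 11 * 2 ^ j := by linarith
    have h2 : ((c : ℝ) + 1) ^ 2 ≤ (2 * 2 ^ j) ^ 2 :=
      pow_le_pow_left₀ (by positivity) (by linarith) 2
    have h3 := mul_le_mul h1 h2 (by positivity) (by positivity)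
    have h4 : (0 : ℝ) ≤ (2 ^ j) ^ 3 := by positivity
    nlinarith
  have hy : 2 * Real.exp (-(1 / (2 * s ^ 2))) * Fintype.card (Bits n) ≤ 2 / 2 ^ n := by
    have h1 : -(1 / (2 * s ^ 2)) = n * (-2 : ℝ) := by rw [hs]; field_simp; norm_num
    have h2 : Real.exp (-2) ≤ 1 / 4 := by
      rw [Real.exp_neg, ← one_div]
      refine one_div_le_one_div_of_le (by norm_num) ?_
      have h3 : (2 : ℝ) ≤ Real.exp 1 := by linarith [Real.add_one_le_exp 1]
      rw [show (2 : ℝ) = 1 + 1 by norm_num, Real.exp_add]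
      nlinarith
    rw [h1, Real.exp_nat_mul, hcard]
    have h3 := pow_le_pow_left₀ (Real.exp_pos _).le h2 n
    refine (mul_le_mul_of_nonneg_right (mul_le_mul_of_nonneg_left h3 (by norm_num))
      hNpos.le).trans (le_of_eq ?_)
    rw [div_pow, one_pow, show (4 : ℝ) = 2 * 2 by norm_num, mul_pow]
    field_simp
  have hy1 : (2 : ℝ) / 2 ^ n ≤ 1 / 100 := by
    rw [div_le_div_iff₀ hNpos (by norm_num)]
    nlinarith
  have hneg : ∀ l : Bits n, 𝔼 z, max (-dens (GG γ l) s z) 0 ≤ 2 / 2 ^ n := fun l =>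
    neg_dens (orth_GG γ hγ l) s hs0 hs2 _ hy (by linarith)
  have hζ : 4 / s ^ 4 * (1 / Fintype.card (Bits n) + 4 * (2 / 2 ^ n)) ≤ 1 / 100 := by
    rw [show s ^ 4 = (s ^ 2) ^ 2 by ring, hs, hcard]
    have : 4 / (1 / (4 * n : ℝ)) ^ 2 * (1 / 2 ^ n + 4 * (2 / 2 ^ n)) = 576 * n ^ 2 / 2 ^ n := by
      field_simp; norm_num
    rw [this, div_le_div_iff₀ hNpos (by norm_num)]
    linarith
  have key := rand_bound (fun (l : Bits n) (x y : ZZ n) => dens (GG γ l) s (bx x y))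
    (goodC γ (1 / (8 * n))) (piC p) (1 / 1000) (1 / 2 ^ (c + 10)) (2 / 4 ^ (c + 1)) (2 / 2 ^ n)
    (1 / 100) (1 / 100) (by norm_num) (by positivity) (by positivity) (by norm_num) (by norm_num)
    (fun l => transfer_dens (orth_GG γ hγ l) γ (abs_GG γ hγ0 l) hγ0 s hs2 c hc2)
    (fun l => by
      rw [expect_expect_bx (fun z => max (-dens (GG γ l) s z) 0)]
      exact hneg l)
    (fun l => by rw [expect_expect_bx (dens (GG γ l) s), expect_dens])
    (fun l => by
      have := (bad_dens (orth_GG γ hγ l) s hs0 hs2 _ (hneg l)).trans hζ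
      rw [← expect_expect_bx] at this
      refine le_trans (le_of_eq ?_) this
      refine expect_congr rfl fun x _ => expect_congr rfl fun y _ => ?_
      simp only [goodC, hθ])
    (by rw [hcard]; linarith) c
    (by
      rw [div_mul_eq_mul_div, div_le_one (by positivity), pow_succ, show (4 : ℝ) = 2 * 2 by norm_num,
        mul_pow]
      have : (1 : ℝ) ≤ 2 ^ c := one_le_pow₀ (by norm_num)
      nlinarith)
    hR
  rw [hcard] at key
  have b1 : (2 : ℝ) ^ n / Fintype.card (WW n p) ≤ 1 / 100 := by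
    rw [div_le_div_iff₀ (by linarith) (by norm_num)]
    linarith
  have b2 : (2 : ℝ) ^ c * (1 / 2 ^ (c + 10)) ≤ 1 / 1000 := by
    rw [pow_add, mul_one_div, div_le_div_iff₀ (by positivity) (by norm_num)]
    have : (0 : ℝ) ≤ 2 ^ c := by positivity
    nlinarith
  have b3 : (2 : ℝ) ^ c * (Real.exp (-((1 / 100) ^ 2 * 2 ^ n)) / (1 / 100 * 2 ^ n)) ≤ 1 / 100 := by
    have h1 : (2 : ℝ) ^ c ≤ Real.exp c := by
      rw [← mul_one (c : ℝ), Real.exp_nat_mul]
      exact pow_le_pow_left₀ (by norm_num) (by linarith [Real.add_one_le_exp 1]) c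
    have h2 : (10000 : ℝ) * 2 ^ j ≤ 2 ^ n := by
      rw [hn, show 2 * (3 * j + 20) = j + (5 * j + 40) by ring, pow_add, mul_comm]
      refine mul_le_mul_of_nonneg_left ?_ (by positivity)
      exact le_trans (by norm_num) (pow_le_pow_right₀ (by norm_num) (show 40 ≤ 5 * j + 40 by omega))
    have h3 : (2 : ℝ) ^ c * Real.exp (-((1 / 100) ^ 2 * 2 ^ n)) ≤ 1 := by
      refine (mul_le_mul_of_nonneg_right h1 (Real.exp_pos _).le).trans ?_
      rw [← Real.exp_add, Real.exp_le_one_iff]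
      linarith
    rw [← mul_div_assoc, div_le_div_iff₀ (by positivity) (by norm_num)]
    linarith
  linarith

theorem separation (j : ℕ) : ∃ (X Y : Type) (_ : Fintype X) (_ : Fintype Y) (f : X → Y → Bool),
    QuantComputes f (2000000000 * (j + 1) ^ 3) ∧ ∀ c ≤ 2 ^ j, ¬ RandComputes f c := by
  obtain ⟨n, hn⟩ : ∃ n, n = 2 * (3 * j + 20) := ⟨_, rfl⟩
  have hn40 : 40 ≤ n := by omega
  have hnR : (40 : ℝ) ≤ n := by exact_mod_cast hn40
  obtain ⟨p, hp, hp1, hp2⟩ := Nat.exists_prime_lt_and_le_two_mul (2 ^ (3 * n)) (by positivity)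
  have : Fact p.Prime := ⟨hp⟩
  have hN := sq_le_two_pow n hn40
  have hm : mN n = 2 ^ n * 2 ^ n := by simp [mN]
  have h3n : 2 ^ (3 * n) = 2 ^ n * (2 ^ n * 2 ^ n) := by rw [pow_mul']; ring
  have hpos : 0 < 2 ^ n := by positivity
  refine ⟨ZZ n × (Bits n → WW n p), ZZ n × (Bits n → WW n p), inferInstance, inferInstance,
    FF (goodC (n := n) (1 / 2 ^ (3 * j + 20)) (1 / (8 * n))) (piC p), ?_,
    rand_lower j n p hn ?_⟩
  · obtain ⟨ρ, hρ⟩ : ∃ ρ : ℝ, ρ ^ 2 = 1 / 2 ^ (3 * n) :=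
      ⟨√(1 / 2 ^ (3 * n)), Real.sq_sqrt (by positivity)⟩
    have h := quant_upper (n := n) p (3 * n) (9 * n + 3) (128 * n ^ 2) (1 / 2 ^ (3 * j + 20)) ρ
      (1 / (8 * n)) (by
        rw [Fintype.card_fin, hn, pow_mul' 2 2]
        field_simp) (by rw [Fintype.card_fin, hρ]; field_simp) (by positivity) hp1.le
      (by
        refine (Nat.pow_le_pow_left hp2 3).trans (le_of_eq ?_)
        rw [mul_pow, ← pow_mul]
        ring)
      (by
        refine lt_of_le_of_lt ?_ hp1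
        rw [hm, h3n]
        exact Nat.mul_le_mul_right _ (by nlinarith))
      (by
        push_cast
        exact le_of_eq (by field_simp; norm_num))
      (by
        rw [hm, h3n]
        generalize 2 ^ n * 2 ^ n = w
        nlinarith)
    obtain ⟨A, B, i1, i2, i3, i4, a₀, b₀, t, ht, h⟩ := h
    refine ⟨A, B, i1, i2, i3, i4, a₀, b₀, t, ht.trans ?_, h⟩
    have h1 : n ≤ 40 * (j + 1) := by omega
    have h2 : n ^ 3 ≤ (40 * (j + 1)) ^ 3 := Nat.pow_le_pow_left h1 3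
    rw [mul_pow] at h2
    have h3 : n ^ 2 * 40 ≤ n ^ 3 := by rw [pow_succ n 2]; exact Nat.mul_le_mul_left _ hn40
    have h4 : 1 ≤ n ^ 2 := Nat.one_le_pow _ _ (by omega)
    have h5 : 9 * (128 * n ^ 2 * (n + (3 * n + (9 * n + 3)))) + 4 =
        14976 * n ^ 3 + 3456 * n ^ 2 + 4 := by ring
    rw [h5]
    generalize (j + 1) ^ 3 = w at h2 ⊢
    generalize n ^ 3 = u at h2 h3 ⊢
    generalize n ^ 2 = v at h3 h4 ⊢
    norm_num at h2
    linarith
  · refine le_trans ?_ hp1.le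
    rw [h3n, mul_comm]
    exact Nat.mul_le_mul_left _ (by nlinarith)

lemma poly_lt (C : ℕ) (P : Polynomial ℝ) :
    ∃ j : ℕ, ∀ q : ℕ, q ≤ C * (j + 1) ^ 3 → P.eval (q : ℝ) < 2 ^ j := by
  set d := P.natDegree
  set A : ℝ := ∑ i ∈ range (d + 1), |P.coeff i| with hA
  have hA0 : 0 ≤ A := sum_nonneg fun _ _ => abs_nonneg _
  set B : ℝ := 2 * A * (C + 1) ^ d + 1 with hB
  have hB0 : 0 < B := by positivity
  have h1 := tendsto_pow_const_div_const_pow_of_one_lt (3 * d) (show (1 : ℝ) < 2 by norm_num)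
  obtain ⟨J, hJ⟩ := Filter.eventually_atTop.mp
    (h1.eventually (gt_mem_nhds (show (0 : ℝ) < 1 / B by positivity)))
  refine ⟨J, fun q hq => ?_⟩
  have h2 := hJ (J + 1) (by omega)
  rw [div_lt_div_iff₀ (by positivity) hB0] at h2
  push_cast at h2
  have hJ1 : (1 : ℝ) ≤ (J + 1) ^ 3 := one_le_pow₀ (by linarith [Nat.cast_nonneg (α := ℝ) J])
  have hq' : (q : ℝ) ≤ C * (J + 1) ^ 3 := by exact_mod_cast hq
  have h3 : (q : ℝ) ≤ (C + 1) * (J + 1) ^ 3 := by linarith
  have h4 : (1 : ℝ) ≤ (C + 1) * (J + 1) ^ 3 := by nlinarith [Nat.cast_nonneg (α := ℝ) C]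
  have h5 : P.eval (q : ℝ) ≤ A * ((C + 1) * (J + 1) ^ 3) ^ d := by
    rw [Polynomial.eval_eq_sum_range, hA, sum_mul]
    refine sum_le_sum fun i hi => ?_
    refine mul_le_mul (le_abs_self _) ?_ (by positivity) (abs_nonneg _)
    exact (pow_le_pow_left₀ (by positivity) h3 i).trans
      (pow_le_pow_right₀ h4 (Nat.lt_succ_iff.mp (mem_range.mp hi)))
  rw [mul_pow, ← pow_mul] at h5
  have h6 : (0 : ℝ) < (J + 1) ^ (3 * d) := by positivity
  rw [pow_succ 2, hB] at h2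
  nlinarith

end Pool.Agent.Lib.MP_3bba25_lc
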