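import Mathlib

set_option autoImplicit false
set_option linter.unusedSectionVars false

open Finset
open scoped BigOperators

namespace Pool.Agent.Lib.MP_3bba25_lc

variable {F : Type} [Field F] {M : ℕ}

lemma card_agree_idx {Q : Type} [Fintype Q] [DecidableEq Q] (κ : Q → ℕ)
    (hi : Function.Injective κ) (d : ℕ) (hκ : ∀ q, κ q ≤ d) (w w' : Q → F) (h : w ≠ w')
    (s : Finset F) (hs : ∀ r ∈ s, ∑ q, w q * r ^ κ q = ∑ q, w' q * r ^ κ q) : s.card ≤ d := by
  by_contra! hc
  let P : Polynomial F := ∑ q, Polynomial.monomial (κ q) (w q - w' q)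
  have h1 : P.natDegree ≤ d := by
    refine Polynomial.natDegree_sum_le_of_forall_le _ _ fun k _ => ?_
    exact (Polynomial.natDegree_monomial_le _).trans (hκ k)
  have h2 : P = 0 := by
    refine Polynomial.eq_zero_of_natDegree_lt_card_of_eval_eq_zero' P s (fun r hr => ?_) (by omega)
    simp only [P, Polynomial.eval_finsetSum, Polynomial.eval_monomial, sub_mul, sum_sub_distrib]
    exact sub_eq_zero.mpr (hs r hr)
  refine h (funext fun k => ?_)
  have h3 := congrArg (fun p : Polynomial F => p.coeff (κ k)) h2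
  simp only [P, Polynomial.finsetSum_coeff, Polynomial.coeff_monomial, Polynomial.coeff_zero,
    hi.eq_iff, sum_ite_eq', mem_univ, if_true] at h3
  exact sub_eq_zero.mp h3

/-- The exponent attached to an entry of a square table. -/
def ex (c : Fin M × Fin M) : ℕ := c.1 + M * c.2

lemma ex_le (c : Fin M × Fin M) : ex c ≤ M * M := by
  have h1 := c.1.2
  have h2 : c.2.1 + 1 ≤ M := c.2.2
  have h3 := Nat.mul_le_mul_left M h2
  simp only [ex]
  rw [mul_add, mul_one] at h3
  omega

lemma ex_inj : Function.Injective (ex (M := M)) := by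
  rintro ⟨a, b⟩ ⟨a', b'⟩ h
  simp only [ex] at h
  have h1 : (a.1 + M * b.1) % M = (a'.1 + M * b'.1) % M := by rw [h]
  rw [Nat.add_mul_mod_self_left, Nat.add_mul_mod_self_left, Nat.mod_eq_of_lt a.2,
    Nat.mod_eq_of_lt a'.2] at h1
  have hM : 0 < M := lt_of_le_of_lt (Nat.zero_le _) a.2
  have h2 : b.1 = b'.1 := Nat.eq_of_mul_eq_mul_left hM (by omega)
  exact Prod.ext (Fin.ext h1) (Fin.ext h2)

/-- The shifted diagonal of a table. -/
def dg (w : Fin M × Fin M → F) (a : ℕ) : F := ∑ i : Fin M, if i.1 + 1 = a then w (i, i) else 0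

/-- The shifted diagonal with a leading one. -/
def pv (w : Fin M × Fin M → F) (a : ℕ) : F := (if a = 0 then 1 else 0) + dg w a

lemma pv_add (u v : Fin M × Fin M → F) (a : ℕ) : pv (u + v) a = pv u a + dg v a := by
  simp only [pv, dg, add_assoc, ← sum_add_distrib, Pi.add_apply]
  congr 1
  refine sum_congr rfl fun i _ => ?_
  split_ifs <;> simp

lemma pv_zero (w : Fin M × Fin M → F) : pv w 0 = 1 := by simp [pv, dg]

lemma pv_succ (w : Fin M × Fin M → F) (i : Fin M) : pv w (i.1 + 1) = w (i, i) := by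
  simp [pv, dg, Fin.val_inj]

/-- Initial products. -/
def pre (T : Fin M → F) (a : ℕ) : F := ∏ i : Fin M, if i.1 < a then T i else 1

lemma pre_zero (T : Fin M → F) : pre T 0 = 1 := by simp [pre]

lemma pre_top (T : Fin M → F) : pre T M = ∏ i, T i := by simp [pre]

lemma pre_succ (T : Fin M → F) (i : Fin M) : pre T (i.1 + 1) = pre T i * T i := by
  have h : T i = ∏ k : Fin M, if k = i then T k else 1 := by simp
  rw [h, pre, pre, ← prod_mul_distrib]
  refine prod_congr rfl fun k _ => ?_
  by_cases h1 : k = i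
  · subst h1; simp
  · have h2 : k.1 ≠ i.1 := fun h' => h1 (Fin.ext h')
    by_cases h3 : k.1 < i.1
    · rw [if_pos (by omega), if_pos h3, if_neg h1, mul_one]
    · rw [if_neg (by omega), if_neg h3, if_neg h1, mul_one]

/-- The certificate table. -/
def tab (T : Fin M → F) (c : Fin M × Fin M) : F := pre T c.1 * T c.2

lemma pv_tab (T : Fin M → F) (a : ℕ) (ha : a ≤ M) : pv (tab T) a = pre T a := by
  rcases a with _ | a
  · rw [pv_zero, pre_zero]
  · exact (pv_succ (tab T) ⟨a, ha⟩).trans (pre_succ T ⟨a, ha⟩).symm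

lemma eq_tab (T : Fin M → F) (w : Fin M × Fin M → F)
    (h : w = fun c => pv w c.1 * T c.2) : w = tab T := by
  have h1 : ∀ a, a ≤ M → pv w a = pre T a := by
    intro a
    induction a with
    | zero => intro _; rw [pv_zero, pre_zero]
    | succ a ih =>
      intro ha
      have h2 := pv_succ w ⟨a, ha⟩
      have h3 := pre_succ T ⟨a, ha⟩
      have h4 := congrFun h (⟨a, ha⟩, ⟨a, ha⟩)
      simp only at h2 h3 h4
      rw [h2, h3, h4, ih (by omega)]
  rw [h]
  funext c
  rw [tab, h1 _ c.1.2.le]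

/-- Evaluation of a table. -/
def evt (w : Fin M × Fin M → F) (r : F) : F := ∑ c, w c * r ^ ex c

lemma evt_add (u v : Fin M × Fin M → F) (r : F) : evt (u + v) r = evt u r + evt v r := by
  simp only [evt, Pi.add_apply, add_mul, sum_add_distrib]

lemma evt_rank_one (P T : Fin M → F) (r : F) :
    evt (fun c => P c.1 * T c.2) r =
      (∑ a : Fin M, P a * r ^ a.1) * ∑ b : Fin M, T b * r ^ (M * b.1) := by
  rw [evt, Fintype.sum_prod_type, sum_mul_sum]
  refine sum_congr rfl fun a _ => sum_congr rfl fun b _ => ?_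
  simp only [ex, pow_add]
  ring

lemma card_rank_one (T : Fin M → F) (w : Fin M × Fin M → F) (h : w ≠ tab T) (s : Finset F)
    (hs : ∀ r ∈ s, evt w r =
      (∑ a : Fin M, pv w a * r ^ a.1) * ∑ b : Fin M, T b * r ^ (M * b.1)) : s.card ≤ M * M := by
  refine card_agree_idx ex ex_inj _ ex_le w (fun c => pv w c.1 * T c.2)
    (fun h' => h (eq_tab T w h')) s fun r hr => ?_
  exact (hs r hr).trans (evt_rank_one (fun a => pv w a) T r).symm

lemma evt_tab (T : Fin M → F) (r : F) : evt (tab T) r =
    (∑ a : Fin M, pv (tab T) a * r ^ a.1) * ∑ b : Fin M, T b * r ^ (M * b.1) := by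
  rw [← evt_rank_one (fun a => pv (tab T) a) T r]
  congr 1
  funext c
  rw [pv_tab T _ c.1.2.le, tab]

end Pool.Agent.Lib.MP_3bba25_lc
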