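import Mathlib
import Pool.Agent.Lib.MP_3bba25_lc.Upper
import Pool.Agent.Lib.MP_3bba25_lc.XorCert

set_option autoImplicit false
set_option linter.unusedSectionVars false

open Finset
open scoped BigOperators

namespace Pool.Agent.Lib.MP_3bba25_lc

variable {n : ℕ} {F : Type} [Field F]

/-- Enumeration of pairs. -/
noncomputable def en (n : ℕ) : Fin (mN n) ≃ Bits n × Bits n := (Fintype.equivFin _).symm

/-- Cells with entries in a field. -/
abbrev WX (n : ℕ) (F : Type) : Type := Fin (mN n) × Fin (mN n) → F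

/-- The factors: `1` for a positive term, `g` for a negative one. -/
noncomputable def TT (g : F) (l : Bits n) (z : ZZ n) (b : Fin (mN n)) : F :=
  if XA l z (en n b) = 1 then 1 else g

/-- Bob's additive share of a factor. -/
noncomputable def TB (g : F) (y : ZZ n) (b : Fin (mN n)) : F :=
  if YB y (en n b) = 1 then 0 else 1 + g

lemma sz_xor (a b : Bool) : sz (xor a b) = sz a * sz b := by cases a <;> cases b <;> simp [sz]

lemma XA_bx (l : Bits n) (x y : ZZ n) (q : Bits n × Bits n) :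
    XA l (bx x y) q = XA l x q * YB y q := by
  simp only [XA, YB, bx, sz_xor]
  ring

lemma XA_cases (l : Bits n) (x : ZZ n) (q : Bits n × Bits n) : XA l x q = 1 ∨ XA l x q = -1 := by
  refine (abs_eq (by norm_num)).mp ?_
  simp only [XA, abs_mul, abs_sgz, abs_sz, mul_one]

lemma YB_cases (y : ZZ n) (q : Bits n × Bits n) : YB y q = 1 ∨ YB y q = -1 := by
  refine (abs_eq (by norm_num)).mp ?_
  simp only [YB, abs_mul, abs_sz, mul_one]

lemma TT_bx (h2 : (2 : F) = 0) (g : F) (l : Bits n) (x y : ZZ n) (b : Fin (mN n)) :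
    TT g l (bx x y) b = TT g l x b + TB g y b := by
  simp only [TT, TB, XA_bx]
  rcases XA_cases l x (en n b) with h | h <;> rcases YB_cases y (en n b) with h' | h' <;>
    rw [h, h'] <;> norm_num
  · linear_combination (-1 : F) * h2
  · linear_combination (-g) * h2

/-- The number of negative terms. -/
noncomputable def cnt (l : Bits n) (z : ZZ n) : ℕ :=
  (univ.filter fun b : Fin (mN n) => ¬ XA l z (en n b) = 1).card

lemma cnt_le (l : Bits n) (z : ZZ n) : cnt l z ≤ mN n :=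
  (card_filter_le _ _).trans (by simp)

lemma prod_TT (g : F) (l : Bits n) (z : ZZ n) : ∏ b, TT g l z b = g ^ cnt l z := by
  simp only [TT]
  rw [prod_ite, prod_const_one, one_mul, prod_const, cnt]

lemma sum_XA (l : Bits n) (z : ZZ n) : ∑ q, XA l z q = (mN n : ℤ) - 2 * cnt l z := by
  rw [← Equiv.sum_comp (en n), cnt, card_filter]
  have h : (mN n : ℤ) = ∑ _b : Fin (mN n), (1 : ℤ) := by simp
  rw [h]
  push_cast
  rw [mul_sum, ← sum_sub_distrib]
  refine sum_congr rfl fun b _ => ?_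
  rcases XA_cases l z (en n b) with h | h <;> rw [h] <;> norm_num

lemma Phi_cnt (γ : ℝ) (hγ : γ ^ 2 * 2 ^ Fintype.card (Fin n) = 1) (l : Bits n) (x y : ZZ n) :
    Phi (GG γ l) (bx x y) = ((mN n : ℝ) - 2 * cnt l (bx x y)) * γ ^ 3 := by
  rw [Phi_eq γ hγ]
  simp only [← XA_bx]
  rw [sum_XA]
  push_cast
  rfl

/-- The certificate, a function of the bitwise sum of the two inputs. -/
noncomputable def piX (g : F) (l : Bits n) (x y : ZZ n) : WX n F := tab (TT g l (bx x y))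

/-- Alice's message. -/
noncomputable def msgX (g : F) (x : ZZ n × (Bits n → WX n F)) (l : Bits n) (r : F) :
    F × F × F × F :=
  (evt (x.2 l) r, ∑ a : Fin (mN n), pv (x.2 l) a * r ^ a.1,
    ∑ b : Fin (mN n), TT g l x.1 b * r ^ (mN n * b.1), pv (x.2 l) (mN n))

/-- Bob's test. -/
def chkX (g : F) (γ θ : ℝ) (y : ZZ n × (Bits n → WX n F)) (l : Bits n) (r : F)
    (a : F × F × F × F) : Prop :=
  a.1 + evt (y.2 l) r = (a.2.1 + ∑ i : Fin (mN n), dg (y.2 l) i * r ^ i.1) *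
      (a.2.2.1 + ∑ b : Fin (mN n), TB g y.1 b * r ^ (mN n * b.1)) ∧
    ∃ C : ℕ, C ≤ mN n ∧ θ ≤ ((mN n : ℝ) - 2 * C) * γ ^ 3 ∧ g ^ C = a.2.2.2 + dg (y.2 l) (mN n)

lemma chkX_iff (h2 : (2 : F) = 0) (g : F) (γ θ : ℝ) (x y : ZZ n × (Bits n → WX n F))
    (l : Bits n) (r : F) : chkX g γ θ y l r (msgX g x l r) ↔
      evt (x.2 l + y.2 l) r = (∑ a : Fin (mN n), pv (x.2 l + y.2 l) a * r ^ a.1) *
        (∑ b : Fin (mN n), TT g l (bx x.1 y.1) b * r ^ (mN n * b.1)) ∧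
      ∃ C : ℕ, C ≤ mN n ∧ θ ≤ ((mN n : ℝ) - 2 * C) * γ ^ 3 ∧
        g ^ C = pv (x.2 l + y.2 l) (mN n) := by
  simp only [chkX, msgX, evt_add, pv_add, TT_bx h2, add_mul (pv _ _), add_mul (TT _ _ _ _),
    sum_add_distrib]

lemma pv_piX (g : F) (l : Bits n) (x y : ZZ n) :
    pv (piX g l x y) (mN n) = g ^ cnt l (bx x y) := by
  rw [piX, pv_tab _ _ le_rfl, pre_top, prod_TT]

lemma chkX_of (h2 : (2 : F) = 0) (g : F) (γ θ : ℝ) (hγ : γ ^ 2 * 2 ^ Fintype.card (Fin n) = 1)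
    (x y : ZZ n × (Bits n → WX n F)) (l : Bits n) (h1 : goodC γ θ l x.1 y.1)
    (h3 : x.2 l + y.2 l = piX g l x.1 y.1) (r : F) : chkX g γ θ y l r (msgX g x l r) := by
  rw [chkX_iff h2, h3]
  refine ⟨evt_tab _ r, cnt l (bx x.1 y.1), cnt_le _ _, ?_, (pv_piX g l _ _).symm⟩
  rw [← Phi_cnt γ hγ]
  exact h1

open Classical in
lemma card_chkX (h2 : (2 : F) = 0) (g : F)
    (hg : ∀ a b : ℕ, a ≤ mN n → b ≤ mN n → g ^ a = g ^ b → a = b) (γ θ : ℝ)
    (hγ : γ ^ 2 * 2 ^ Fintype.card (Fin n) = 1) (x y : ZZ n × (Bits n → WX n F)) (l : Bits n)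
    (h : ¬ (goodC γ θ l x.1 y.1 ∧ x.2 l + y.2 l = piX g l x.1 y.1)) {Pt : Type} [Fintype Pt]
    (pt : Pt ↪ F) :
    (univ.filter fun r => chkX g γ θ y l (pt r) (msgX g x l (pt r))).card ≤ mN n * mN n := by
  by_cases h3 : x.2 l + y.2 l = piX g l x.1 y.1
  · have h1 : ¬ goodC γ θ l x.1 y.1 := fun h1 => h ⟨h1, h3⟩
    rw [filter_eq_empty_iff.mpr, card_empty]
    · exact Nat.zero_le _
    intro r _ hr
    obtain ⟨_, C, hC1, hC2, hC3⟩ := (chkX_iff h2 g γ θ x y l _).mp hr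
    rw [h3, pv_piX] at hC3
    refine h1 ?_
    rw [goodC, Phi_cnt γ hγ, ← hg _ _ hC1 (cnt_le _ _) hC3]
    exact hC2
  · rw [← card_map pt]
    refine card_rank_one _ _ h3 _ fun r hr => ?_
    obtain ⟨r', hr', rfl⟩ := mem_map.mp hr
    exact ((chkX_iff h2 g γ θ x y l _).mp (mem_filter.mp hr').2).1

open Classical in
theorem quant_upperX [Fintype F] (h2 : (2 : F) = 0) (g : F)
    (hg : ∀ a b : ℕ, a ≤ mN n → b ≤ mN n → g ^ a = g ^ b → a = b)
    (b₁ b₂ T : ℕ) (γ ρ θ : ℝ) (hγ : γ ^ 2 * 2 ^ Fintype.card (Fin n) = 1)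
    (hρ : ρ ^ 2 * 2 ^ Fintype.card (Fin b₁) = 1) (hθ : 0 ≤ θ) (hp1 : 2 ^ b₁ ≤ Fintype.card F)
    (hp2 : Fintype.card F ^ 4 ≤ 2 ^ b₂) (hT1 : 2 ≤ T * θ ^ 2)
    (hT2 : T * (mN n * mN n) * 3 ≤ 2 ^ b₁) :
    QuantComputes (FF (goodC (n := n) γ θ) (piX g)) (9 * (T * (n + (b₁ + b₂))) + 4) := by
  obtain ⟨pt⟩ : Nonempty (Bits b₁ ↪ F) :=
    Function.Embedding.nonempty_of_card_le (by simpa using hp1)
  obtain ⟨enc⟩ : Nonempty (F × F × F × F ↪ Bits b₂) :=
    Function.Embedding.nonempty_of_card_le (by simpa [pow_succ, mul_assoc] using hp2)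
  refine amplify2 (A := Bits n) (Pt := Bits b₁) (Ms := Bits b₂) (n + (b₁ + b₂))
    (by simp [pow_add]) (fun _ => false) (fun _ => false) (fun _ => false)
    (fun x => dh (fun i => x.1 (Sum.inl i)) (fun _ => false) (had γ))
    (fun x => dh (fun _ => false) (fun j => x.1 (Sum.inr j)) (had γ))
    (fun y => dh (fun j => y.1 (Sum.inr j)) (fun i => y.1 (Sum.inl i)) (had γ)) (had ρ) ρ
    (had_zero ρ) (fun x => orth_dh _ _ (orth_had γ hγ)) (fun x => orth_dh _ _ (orth_had γ hγ))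
    (fun x => orth_dh _ _ (orth_had γ hγ)) (orth_had ρ hρ) bx ?_ bx_eq_zero enc
    (fun x l r => msgX g x l (pt r)) (fun y l r a => chkX g γ θ y l (pt r) a)
    (fun x y l => Phi (GG γ l) (bx x.1 y.1)) (fun x y => amp_eq γ hγ x.1 y.1) _ T ?_ ?_
  · intro g
    refine Function.Involutive.injective fun g' => ?_
    funext k
    simp [bx]
  · intro x y hxy
    obtain ⟨l, h1, h3⟩ := (FF_iff _ _ _ _).mp hxy
    refine hT1.trans (mul_le_mul_of_nonneg_left ?_ (Nat.cast_nonneg _))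
    refine le_trans ?_ (single_le_sum (fun l _ => by positivity) (mem_univ l))
    rw [filter_true_of_mem fun r _ => chkX_of h2 g γ θ hγ x y l h1 h3 _]
    have : ((univ : Finset (Bits b₁)).card : ℝ) = 2 ^ Fintype.card (Fin b₁) := by simp
    rw [this, hρ, mul_one]
    exact pow_le_pow_left₀ hθ h1 2
  · intro x y hxy
    have h1 := mt (FF_iff _ _ x y).mpr (by rw [hxy]; simp)
    have h5 : ∑ l, Phi (GG γ l) (bx x.1 y.1) ^ 2 = 1 := by
      have := amp_eq γ hγ x.1 y.1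
      simp only [← congrFun this]
      rw [sum_act_sq (orth_dh _ _ (orth_had γ hγ)), sum_act_sq (orth_dh _ _ (orth_had γ hγ)),
        sum_act_sq (orth_dh _ _ (orth_had γ hγ))]
      simp
    have h3 : ∑ l, Phi (GG γ l) (bx x.1 y.1) ^ 2 * (ρ ^ 2 *
        (univ.filter fun r => chkX g γ θ y l (pt r) (msgX g x l (pt r))).card) ≤
        ρ ^ 2 * (mN n * mN n : ℕ) := by
      rw [← one_mul (ρ ^ 2 * (mN n * mN n : ℕ)), ← h5, sum_mul]
      refine sum_le_sum fun l _ => mul_le_mul_of_nonneg_left (mul_le_mul_of_nonneg_left ?_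
        (sq_nonneg _)) (sq_nonneg _)
      exact_mod_cast card_chkX h2 g hg γ θ hγ x y l (fun h => h1 ⟨l, h⟩) pt
    refine (mul_le_mul_of_nonneg_left h3 (Nat.cast_nonneg _)).trans ?_
    have h4 : ((T * (mN n * mN n) * 3 : ℕ) : ℝ) ≤ (2 ^ b₁ : ℕ) := by exact_mod_cast hT2
    rw [Fintype.card_fin] at hρ
    generalize mN n * mN n = m at h4 ⊢
    push_cast at h4 ⊢
    nlinarith [mul_le_mul_of_nonneg_left h4 (sq_nonneg ρ)]

end Pool.Agent.Lib.MP_3bba25_lc
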