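import Mathlib
import Pool.Agent.Lib.MP_3bba25_lc.Sep
import Pool.Agent.Lib.MP_3bba25_lc.XorUpper

set_option autoImplicit false
set_option linter.unusedSectionVars false

open Finset
open scoped BigOperators

namespace Pool.Agent.Lib.MP_3bba25_lc

theorem rand_lowerW (j n : ℕ) (hn : n = 2 * (3 * j + 20)) {W : Type} [Fintype W] [AddCommGroup W]
    (π : Bits n → ZZ n → ZZ n → W) (hcardW : (100 : ℝ) * 2 ^ n ≤ Fintype.card W)
    (c : ℕ) (hc : c ≤ 2 ^ j) :
    ¬ RandComputes (FF (goodC (n := n) (1 / 2 ^ (3 * j + 20)) (1 / (8 * n))) π) c := by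
  intro hR
  set γ : ℝ := 1 / 2 ^ (3 * j + 20) with hγdef
  have hn40 : 40 ≤ n := by omega
  have hnR : (40 : ℝ) ≤ n := by exact_mod_cast hn40
  have hγ : γ ^ 2 * 2 ^ Fintype.card (Fin n) = 1 := by
    rw [Fintype.card_fin, hn, hγdef, pow_mul' 2 2]
    field_simp
  have hγ0 : 0 ≤ γ := by positivity
  obtain ⟨s, hs0, hs⟩ : ∃ s : ℝ, 0 < s ∧ s ^ 2 = 1 / (4 * n) :=
    ⟨√(1 / (4 * n)), Real.sqrt_pos.mpr (by positivity), Real.sq_sqrt (by positivity)⟩
  have hs2 : s ^ 2 ≤ 1 / 2 := by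
    rw [hs]
    exact one_div_le_one_div_of_le (by norm_num) (by linarith)
  have hθ : (1 : ℝ) / (8 * n) = s ^ 2 / 2 := by rw [hs]; field_simp; norm_num
  have hcard : (Fintype.card (Bits n) : ℝ) = 2 ^ n := by simp
  have hN : (57600 : ℝ) * n ^ 2 ≤ 2 ^ n := by exact_mod_cast sq_le_two_pow n hn40
  have hNpos : (0 : ℝ) < 2 ^ n := by positivity
  have hcR : (c : ℝ) ≤ 2 ^ j := by exact_mod_cast hc
  have hj1 : (1 : ℝ) ≤ 2 ^ j := one_le_pow₀ (by norm_num)
  have hc2 : ((c : ℝ) + 10) * (16 * (c + 1) ^ 2) * 1000 * γ ≤ 1 := by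
    rw [hγdef, mul_one_div, div_le_one (by positivity), pow_add, pow_mul']
    have h1 : (c : ℝ) + 10 ≤ 11 * 2 ^ j := by linarith
    have h2 : ((c : ℝ) + 1) ^ 2 ≤ (2 * 2 ^ j) ^ 2 :=
      pow_le_pow_left₀ (by positivity) (by linarith) 2
    have h3 := mul_le_mul h1 h2 (by positivity) (by positivity)
    have h4 : (0 : ℝ) ≤ (2 ^ j) ^ 3 := by positivity
    nlinarith
  have hy : 2 * Real.exp (-(1 / (2 * s ^ 2))) * Fintype.card (Bits n) ≤ 2 / 2 ^ n := by
    have h1 : -(1 / (2 * s ^ 2)) = n * (-2 : ℝ) := by rw [hs]; field_simp; norm_num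
    have h2 : Real.exp (-2) ≤ 1 / 4 := by
      rw [Real.exp_neg, ← one_div]
      refine one_div_le_one_div_of_le (by norm_num) ?_
      have h3 : (2 : ℝ) ≤ Real.exp 1 := by linarith [Real.add_one_le_exp 1]
      rw [show (2 : ℝ) = 1 + 1 by norm_num, Real.exp_add]
      nlinarith
    rw [h1, Real.exp_nat_mul, hcard]
    have h3 := pow_le_pow_left₀ (Real.exp_pos _).le h2 n
    refine (mul_le_mul_of_nonneg_right (mul_le_mul_of_nonneg_left h3 (by norm_num))
      hNpos.le).trans (le_of_eq ?_)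
    rw [div_pow, one_pow, show (4 : ℝ) = 2 * 2 by norm_num, mul_pow]
    field_simp
  have hy1 : (2 : ℝ) / 2 ^ n ≤ 1 / 100 := by
    rw [div_le_div_iff₀ hNpos (by norm_num)]
    nlinarith
  have hneg : ∀ l : Bits n, 𝔼 z, max (-dens (GG γ l) s z) 0 ≤ 2 / 2 ^ n := fun l =>
    neg_dens (orth_GG γ hγ l) s hs0 hs2 _ hy (by linarith)
  have hζ : 4 / s ^ 4 * (1 / Fintype.card (Bits n) + 4 * (2 / 2 ^ n)) ≤ 1 / 100 := by
    rw [show s ^ 4 = (s ^ 2) ^ 2 by ring, hs, hcard]
    have : 4 / (1 / (4 * n : ℝ)) ^ 2 * (1 / 2 ^ n + 4 * (2 / 2 ^ n)) = 576 * n ^ 2 / 2 ^ n := by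
      field_simp; norm_num
    rw [this, div_le_div_iff₀ hNpos (by norm_num)]
    linarith
  have key := rand_bound (fun (l : Bits n) (x y : ZZ n) => dens (GG γ l) s (bx x y))
    (goodC γ (1 / (8 * n))) π (1 / 1000) (1 / 2 ^ (c + 10)) (2 / 4 ^ (c + 1)) (2 / 2 ^ n)
    (1 / 100) (1 / 100) (by norm_num) (by positivity) (by positivity) (by norm_num) (by norm_num)
    (fun l => transfer_dens (orth_GG γ hγ l) γ (abs_GG γ hγ0 l) hγ0 s hs2 c hc2)
    (fun l => by
      rw [expect_expect_bx (fun z => max (-dens (GG γ l) s z) 0)]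
      exact hneg l)
    (fun l => by rw [expect_expect_bx (dens (GG γ l) s), expect_dens])
    (fun l => by
      have := (bad_dens (orth_GG γ hγ l) s hs0 hs2 _ (hneg l)).trans hζ
      rw [← expect_expect_bx] at this
      refine le_trans (le_of_eq ?_) this
      refine expect_congr rfl fun x _ => expect_congr rfl fun y _ => ?_
      simp only [goodC, hθ])
    (by rw [hcard]; linarith) c
    (by
      rw [div_mul_eq_mul_div, div_le_one (by positivity), pow_succ, show (4 : ℝ) = 2 * 2 by norm_num,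
        mul_pow]
      have : (1 : ℝ) ≤ 2 ^ c := one_le_pow₀ (by norm_num)
      nlinarith)
    hR
  rw [hcard] at key
  have b1 : (2 : ℝ) ^ n / Fintype.card W ≤ 1 / 100 := by
    rw [div_le_div_iff₀ (by linarith) (by norm_num)]
    linarith
  have b2 : (2 : ℝ) ^ c * (1 / 2 ^ (c + 10)) ≤ 1 / 1000 := by
    rw [pow_add, mul_one_div, div_le_div_iff₀ (by positivity) (by norm_num)]
    have : (0 : ℝ) ≤ 2 ^ c := by positivity
    nlinarith
  have b3 : (2 : ℝ) ^ c * (Real.exp (-((1 / 100) ^ 2 * 2 ^ n)) / (1 / 100 * 2 ^ n)) ≤ 1 / 100 := by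
    have h1 : (2 : ℝ) ^ c ≤ Real.exp c := by
      rw [← mul_one (c : ℝ), Real.exp_nat_mul]
      exact pow_le_pow_left₀ (by norm_num) (by linarith [Real.add_one_le_exp 1]) c
    have h2 : (10000 : ℝ) * 2 ^ j ≤ 2 ^ n := by
      rw [hn, show 2 * (3 * j + 20) = j + (5 * j + 40) by ring, pow_add, mul_comm]
      refine mul_le_mul_of_nonneg_left ?_ (by positivity)
      exact le_trans (by norm_num) (pow_le_pow_right₀ (by norm_num) (show 40 ≤ 5 * j + 40 by omega))
    have h3 : (2 : ℝ) ^ c * Real.exp (-((1 / 100) ^ 2 * 2 ^ n)) ≤ 1 := by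
      refine (mul_le_mul_of_nonneg_right h1 (Real.exp_pos _).le).trans ?_
      rw [← Real.exp_add, Real.exp_le_one_iff]
      linarith
    rw [← mul_div_assoc, div_le_div_iff₀ (by positivity) (by norm_num)]
    linarith
  linarith

lemma proto_comap {X Y X' Y' : Type} (φ : X' → X) (ψ : Y' → Y) (P : Proto X Y) :
    ∃ P' : Proto X' Y', (∀ x y, P'.run x y = P.run (φ x) (ψ y)) ∧
      ∀ x y, P'.bits x y = P.bits (φ x) (ψ y) := by
  induction P with
  | leaf o => exact ⟨Proto.leaf o, fun _ _ => rfl, fun _ _ => rfl⟩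
  | alice m l r ihl ihr =>
    obtain ⟨l', h1, h2⟩ := ihl
    obtain ⟨r', h3, h4⟩ := ihr
    refine ⟨Proto.alice (fun x => m (φ x)) l' r', fun x y => ?_, fun x y => ?_⟩
    · rw [run_alice, run_alice, h1, h3]
    · rw [bits_alice, bits_alice, h2, h4]
  | bob m l r ihl ihr =>
    obtain ⟨l', h1, h2⟩ := ihl
    obtain ⟨r', h3, h4⟩ := ihr
    refine ⟨Proto.bob (fun y => m (ψ y)) l' r', fun x y => ?_, fun x y => ?_⟩
    · rw [run_bob, run_bob, h1, h3]
    · rw [bits_bob, bits_bob, h2, h4]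

lemma rand_comap {X Y X' Y' : Type} (φ : X' → X) (ψ : Y' → Y) (f : X → Y → Bool) (c : ℕ)
    (h : RandComputes f c) : RandComputes (fun x y => f (φ x) (ψ y)) c := by
  obtain ⟨A, B, i1, i2, μ, ν, P, h1, h2, h3, h4, h5, h6⟩ := h
  obtain ⟨P', k1, k2⟩ := proto_comap (fun p : X' × A => (φ p.1, p.2))
    (fun p : Y' × B => (ψ p.1, p.2)) P
  refine ⟨A, B, i1, i2, μ, ν, P', h1, h2, h3, h4, fun x y a b => ?_, fun x y => ?_⟩
  · rw [k2]; exact h5 _ _ _ _
  · simp only [k1]; exact h6 _ _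

lemma quant_comap {X Y X' Y' : Type} (φ : X' → X) (ψ : Y' → Y) (f : X → Y → Bool) (c : ℕ)
    (h : QuantComputes f c) : QuantComputes (fun x y => f (φ x) (ψ y)) c := by
  obtain ⟨A, B, i1, i2, i3, i4, a₀, b₀, t, ht, h⟩ := h
  exact ⟨A, B, i1, i2, i3, i4, fun x => a₀ (φ x), fun y => b₀ (ψ y), t, ht, fun x y => h _ _⟩

lemma quant_mono {X Y : Type} (f : X → Y → Bool) {c c' : ℕ} (hc : c ≤ c')
    (h : QuantComputes f c) : QuantComputes f c' := by
  obtain ⟨A, B, i1, i2, i3, i4, a₀, b₀, t, ht, h⟩ := h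
  exact ⟨A, B, i1, i2, i3, i4, a₀, b₀, t, ht.trans hc, h⟩

/-- The bit of an element of the field with two elements. -/
def toB (a : ZMod 2) : Bool := decide (a = 1)

/-- The element of the field with two elements attached to a bit. -/
def ofB (b : Bool) : ZMod 2 := if b = true then 1 else 0

lemma toB_ofB : ∀ b : Bool, toB (ofB b) = b := by decide

lemma toB_add : ∀ a b : ZMod 2, toB (a + b) = xor (toB a) (toB b) := by decide

/-- Coordinates over the field with two elements. -/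
lemma exists_coords (ι V : Type) [Fintype ι] [AddCommGroup V] [Module (ZMod 2) V]
    [Module.Finite (ZMod 2) V] :
    ∃ (φ : (Fin (Fintype.card ι + Module.finrank (ZMod 2) V) → ZMod 2) → (ι → Bool) × V)
      (ψ : (ι → Bool) × V → Fin (Fintype.card ι + Module.finrank (ZMod 2) V) → ZMod 2),
      (∀ x, φ (ψ x) = x) ∧
        ∀ x y, φ (x + y) = (bx (φ x).1 (φ y).1, (φ x).2 + (φ y).2) := by
  let e : ι ⊕ Fin (Module.finrank (ZMod 2) V) ≃
      Fin (Fintype.card ι + Module.finrank (ZMod 2) V) := Fintype.equivFinOfCardEq (by simp)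
  let B := (Module.finBasis (ZMod 2) V).equivFun
  refine ⟨fun z => (fun i => toB (z (e (Sum.inl i))), B.symm fun k => z (e (Sum.inr k))),
    fun x k => Sum.elim (fun i => ofB (x.1 i)) (B x.2) (e.symm k), ?_, ?_⟩
  · rintro ⟨x, u⟩
    refine Prod.ext (funext fun i => ?_) ?_
    · simp only [Equiv.symm_apply_apply, Sum.elim_inl, toB_ofB]
    · simp only [Equiv.symm_apply_apply, Sum.elim_inr]
      exact B.symm_apply_apply u
  · intro x y
    refine Prod.ext (funext fun i => ?_) ?_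
    · simp only [bx, Pi.add_apply, toB_add]
    · exact (map_add B.symm _ _).symm ▸ rfl

theorem separationX (j : ℕ) : ∃ (m : ℕ) (f : (Fin m → ZMod 2) → Bool),
    2 ^ j ≤ m ∧ m ≤ 2 ^ (36 * j + 240) ∧
    QuantComputes (fun x y => f (x + y)) (2000000000 * (j + 1) ^ 3) ∧
      ∀ c ≤ 2 ^ j, ¬ RandComputes (fun x y => f (x + y)) c := by
  classical
  obtain ⟨n, hn⟩ : ∃ n, n = 2 * (3 * j + 20) := ⟨_, rfl⟩
  have hn40 : 40 ≤ n := by omega
  have hnR : (40 : ℝ) ≤ n := by exact_mod_cast hn40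
  let F := GaloisField 2 (5 * n)
  letI : Fintype F := Fintype.ofFinite F
  have hF : Fintype.card F = 2 ^ (5 * n) := by
    rw [← Nat.card_eq_fintype_card]
    exact GaloisField.card 2 (5 * n) (by omega)
  have h2 : (2 : F) = 0 := CharTwo.two_eq_zero
  have hN := sq_le_two_pow n hn40
  have hm : mN n = 2 ^ n * 2 ^ n := by simp [mN]
  have hpos : 0 < 2 ^ n := by positivity
  have h5n : 2 ^ (5 * n) = 2 ^ n * (2 ^ n * 2 ^ n * (2 ^ n * 2 ^ n)) := by rw [pow_mul']; ring
  have hbig : 57600 ≤ 2 ^ n := by nlinarith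
  obtain ⟨g, hg⟩ : ∃ g : F, ∀ a b : ℕ, a ≤ mN n → b ≤ mN n → g ^ a = g ^ b → a = b := by
    obtain ⟨g, hg⟩ := IsCyclic.exists_ofOrder_eq_natCard (α := Fˣ)
    rw [Nat.card_units, Nat.card_eq_fintype_card, hF] at hg
    have hlt : mN n < orderOf g := by
      rw [hg, hm, h5n]
      have h3 : 1 ≤ 2 ^ n * 2 ^ n := Nat.mul_pos hpos hpos
      generalize 2 ^ n * 2 ^ n = w at h3 ⊢
      have h4 : w ≤ w * w := Nat.le_mul_self w
      have h5 : 57600 * (w * w) ≤ 2 ^ n * (w * w) := Nat.mul_le_mul_right _ hbig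
      omega
    refine ⟨g, fun a b ha hb h => pow_injOn_Iio_orderOf (x := g) (lt_of_le_of_lt ha hlt)
      (lt_of_le_of_lt hb hlt) (Units.ext ?_)⟩
    simpa using h
  obtain ⟨φ, ψ, h3, h4⟩ := exists_coords (Bits n ⊕ Bits n) (Bits n → WX n F)
  have hrk : Module.finrank (ZMod 2) (Bits n → WX n F) = 2 ^ (5 * n) * (5 * n) := by
    rw [Module.finrank_pi_fintype, sum_const, Module.finrank_pi_fintype, sum_const,
      GaloisField.finrank 2 (by omega), h5n, card_univ, card_univ, Fintype.card_prod,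
      Fintype.card_fin, hm]
    simp [mul_assoc]
  have hcI : Fintype.card (Bits n ⊕ Bits n) = 2 ^ n + 2 ^ n := by simp
  let G := FF (goodC (n := n) (1 / 2 ^ (3 * j + 20)) (1 / (8 * n))) (piX g)
  have hG : ∀ x y, G (φ (x + y)) (fun _ => false, 0) = G (φ x) (φ y) := by
    intro x y
    have h5 : ∀ z : ZZ n, bx z (fun _ => false) = z := fun z => funext fun k => by simp [bx]
    rw [Bool.eq_iff_iff]
    simp only [G, FF_iff, goodC, piX, h4, h5, Pi.zero_apply, add_zero, Pi.add_apply]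
  refine ⟨_, fun z => G (φ z) (fun _ => false, 0), ?_, ?_, ?_, fun c hc hR => ?_⟩
  · rw [hcI]
    have : 2 ^ j ≤ 2 ^ n := Nat.pow_le_pow_right (by norm_num) (by omega)
    omega
  · rw [hcI, hrk, show 36 * j + 240 = 5 * n + n by omega, pow_add]
    have h5 : 2 ^ n ≤ 2 ^ (5 * n) := Nat.pow_le_pow_right (by norm_num) (by omega)
    have h6 : 5 * n + 2 ≤ 2 ^ n := by nlinarith
    have h7 := Nat.mul_le_mul_left (2 ^ (5 * n)) h6
    rw [mul_add] at h7
    omega
  · simp only [hG]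
    refine quant_comap φ φ G _ ?_
    obtain ⟨ρ, hρ⟩ : ∃ ρ : ℝ, ρ ^ 2 = 1 / 2 ^ (5 * n) :=
      ⟨√(1 / 2 ^ (5 * n)), Real.sq_sqrt (by positivity)⟩
    refine quant_mono _ ?_ (quant_upperX (n := n) h2 g hg (5 * n) (20 * n) (128 * n ^ 2)
      (1 / 2 ^ (3 * j + 20)) ρ (1 / (8 * n)) (by
        rw [Fintype.card_fin, hn, pow_mul' 2 2]
        field_simp) (by rw [Fintype.card_fin, hρ]; field_simp) (by positivity) hF.ge
      (by rw [hF, ← pow_mul]; exact le_of_eq (by ring))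
      (by
        push_cast
        exact le_of_eq (by field_simp; norm_num))
      (by
        rw [hm, h5n]
        generalize 2 ^ n * 2 ^ n * (2 ^ n * 2 ^ n) = w
        nlinarith))
    have h1 : n ≤ 40 * (j + 1) := by omega
    have h5 : n ^ 3 ≤ (40 * (j + 1)) ^ 3 := Nat.pow_le_pow_left h1 3
    rw [mul_pow] at h5
    have h6 : 1 ≤ (j + 1) ^ 3 := Nat.one_le_pow _ _ (by omega)
    have h7 : 9 * (128 * n ^ 2 * (n + (5 * n + 20 * n))) + 4 = 29952 * n ^ 3 + 4 := by ring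
    rw [h7]
    generalize (j + 1) ^ 3 = w at h5 h6 ⊢
    generalize n ^ 3 = u at h5 ⊢
    norm_num at h5
    linarith
  · simp only [hG] at hR
    have h5 := rand_comap ψ ψ _ c hR
    simp only [h3] at h5
    refine rand_lowerW j n hn (piX g) ?_ c hc h5
    have h6 : Fintype.card F ≤ Fintype.card (WX n F) := by
      rw [Fintype.card_fun]
      refine Nat.le_self_pow ?_ _
      rw [Fintype.card_prod, Fintype.card_fin, hm]
      positivity
    have h7 : 100 * 2 ^ n ≤ Fintype.card (WX n F) := by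
      refine le_trans ?_ h6
      rw [hF, h5n, mul_comm]
      refine Nat.mul_le_mul_left _ ?_
      have h8 : 100 ≤ 2 ^ n * 2 ^ n := by nlinarith
      exact h8.trans (Nat.le_mul_self _)
    exact_mod_cast h7

end Pool.Agent.Lib.MP_3bba25_lc
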