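import Mathlib
import Pool.Agent.Lib.MP_3bba25_lc.SinDens
import Pool.Agent.Lib.MP_3bba25_lc.MADefs
import Pool.Agent.Lib.MP_3bba25_lc.XorSep

set_option autoImplicit false
set_option linter.unusedSectionVars false

open Finset
open scoped BigOperators

namespace Pool.Agent.Lib.MP_3bba25_lc

variable {Z : Type} [Fintype Z] [Nonempty Z]
variable {L W : Type} [Fintype L] [DecidableEq L] [Nonempty L] [Fintype W] [AddCommGroup W]

lemma one_rect (D D' : L → Z → Z → ℝ) (π : L → Z → Z → W) (κ₀ δ₁ δ₂ τ lam : ℝ) (hδ₁ : 0 ≤ δ₁)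
    (hδ₂ : 0 ≤ δ₂) (hτ : 0 ≤ τ) (hτ1 : τ ≤ 1) (hl0 : 0 < lam) (hl1 : lam ≤ 1)
    (h0 : ∀ l x y, 0 ≤ D' l x y) (hle : ∀ l x y, D' l x y ≤ D l x y)
    (htr : ∀ l, Transfer (D l) δ₁ δ₂ τ) (hlo : ∀ l, LowT (D' l) κ₀ δ₁ δ₂ τ)
    (a b : Z × (L → W) → ℝ) (ha : ∀ x, 0 ≤ a x ∧ a x ≤ 1) (hb : ∀ x, 0 ≤ b x ∧ b x ≤ 1) :
    (κ₀ - 4 * lam - 16 * δ₁) * (𝔼 x, 𝔼 y, 𝔼 u, 𝔼 v, a (x, u) * b (y, v)) -
        (2 * (Real.exp (-(lam ^ 2 * Fintype.card L)) / (lam * Fintype.card L)) +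
          20 * (δ₁ * τ) + 4 * δ₂) ≤
      𝔼 l, P1 D' π (fun x y => a x * b y) l := by
  set κ := Real.exp (-(lam ^ 2 * Fintype.card L)) / (lam * Fintype.card L) with hκ
  have hκ0 : 0 ≤ κ := by positivity
  let α : Z → ℝ := fun x => 𝔼 u, a (x, u)
  let β : Z → ℝ := fun y => 𝔼 v, b (y, v)
  let d : L → Z → ℝ := fun l x => df (fun u => a (x, u)) l
  let e : L → Z → ℝ := fun l y => df (fun v => b (y, v)) l
  have hα0 : ∀ x, 0 ≤ α x := fun x => expect_nonneg fun _ _ => (ha _).1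
  have hβ0 : ∀ x, 0 ≤ β x := fun x => expect_nonneg fun _ _ => (hb _).1
  have hα1 : ∀ x, α x ≤ 1 := fun x => expect_le univ_nonempty fun _ _ => (ha _).2
  have hβ1 : ∀ x, β x ≤ 1 := fun x => expect_le univ_nonempty fun _ _ => (hb _).2
  have hd0 : ∀ l x, 0 ≤ d l x := fun l x => df_nonneg _ _
  have he0 : ∀ l x, 0 ≤ e l x := fun l x => df_nonneg _ _
  have hd1 : ∀ l x, d l x ≤ α x := fun l x => df_le (fun _ => (ha _).1) _
  have he1 : ∀ l x, e l x ≤ β x := fun l x => df_le (fun _ => (hb _).1) _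
  have hsum : 𝔼 x, 𝔼 y, 𝔼 u, 𝔼 v, a (x, u) * b (y, v) = (𝔼 x, α x) * 𝔼 y, β y := by
    simp only [α, β, expect_mul_expect]
  rw [hsum]
  set A := 𝔼 x, α x with hA
  set B := 𝔼 y, β y with hB
  have hA0 : 0 ≤ A := expect_nonneg fun _ _ => hα0 _
  have hB0 : 0 ≤ B := expect_nonneg fun _ _ => hβ0 _
  have hA1 : A ≤ 1 := expect_le univ_nonempty fun _ _ => hα1 _
  have hB1 : B ≤ 1 := expect_le univ_nonempty fun _ _ => hβ1 _
  have hE : δ₁ * ((2 * A + τ) * (2 * B + τ)) ≤ 4 * (δ₁ * (A * B)) + 5 * (δ₁ * τ) := by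
    have : (2 * A + τ) * (2 * B + τ) ≤ 4 * (A * B) + 5 * τ := by nlinarith
    nlinarith [mul_le_mul_of_nonneg_left this hδ₁]
  have h1 : ∀ l, κ₀ * (A * B) - (16 * (δ₁ * (A * B)) + 20 * (δ₁ * τ) + 4 * δ₂) -
      ((𝔼 x, d l x) * B + A * 𝔼 y, e l y) ≤ P1 D' π (fun x y => a x * b y) l := by
    intro l
    have k1 := hlo l α β hα0 hα1 hβ0 hβ1
    have k2 := htr l (d l) β (hd0 l) (fun x => (hd1 l x).trans (hα1 x)) hβ0 hβ1
    have k3 := htr l α (e l) hα0 hα1 (he0 l) (fun x => (he1 l x).trans (hβ1 x))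
    have k4 : 𝔼 x, d l x ≤ A := expect_le_expect fun x _ => hd1 l x
    have k5 : 𝔼 x, e l x ≤ B := expect_le_expect fun x _ => he1 l x
    have k6 : δ₁ * ((2 * 𝔼 z, d l z + τ) * (2 * B + τ)) ≤ δ₁ * ((2 * A + τ) * (2 * B + τ)) :=
      mul_le_mul_of_nonneg_left (mul_le_mul_of_nonneg_right (by linarith) (by positivity)) hδ₁
    have k7 : δ₁ * ((2 * A + τ) * (2 * 𝔼 z, e l z + τ)) ≤ δ₁ * ((2 * A + τ) * (2 * B + τ)) :=
      mul_le_mul_of_nonneg_left (mul_le_mul_of_nonneg_left (by linarith) (by positivity)) hδ₁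
    have k8 : ∀ x y, D' l x y * (α x * β y) - D l x y * (d l x * β y) - D l x y * (α x * e l y) ≤
        max (D' l x y) 0 *
          𝔼 u, 𝔼 v, a (x, u) * b (y, Function.update v l (π l x y - u l)) := by
      intro x y
      have := corr_lower (fun u => a (x, u)) (fun v => b (y, v)) (fun _ => (ha _).1)
        (fun _ => (hb _).1) l (π l x y)
      rw [max_eq_left (h0 l x y)]
      refine le_trans ?_ (mul_le_mul_of_nonneg_left this (h0 l x y))
      have m1 := mul_le_mul_of_nonneg_right (hle l x y) (mul_nonneg (hd0 l x) (hβ0 y))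
      have m2 := mul_le_mul_of_nonneg_right (hle l x y) (mul_nonneg (hα0 x) (he0 l y))
      simp only [α, β, d, e] at m1 m2 ⊢
      linarith
    refine le_trans ?_ (expect_le_expect fun x _ => expect_le_expect fun y _ => k8 x y)
    simp only [expect_sub_distrib]
    rw [← hA, ← hB] at k1
    rw [← hB] at k2
    rw [← hA] at k3
    linarith
  have h4 : 𝔼 l, 𝔼 x, d l x ≤ 2 * lam * A + κ := by
    rw [expect_comm, hA, mul_expect, ← Fintype.expect_const (ι := Z) κ, ← expect_add_distrib]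
    exact expect_le_expect fun x _ =>
      deficiency _ (fun _ => (ha _).1) (fun _ => (ha _).2) lam hl0 hl1
  have h5 : 𝔼 l, 𝔼 x, e l x ≤ 2 * lam * B + κ := by
    rw [expect_comm, hB, mul_expect, ← Fintype.expect_const (ι := Z) κ, ← expect_add_distrib]
    exact expect_le_expect fun x _ =>
      deficiency _ (fun _ => (hb _).1) (fun _ => (hb _).2) lam hl0 hl1
  refine le_trans ?_ (expect_le_expect fun l _ => h1 l)
  rw [expect_sub_distrib, Fintype.expect_const, expect_add_distrib, ← expect_mul, ← mul_expect]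
  nlinarith [mul_le_mul_of_nonneg_right h4 hB0, mul_le_mul_of_nonneg_left h5 hA0,
    mul_le_mul_of_nonneg_left hB1 hκ0, mul_le_mul_of_nonneg_left hA1 hκ0]

open Classical in
theorem corr_bound (D : L → Z → Z → ℝ) (good : L → Z → Z → Prop) (π : L → Z → Z → W)
    (κ₀ δ₁ δ₂ τ lam : ℝ) (hδ₁ : 0 ≤ δ₁) (hδ₂ : 0 ≤ δ₂) (hτ : 0 ≤ τ) (hτ1 : τ ≤ 1)
    (hl0 : 0 < lam) (hl1 : lam ≤ 1) (hκ : 0 ≤ κ₀ - 4 * lam - 16 * δ₁)
    (h0 : ∀ l x y, 0 ≤ D l x y) (hD : ∀ l, 𝔼 x, 𝔼 y, D l x y = 1)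
    (htr : ∀ l, Transfer (D l) δ₁ δ₂ τ)
    (hlo : ∀ l, LowT (fun x y => D l x y * if good l x y then 1 else 0) κ₀ δ₁ δ₂ τ)
    (hLW : (Fintype.card L : ℝ) ≤ Fintype.card W)
    {T : Type} [Fintype T] (w : T → ℝ) (hw : ∀ t, 0 ≤ w t) (M ε : ℝ) (hM : ∑ t, w t ≤ M)
    (hε : 0 ≤ ε) (a b : T → Z × (L → W) → ℝ) (ha : ∀ t x, 0 ≤ a t x ∧ a t x ≤ 1)
    (hb : ∀ t x, 0 ≤ b t x ∧ b t x ≤ 1)
    (hf : ∀ x y, FF good π x y = false → 1 ≤ ∑ t, w t * (a t x * b t y))
    (ht : ∀ x y, FF good π x y = true → ∑ t, w t * (a t x * b t y) ≤ ε) :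
    (κ₀ - 4 * lam - 16 * δ₁) * (1 - (Fintype.card L : ℝ) / Fintype.card W) ≤ ε +
      M * (2 * (Real.exp (-(lam ^ 2 * Fintype.card L)) / (lam * Fintype.card L)) +
          20 * (δ₁ * τ) + 4 * δ₂) := by
  set η := 2 * (Real.exp (-(lam ^ 2 * Fintype.card L)) / (lam * Fintype.card L)) +
    20 * (δ₁ * τ) + 4 * δ₂ with hη
  have hη0 : 0 ≤ η := by positivity
  let D' : L → Z → Z → ℝ := fun l x y => D l x y * if good l x y then 1 else 0
  have k0 : ∀ l x y, 0 ≤ D' l x y := fun l x y =>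
    mul_nonneg (h0 l x y) (by split_ifs <;> norm_num)
  have k1 : ∀ l x y, D' l x y ≤ D l x y := fun l x y =>
    mul_le_of_le_one_right (h0 l x y) (by split_ifs <;> norm_num)
  have k2 := sum_le_sum fun t (_ : t ∈ univ) => mul_le_mul_of_nonneg_left
    (one_rect D D' π κ₀ δ₁ δ₂ τ lam hδ₁ hδ₂ hτ hτ1 hl0 hl1 k0 k1 htr hlo (a t) (b t) (ha t) (hb t))
    (hw t)
  have k3 : ∑ t, w t * 𝔼 l, P1 D' π (fun x y => a t x * b t y) l ≤ ε := by
    simp only [mul_expect univ _ (w _)]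
    rw [← expect_sum_comm]
    refine expect_le univ_nonempty fun l _ => ?_
    rw [← P1_sum, P1, ← mul_one ε, ← hD l, mul_expect]
    refine expect_le_expect fun x _ => ?_
    rw [mul_expect]
    refine expect_le_expect fun y _ => ?_
    rw [max_eq_left (k0 l x y)]
    by_cases hg : good l x y
    · simp only [D', hg, if_true, mul_one]
      rw [mul_comm]
      refine mul_le_mul_of_nonneg_right (expect_le univ_nonempty fun u _ =>
        expect_le univ_nonempty fun v _ => ht _ _ ?_) (h0 l x y)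
      exact decide_eq_true ⟨l, hg, by simp⟩
    · simp only [D', hg, if_false, mul_zero, zero_mul]
      exact mul_nonneg hε (h0 l x y)
  have k4 := P0_ge (fun _ _ _ => 1) good π (by simp)
    (fun x y => 2 / 3 * ∑ t, w t * (a t x * b t y))
    (fun x y => mul_nonneg (by norm_num) (sum_nonneg fun t _ =>
      mul_nonneg (hw t) (mul_nonneg (ha _ _).1 (hb _ _).1)))
    (fun x y h => by linarith [hf x y h]) hLW (Classical.arbitrary L)
  simp only [P0, max_eq_left (zero_le_one' ℝ), one_mul, ← mul_expect univ _ (2 / 3 : ℝ),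
    expect_sum_comm, ← mul_expect univ _ (w _)] at k4
  simp only [mul_sub, sum_sub_distrib, ← sum_mul, mul_left_comm (w _), ← mul_sum] at k2
  have k5 := mul_le_mul_of_nonneg_right hM hη0
  have k6 := mul_le_mul_of_nonneg_left ((mul_le_mul_iff_right₀ (by norm_num)).mp k4) hκ
  linarith

lemma proto_not {X Y : Type} (P : Proto X Y) :
    ∃ P' : Proto X Y, (∀ x y, P'.run x y = !P.run x y) ∧ ∀ x y, P'.bits x y = P.bits x y := by
  induction P with
  | leaf o => exact ⟨Proto.leaf (!o), fun _ _ => rfl, fun _ _ => rfl⟩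
  | alice m l r ihl ihr =>
    obtain ⟨l', h1, h2⟩ := ihl
    obtain ⟨r', h3, h4⟩ := ihr
    refine ⟨Proto.alice m l' r', fun x y => ?_, fun x y => ?_⟩
    · rw [run_alice, run_alice, h1, h3]; split_ifs <;> rfl
    · rw [bits_alice, bits_alice, h2, h4]
  | bob m l r ihl ihr =>
    obtain ⟨l', h1, h2⟩ := ihl
    obtain ⟨r', h3, h4⟩ := ihr
    refine ⟨Proto.bob m l' r', fun x y => ?_, fun x y => ?_⟩
    · rw [run_bob, run_bob, h1, h3]; split_ifs <;> rfl
    · rw [bits_bob, bits_bob, h2, h4]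

/-- A Merlin-Arthur protocol as a weighted family of rectangles. -/
lemma ma_rects {X Y : Type} (f : X → Y → Bool) (c : ℕ) (h : MAComputes f c) :
    ∃ (T : Type) (_ : Fintype T) (w : T → ℝ) (a : T → X → ℝ) (b : T → Y → ℝ),
      (∀ t, 0 ≤ w t) ∧ ∑ t, w t ≤ 2 ^ ((c + 1) * (c + 8)) ∧
      (∀ t x, 0 ≤ a t x ∧ a t x ≤ 1) ∧ (∀ t y, 0 ≤ b t y ∧ b t y ≤ 1) ∧
      (∀ x y, f x y = true → 1 ≤ ∑ t, w t * (a t x * b t y)) ∧
      (∀ x y, f x y = false → ∑ t, w t * (a t x * b t y) ≤ 1 / 128) := by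
  classical
  obtain ⟨w, d, Ω, _, μ, P, hc, hμ0, hμ1, hb, ht, hf⟩ := h
  choose P' hP1 hP2 using fun s ω => proto_not (P s ω)
  choose T i a b h1 h2 h3 h4 using fun s ω => rects d (P' s ω)
  have h5 : ∀ s x y, ∑ q : Σ ω, T s ω, 3 / 2 * μ q.1 * (a s q.1 q.2 x * b s q.1 q.2 y) =
      3 / 2 * ∑ ω, if (P s ω).run x y = true then μ ω else 0 := by
    intro s x y
    rw [Fintype.sum_sigma, mul_sum]
    refine sum_congr rfl fun ω _ => ?_
    simp only
    rw [← mul_sum, h4 s ω x y (by rw [hP2]; exact hb _ _ _ _), hP1]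
    cases (P s ω).run x y <;> simp
  have h6 : ∀ (s : Fin w → Bool) (g : (Σ ω, T s ω) → ℝ),
      ∑ φ : Fin (w + 7) → Σ ω, T s ω, ∏ k, g (φ k) = (∑ q, g q) ^ (w + 7) := by
    intro s g
    rw [sum_pow', Fintype.piFinset_univ]
  have h7 : ∀ x y, ∑ t : Σ s : Fin w → Bool, Fin (w + 7) → Σ ω, T s ω,
      (∏ k, 3 / 2 * μ (t.2 k).1) * ((∏ k, a t.1 (t.2 k).1 (t.2 k).2 x) *
        ∏ k, b t.1 (t.2 k).1 (t.2 k).2 y) =
      ∑ s, (3 / 2 * ∑ ω, if (P s ω).run x y = true then μ ω else 0) ^ (w + 7) := by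
    intro x y
    rw [Fintype.sum_sigma]
    refine sum_congr rfl fun s _ => ?_
    rw [← h5, ← h6]
    simp only [← prod_mul_distrib]
  have h8 : ∀ s x y, 0 ≤ ∑ ω, if (P s ω).run x y = true then μ ω else 0 := fun s x y =>
    sum_nonneg fun ω _ => by split_ifs; exacts [hμ0 ω, le_rfl]
  refine ⟨Σ s : Fin w → Bool, Fin (w + 7) → Σ ω, T s ω, inferInstance,
    fun t => ∏ k, 3 / 2 * μ (t.2 k).1, fun t x => ∏ k, a t.1 (t.2 k).1 (t.2 k).2 x,
    fun t y => ∏ k, b t.1 (t.2 k).1 (t.2 k).2 y,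
    fun t => prod_nonneg fun k _ => mul_nonneg (by norm_num) (hμ0 _), ?_,
    fun t x => ⟨prod_nonneg fun k _ => (h2 _ _ _ _).1,
      prod_le_one (fun k _ => (h2 _ _ _ _).1) fun k _ => (h2 _ _ _ _).2⟩,
    fun t x => ⟨prod_nonneg fun k _ => (h3 _ _ _ _).1,
      prod_le_one (fun k _ => (h3 _ _ _ _).1) fun k _ => (h3 _ _ _ _).2⟩,
    fun x y hxy => ?_, fun x y hxy => ?_⟩
  · rw [Fintype.sum_sigma]
    have k1 : ∀ s, ∑ q : Σ ω, T s ω, 3 / 2 * μ q.1 ≤ 2 ^ (d + 1) := by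
      intro s
      rw [Fintype.sum_sigma, ← mul_one ((2 : ℝ) ^ (d + 1)), ← hμ1, mul_sum]
      refine sum_le_sum fun ω _ => ?_
      have k2 : (Fintype.card (T s ω) : ℝ) ≤ 2 ^ d := by exact_mod_cast h1 s ω
      simp only [sum_const, card_univ, nsmul_eq_mul]
      rw [pow_succ]
      nlinarith [mul_le_mul_of_nonneg_right k2 (hμ0 ω), mul_nonneg (pow_nonneg zero_le_two d) (hμ0 ω)]
    refine (sum_le_sum fun s _ => (h6 s fun q => 3 / 2 * μ q.1).le.trans (pow_le_pow_left₀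
      (sum_nonneg fun q _ => mul_nonneg (by norm_num) (hμ0 _)) (k1 s) _)).trans ?_
    rw [sum_const, card_univ, nsmul_eq_mul, Fintype.card_fun, Fintype.card_bool, Fintype.card_fin]
    push_cast
    rw [← pow_mul, ← pow_add]
    refine pow_le_pow_right₀ (by norm_num) ?_
    have k3 : (d + 1) * (w + 7) ≤ (c + 1) * (c + 7) := Nat.mul_le_mul (by omega) (by omega)
    nlinarith
  · rw [h7]
    obtain ⟨s, hs⟩ := ht x y hxy
    refine le_trans (one_le_pow₀ (by linarith)) (single_le_sum (f := fun s =>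
      (3 / 2 * ∑ ω, if (P s ω).run x y = true then μ ω else 0) ^ (w + 7))
      (fun s _ => pow_nonneg (mul_nonneg (by norm_num) (h8 s x y)) _) (mem_univ s))
  · rw [h7]
    refine (sum_le_sum fun s _ => pow_le_pow_left₀ (mul_nonneg (by norm_num) (h8 s x y))
      (show _ ≤ (1 : ℝ) / 2 by linarith [hf x y hxy s]) _).trans (le_of_eq ?_)
    rw [sum_const, card_univ, nsmul_eq_mul, Fintype.card_fun, Fintype.card_bool, Fintype.card_fin]
    push_cast
    rw [pow_add, ← mul_assoc, ← mul_pow]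
    norm_num

lemma ma_comap {X Y X' Y' : Type} (φ : X' → X) (ψ : Y' → Y) (f : X → Y → Bool) (c : ℕ)
    (h : MAComputes f c) : MAComputes (fun x y => f (φ x) (ψ y)) c := by
  obtain ⟨w, d, Ω, i, μ, P, hc, h1, h2, h3, h4, h5⟩ := h
  choose P' k1 k2 using fun s ω => proto_comap φ ψ (P s ω)
  refine ⟨w, d, Ω, i, μ, P', hc, h1, h2, fun s ω x y => ?_, fun x y h => ?_, fun x y h => ?_⟩
  · rw [k2]; exact h3 _ _ _ _
  · simp only [k1]; exact h4 _ _ h
  · simp only [k1]; exact h5 _ _ h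

lemma ma_of_rand {X Y : Type} (f : X → Y → Bool) (c : ℕ) (h : RandComputes f c) :
    MAComputes f c := by
  obtain ⟨A, B, _, _, μ, ν, P, hμ0, hμ1, hν0, hν1, hb, hc⟩ := h
  choose P' k1 k2 using fun ω : A × B =>
    proto_comap (fun x : X => (x, ω.1)) (fun y : Y => (y, ω.2)) P
  have hw : ∑ ω : A × B, μ ω.1 * ν ω.2 = 1 := by
    rw [Fintype.sum_prod_type, ← sum_mul_sum, hμ1, hν1, one_mul]
  refine ⟨0, c, A × B, inferInstance, fun ω => μ ω.1 * ν ω.2, fun _ => P', by omega,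
    fun ω => mul_nonneg (hμ0 _) (hν0 _), hw, fun s ω x y => ?_, fun x y h => ⟨default, ?_⟩,
    fun x y h s => ?_⟩
  · rw [k2]; exact hb _ _ _ _
  · have := hc x y
    rw [h] at this
    simpa only [k1, Fintype.sum_prod_type] using this
  · have h1 := hc x y
    rw [h] at h1
    have h2 : (∑ p, ∑ q, if P.run (x, p) (y, q) = false then μ p * ν q else 0) +
        ∑ ω : A × B, (if (P' ω).run x y = true then μ ω.1 * ν ω.2 else 0) = 1 := by
      rw [← hw, Fintype.sum_prod_type, Fintype.sum_prod_type, ← sum_add_distrib]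
      refine sum_congr rfl fun p _ => ?_
      rw [← sum_add_distrib]
      refine sum_congr rfl fun q _ => ?_
      rw [k1]
      cases P.run (x, p) (y, q) <;> simp
    linarith

lemma quant_not {X Y : Type} (f : X → Y → Bool) (c : ℕ) (h : QuantComputes f c) :
    QuantComputes (fun x y => !f x y) (c + 1) := by
  obtain ⟨A, B, i1, i2, i3, i4, a₀, b₀, t, ht, h⟩ := h
  have hσ : Function.Involutive fun s : Bool × B => (!s.1, s.2) := by
    rintro ⟨b, s⟩
    simp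
  refine ⟨A, B, i1, i2, i3, i4, a₀, b₀, t ++ [Sum.inr (toU (pm _) (orth_pm _ hσ.injective))],
    by simpa using ht, fun x y => ?_⟩
  simp only [List.foldl_append, List.foldl_cons, List.foldl_nil, qstep_permB, Bool.not_not]
  exact h x y

end Pool.Agent.Lib.MP_3bba25_lc
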