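import Mathlib
import Pool.Agent.Lib.MP_3bba25_lc.Corr

set_option autoImplicit false
set_option linter.unusedSectionVars false

open Finset
open scoped BigOperators

namespace Pool.Agent.Lib.MP_3bba25_lc

theorem ma_lower (j n : ℕ) (hn : n = 2 * (12 * j + 60)) {W : Type} [Fintype W] [AddCommGroup W]
    (π : Bits n → ZZ n → ZZ n → W) (hcardW : (100 : ℝ) * 2 ^ n ≤ Fintype.card W)
    (c : ℕ) (hc : c ≤ 2 ^ j) :
    ¬ MAComputes (fun x y => !FF (goodC (n := n) (1 / 2 ^ (12 * j + 60)) (1 / 24)) π x y) c := by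
  classical
  intro hR
  obtain ⟨T, _, w, a, b, hw, hM, ha, hb, ht, hf⟩ := ma_rects _ c hR
  set γ : ℝ := 1 / 2 ^ (12 * j + 60) with hγdef
  set C : ℕ := (c + 1) * (c + 8) with hC
  have hγ : γ ^ 2 * 2 ^ Fintype.card (Fin n) = 1 := by
    rw [Fintype.card_fin, hn, hγdef, pow_mul' 2 2]
    field_simp
  have hγ0 : 0 ≤ γ := by positivity
  have hγ1 : γ ≤ 1 := by
    rw [hγdef, div_le_one (by positivity)]
    exact one_le_pow₀ (by norm_num)
  have hcard : (Fintype.card (Bits n) : ℝ) = 2 ^ n := by simp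
  have hNpos : (0 : ℝ) < 2 ^ n := by positivity
  have hj1 : 1 ≤ 2 ^ j := Nat.one_le_two_pow
  have hjj : j ≤ 2 ^ j * 2 ^ j := Nat.lt_two_pow_self.le.trans (Nat.le_mul_self _)
  have hj2 : 1 ≤ 2 ^ j * 2 ^ j := Nat.mul_pos hj1 hj1
  have hC1 : C ≤ 18 * (2 ^ j * 2 ^ j) := by
    have : (c + 1) * (c + 8) ≤ (2 * 2 ^ j) * (9 * 2 ^ j) := Nat.mul_le_mul (by omega) (by omega)
    linarith
  have hK : ((C + n + 14 : ℕ) : ℝ) ≤ 176 * (2 ^ j * 2 ^ j) := by
    exact_mod_cast (show C + n + 14 ≤ 176 * (2 ^ j * 2 ^ j) by omega)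
  have hC2 : (C : ℝ) + 1 ≤ 19 * (2 ^ j * 2 ^ j) := by
    exact_mod_cast (show C + 1 ≤ 19 * (2 ^ j * 2 ^ j) by omega)
  have htr := fun l : Bits n => transfer_ds (orth_GG γ hγ l) γ (abs_GG γ hγ0 l) hγ0 hγ1
    (by rw [hcard, mul_comm, ← hγ, Fintype.card_fin]) (C + n + 14) C (1 / 2 ^ (C + 11))
    (by
      have e1 : (1 : ℝ) ≤ 2 ^ j * 2 ^ j := by exact_mod_cast hj2
      have e2 : γ * ((2 ^ j * 2 ^ j) ^ 6 * 2 ^ 60) = 1 := by
        rw [hγdef, ← pow_add, ← pow_mul, ← pow_add, show (j + j) * 6 + 60 = 12 * j + 60 by ring]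
        field_simp
      generalize (2 : ℝ) ^ j * 2 ^ j = t at e1 e2 hK hC2
      have e3 := pow_le_pow_left₀ (by positivity) hK 2
      have e4 := pow_le_pow_left₀ (by positivity) hC2 2
      have e5 : ((C + n + 14 : ℕ) : ℝ) ^ 2 + 1 ≤ 2 * (176 * t) ^ 2 := by nlinarith
      have e6 := mul_le_mul (mul_le_mul e5 (mul_le_mul_of_nonneg_right e3 hγ0) (by positivity)
        (by positivity)) (mul_le_mul_of_nonneg_left e4 (show (0 : ℝ) ≤ 16 by norm_num))
        (by positivity) (by positivity)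
      have e7 : 0 ≤ γ * t ^ 6 := by positivity
      nlinarith)
    (by
      rw [hcard, div_le_div_iff₀ (by positivity) (by positivity),
        show C + n + 14 = n + (C + 11) + 3 by omega, pow_add _ (n + (C + 11)) 3, pow_add _ n]
      have : (0 : ℝ) ≤ 2 ^ n * 2 ^ (C + 11) := by positivity
      nlinarith [mul_le_mul_of_nonneg_left hγ1 this])
  have hτ : (2 : ℝ) ^ C * (2 / 4 ^ (C + 1)) ≤ 1 / 2 := by
    rw [← mul_div_assoc, div_le_div_iff₀ (by positivity) (by norm_num), pow_succ,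
      show (4 : ℝ) = 2 * 2 by norm_num, mul_pow]
    have : (1 : ℝ) ≤ 2 ^ C := one_le_pow₀ (by norm_num)
    nlinarith
  have key := corr_bound (fun (l : Bits n) (x y : ZZ n) => ds (GG γ l) (bx x y))
    (goodC γ (1 / 24)) π (13 / 264) (1 / 1000) (1 / 2 ^ (C + 11)) (2 / 4 ^ (C + 1)) (1 / 1000)
    (by norm_num) (by positivity) (by positivity)
    (by
      have : (1 : ℝ) ≤ 2 ^ C := one_le_pow₀ (by norm_num)
      nlinarith [mul_le_mul_of_nonneg_right this (show (0 : ℝ) ≤ 2 / 4 ^ (C + 1) by positivity)])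
    (by norm_num) (by norm_num) (by norm_num) (fun l x y => ds_nonneg _ _)
    (fun l => by rw [expect_expect_bx (ds (GG γ l)), expect_ds]) (fun l => (htr l).1)
    (fun l => by
      have := (htr l).2
      refine cast (congrArg (fun D => LowT D _ _ _ _) ?_) this
      funext x y
      by_cases h : 1 / 24 ≤ Phi (GG γ l) (bx x y)
      · rw [if_pos h, if_pos (show goodC γ (1 / 24) l x y from h)]
      · rw [if_neg h, if_neg (show ¬ goodC γ (1 / 24) l x y from h)])
    (by rw [hcard]; linarith) w hw _ (1 / 128) hM (by norm_num) a b ha hb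
    (fun x y h => ht x y (by simp only [h, Bool.not_false]))
    (fun x y h => hf x y (by simp only [h, Bool.not_true]))
  rw [hcard] at key
  have b1 : (2 : ℝ) ^ n / Fintype.card W ≤ 1 / 100 := by
    rw [div_le_div_iff₀ (by linarith) (by norm_num)]
    linarith
  have b2 : (2 : ℝ) ^ C * (1 / 2 ^ (C + 11)) ≤ 1 / 1000 := by
    rw [pow_add, mul_one_div, div_le_div_iff₀ (by positivity) (by norm_num)]
    have : (0 : ℝ) ≤ 2 ^ C := by positivity
    nlinarith
  have b3 : (2 : ℝ) ^ C * (Real.exp (-((1 / 1000) ^ 2 * 2 ^ n)) / (1 / 1000 * 2 ^ n)) ≤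
      1 / 1000 := by
    have h1 : (2 : ℝ) ^ C ≤ Real.exp C := by
      rw [← mul_one (C : ℝ), Real.exp_nat_mul]
      exact pow_le_pow_left₀ (by norm_num) (by linarith [Real.add_one_le_exp 1]) C
    have h2 : (19000000 : ℝ) * (2 ^ j * 2 ^ j) ≤ 2 ^ n := by
      rw [hn, show 2 * (12 * j + 60) = j + j + (22 * j + 120) by ring, pow_add, pow_add, mul_comm]
      refine mul_le_mul_of_nonneg_left ?_ (by positivity)
      exact le_trans (by norm_num)
        (pow_le_pow_right₀ (by norm_num) (show 120 ≤ 22 * j + 120 by omega))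
    have h3 : (2 : ℝ) ^ C * Real.exp (-((1 / 1000) ^ 2 * 2 ^ n)) ≤ 1 := by
      refine (mul_le_mul_of_nonneg_right h1 (Real.exp_pos _).le).trans ?_
      rw [← Real.exp_add, Real.exp_le_one_iff]
      linarith
    rw [← mul_div_assoc, div_le_div_iff₀ (by positivity) (by norm_num)]
    linarith [Nat.cast_nonneg (α := ℝ) C]
  linarith

theorem separationMA (j : ℕ) : ∃ (m : ℕ) (f : (Fin m → ZMod 2) → Bool),
    2 ^ j ≤ m ∧ m ≤ 2 ^ (144 * j + 720) ∧
    QuantComputes (fun x y => f (x + y)) (40000000 * (j + 1)) ∧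
      ∀ c ≤ 2 ^ j, ¬ MAComputes (fun x y => f (x + y)) c := by
  classical
  obtain ⟨n, hn⟩ : ∃ n, n = 2 * (12 * j + 60) := ⟨_, rfl⟩
  have hn40 : 40 ≤ n := by omega
  let F := GaloisField 2 (5 * n)
  letI : Fintype F := Fintype.ofFinite F
  have hF : Fintype.card F = 2 ^ (5 * n) := by
    rw [← Nat.card_eq_fintype_card]
    exact GaloisField.card 2 (5 * n) (by omega)
  have h2 : (2 : F) = 0 := CharTwo.two_eq_zero
  have hN := sq_le_two_pow n hn40
  have hm : mN n = 2 ^ n * 2 ^ n := by simp [mN]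
  have hpos : 0 < 2 ^ n := by positivity
  have h5n : 2 ^ (5 * n) = 2 ^ n * (2 ^ n * 2 ^ n * (2 ^ n * 2 ^ n)) := by rw [pow_mul']; ring
  have hbig : 57600 ≤ 2 ^ n := by nlinarith
  obtain ⟨g, hg⟩ : ∃ g : F, ∀ a b : ℕ, a ≤ mN n → b ≤ mN n → g ^ a = g ^ b → a = b := by
    obtain ⟨g, hg⟩ := IsCyclic.exists_ofOrder_eq_natCard (α := Fˣ)
    rw [Nat.card_units, Nat.card_eq_fintype_card, hF] at hg
    have hlt : mN n < orderOf g := by
      rw [hg, hm, h5n]
      have h3 : 1 ≤ 2 ^ n * 2 ^ n := Nat.mul_pos hpos hpos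
      generalize 2 ^ n * 2 ^ n = w at h3 ⊢
      have h4 : w ≤ w * w := Nat.le_mul_self w
      have h5 : 57600 * (w * w) ≤ 2 ^ n * (w * w) := Nat.mul_le_mul_right _ hbig
      omega
    refine ⟨g, fun a b ha hb h => pow_injOn_Iio_orderOf (x := g) (lt_of_le_of_lt ha hlt)
      (lt_of_le_of_lt hb hlt) (Units.ext ?_)⟩
    simpa using h
  obtain ⟨φ, ψ, h3, h4⟩ := exists_coords (Bits n ⊕ Bits n) (Bits n → WX n F)
  have hrk : Module.finrank (ZMod 2) (Bits n → WX n F) = 2 ^ (5 * n) * (5 * n) := by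
    rw [Module.finrank_pi_fintype, sum_const, Module.finrank_pi_fintype, sum_const,
      GaloisField.finrank 2 (by omega), h5n, card_univ, card_univ, Fintype.card_prod,
      Fintype.card_fin, hm]
    simp [mul_assoc]
  have hcI : Fintype.card (Bits n ⊕ Bits n) = 2 ^ n + 2 ^ n := by simp
  let G := FF (goodC (n := n) (1 / 2 ^ (12 * j + 60)) (1 / 24)) (piX g)
  have hG : ∀ x y, G (φ (x + y)) (fun _ => false, 0) = G (φ x) (φ y) := by
    intro x y
    have h5 : ∀ z : ZZ n, bx z (fun _ => false) = z := fun z => funext fun k => by simp [bx]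
    rw [Bool.eq_iff_iff]
    simp only [G, FF_iff, goodC, piX, h4, h5, Pi.zero_apply, add_zero, Pi.add_apply]
  refine ⟨_, fun z => !G (φ z) (fun _ => false, 0), ?_, ?_, ?_, fun c hc hR => ?_⟩
  · rw [hcI]
    have : 2 ^ j ≤ 2 ^ n := Nat.pow_le_pow_right (by norm_num) (by omega)
    omega
  · rw [hcI, hrk, show 144 * j + 720 = 5 * n + n by omega, pow_add]
    have h5 : 2 ^ n ≤ 2 ^ (5 * n) := Nat.pow_le_pow_right (by norm_num) (by omega)
    have h6 : 5 * n + 2 ≤ 2 ^ n := by nlinarith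
    have h7 := Nat.mul_le_mul_left (2 ^ (5 * n)) h6
    rw [mul_add] at h7
    omega
  · simp only [hG]
    refine quant_comap φ φ (fun x y => !G x y) _ ?_
    obtain ⟨ρ, hρ⟩ : ∃ ρ : ℝ, ρ ^ 2 = 1 / 2 ^ (5 * n) :=
      ⟨√(1 / 2 ^ (5 * n)), Real.sq_sqrt (by positivity)⟩
    refine quant_mono _ ?_ (quant_not _ _ (quant_upperX (n := n) h2 g hg (5 * n) (20 * n) 1152
      (1 / 2 ^ (12 * j + 60)) ρ (1 / 24) (by
        rw [Fintype.card_fin, hn, pow_mul' 2 2]
        field_simp) (by rw [Fintype.card_fin, hρ]; field_simp) (by positivity) hF.ge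
      (by rw [hF, ← pow_mul]; exact le_of_eq (by ring)) (by norm_num)
      (by
        rw [hm, h5n]
        generalize 2 ^ n * 2 ^ n * (2 ^ n * 2 ^ n) = w
        nlinarith)))
    omega
  · simp only [hG] at hR
    have h5 := ma_comap ψ ψ _ c hR
    simp only [h3] at h5
    refine ma_lower j n hn (piX g) ?_ c hc h5
    have h6 : Fintype.card F ≤ Fintype.card (WX n F) := by
      rw [Fintype.card_fun]
      refine Nat.le_self_pow ?_ _
      rw [Fintype.card_prod, Fintype.card_fin, hm]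
      positivity
    have h7 : 100 * 2 ^ n ≤ Fintype.card (WX n F) := by
      refine le_trans ?_ h6
      rw [hF, h5n, mul_comm]
      refine Nat.mul_le_mul_left _ ?_
      have h8 : 100 ≤ 2 ^ n * 2 ^ n := by nlinarith
      exact h8.trans (Nat.le_mul_self _)
    exact_mod_cast h7

end Pool.Agent.Lib.MP_3bba25_lc
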