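import Mathlib
import Pool.Agent.Lib.MP_3bba25_lc.Corr

set_option autoImplicit false
set_option linter.unusedSectionVars false

open Finset
open scoped BigOperators

namespace Pool.Agent.Lib.MP_3bba25_lc

section
variable {Z : Type} [Fintype Z] [Nonempty Z]
variable {L W : Type} [Fintype L] [DecidableEq L] [Nonempty L] [Fintype W] [AddCommGroup W]

lemma mono_dens (a b : Z × (L → W) → ℝ) :
    𝔼 x, 𝔼 y, 𝔼 u, 𝔼 v, a (x, u) * b (y, v) = (𝔼 z, a z) * 𝔼 z, b z := by
  have h : ∀ c : Z × (L → W) → ℝ, 𝔼 z, c z = 𝔼 x, 𝔼 u, c (x, u) := fun c => by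
    rw [← univ_product_univ, expect_product]
  simp only [h, expect_mul_expect]

open Classical in
lemma mono_false (D : L → Z → Z → ℝ) (good : L → Z → Z → Prop) (π : L → Z → Z → W)
    (κ₀ δ₁ δ₂ τ lam : ℝ) (hδ₁ : 0 ≤ δ₁) (hδ₂ : 0 ≤ δ₂) (hτ : 0 ≤ τ) (hτ1 : τ ≤ 1)
    (hl0 : 0 < lam) (hl1 : lam ≤ 1) (h0 : ∀ l x y, 0 ≤ D l x y)
    (htr : ∀ l, Transfer (D l) δ₁ δ₂ τ)
    (hlo : ∀ l, LowT (fun x y => D l x y * if good l x y then 1 else 0) κ₀ δ₁ δ₂ τ)
    (a b : Z × (L → W) → ℝ) (ha : ∀ x, 0 ≤ a x ∧ a x ≤ 1) (hb : ∀ x, 0 ≤ b x ∧ b x ≤ 1)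
    (ht : ∀ x y, FF good π x y = true → a x * b y = 0) :
    (κ₀ - 4 * lam - 16 * δ₁) * ((𝔼 z, a z) * 𝔼 z, b z) ≤
      2 * (Real.exp (-(lam ^ 2 * Fintype.card L)) / (lam * Fintype.card L)) +
          20 * (δ₁ * τ) + 4 * δ₂ := by
  let D' : L → Z → Z → ℝ := fun l x y => D l x y * if good l x y then 1 else 0
  have k0 : ∀ l x y, 0 ≤ D' l x y := fun l x y =>
    mul_nonneg (h0 l x y) (by split_ifs <;> norm_num)
  have k1 : ∀ l x y, D' l x y ≤ D l x y := fun l x y =>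
    mul_le_of_le_one_right (h0 l x y) (by split_ifs <;> norm_num)
  have k2 := one_rect D D' π κ₀ δ₁ δ₂ τ lam hδ₁ hδ₂ hτ hτ1 hl0 hl1 k0 k1 htr hlo a b ha hb
  have k3 : 𝔼 l, P1 D' π (fun x y => a x * b y) l ≤ 0 := by
    refine expect_le univ_nonempty fun l _ => expect_le univ_nonempty fun x _ =>
      expect_le univ_nonempty fun y _ => ?_
    rw [max_eq_left (k0 l x y)]
    by_cases hg : good l x y
    · refine mul_nonpos_of_nonneg_of_nonpos (k0 l x y) (expect_le univ_nonempty fun u _ =>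
        expect_le univ_nonempty fun v _ => le_of_eq (ht _ _ ?_))
      exact decide_eq_true ⟨l, hg, by simp⟩
    · simp only [D', hg, if_false, mul_zero, zero_mul, le_refl]
  rw [mono_dens] at k2
  linarith

lemma mono_true (good : L → Z → Z → Prop) (π : L → Z → Z → W)
    (hLW : (Fintype.card L : ℝ) ≤ Fintype.card W)
    (a b : Z × (L → W) → ℝ) (ha : ∀ x, 0 ≤ a x ∧ a x ≤ 1) (hb : ∀ x, 0 ≤ b x ∧ b x ≤ 1)
    (hf : ∀ x y, FF good π x y = false → a x * b y = 0) :
    (𝔼 z, a z) * 𝔼 z, b z ≤ (Fintype.card L : ℝ) / Fintype.card W := by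
  have k4 := P0_ge (fun _ _ _ => 1) good π (by simp) (fun x y => 2 / 3 * (1 - a x * b y))
    (fun x y => mul_nonneg (by norm_num)
      (sub_nonneg.2 (mul_le_one₀ (ha x).2 (hb y).1 (hb y).2)))
    (fun x y h => by rw [hf x y h]; norm_num) hLW (Classical.arbitrary L)
  simp only [P0, max_eq_left (zero_le_one' ℝ), one_mul, ← mul_expect univ _ (2 / 3 : ℝ),
    expect_sub_distrib, Fintype.expect_const] at k4
  rw [mono_dens] at k4
  linarith

end

theorem mono_lower (j n : ℕ) (hn : n = 2 * (12 * j + 60)) {W : Type} [Fintype W] [AddCommGroup W]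
    (π : Bits n → ZZ n → ZZ n → W) (a b : ZZ n × (Bits n → W) → ℝ)
    (ha : ∀ x, 0 ≤ a x ∧ a x ≤ 1) (hb : ∀ x, 0 ≤ b x ∧ b x ≤ 1)
    (ht : ∀ x y, FF (goodC (n := n) (1 / 2 ^ (12 * j + 60)) (1 / 24)) π x y = true →
      a x * b y = 0) :
    (2 : ℝ) ^ (2 ^ j * 2 ^ j) * ((𝔼 z, a z) * 𝔼 z, b z) ≤ 1 := by
  classical
  set γ : ℝ := 1 / 2 ^ (12 * j + 60) with hγdef
  set C : ℕ := 2 ^ j * 2 ^ j with hC
  have hγ : γ ^ 2 * 2 ^ Fintype.card (Fin n) = 1 := by
    rw [Fintype.card_fin, hn, hγdef, pow_mul' 2 2]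
    field_simp
  have hγ0 : 0 ≤ γ := by positivity
  have hγ1 : γ ≤ 1 := by
    rw [hγdef, div_le_one (by positivity)]
    exact one_le_pow₀ (by norm_num)
  have hcard : (Fintype.card (Bits n) : ℝ) = 2 ^ n := by simp
  have hNpos : (0 : ℝ) < 2 ^ n := by positivity
  have hj1 : 1 ≤ 2 ^ j := Nat.one_le_two_pow
  have hjj : j ≤ 2 ^ j * 2 ^ j := Nat.lt_two_pow_self.le.trans (Nat.le_mul_self _)
  have hj2 : 1 ≤ 2 ^ j * 2 ^ j := Nat.mul_pos hj1 hj1
  have hK : ((C + n + 14 : ℕ) : ℝ) ≤ 176 * (2 ^ j * 2 ^ j) := by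
    exact_mod_cast (show C + n + 14 ≤ 176 * (2 ^ j * 2 ^ j) by omega)
  have hC2 : (C : ℝ) + 1 ≤ 19 * (2 ^ j * 2 ^ j) := by
    exact_mod_cast (show C + 1 ≤ 19 * (2 ^ j * 2 ^ j) by omega)
  have htr := fun l : Bits n => transfer_ds (orth_GG γ hγ l) γ (abs_GG γ hγ0 l) hγ0 hγ1
    (by rw [hcard, mul_comm, ← hγ, Fintype.card_fin]) (C + n + 14) C (1 / 2 ^ (C + 11))
    (by
      have e1 : (1 : ℝ) ≤ 2 ^ j * 2 ^ j := by exact_mod_cast hj2
      have e2 : γ * ((2 ^ j * 2 ^ j) ^ 6 * 2 ^ 60) = 1 := by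
        rw [hγdef, ← pow_add, ← pow_mul, ← pow_add, show (j + j) * 6 + 60 = 12 * j + 60 by ring]
        field_simp
      generalize (2 : ℝ) ^ j * 2 ^ j = t at e1 e2 hK hC2
      have e3 := pow_le_pow_left₀ (by positivity) hK 2
      have e4 := pow_le_pow_left₀ (by positivity) hC2 2
      have e5 : ((C + n + 14 : ℕ) : ℝ) ^ 2 + 1 ≤ 2 * (176 * t) ^ 2 := by nlinarith
      have e6 := mul_le_mul (mul_le_mul e5 (mul_le_mul_of_nonneg_right e3 hγ0) (by positivity)
        (by positivity)) (mul_le_mul_of_nonneg_left e4 (show (0 : ℝ) ≤ 16 by norm_num))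
        (by positivity) (by positivity)
      have e7 : 0 ≤ γ * t ^ 6 := by positivity
      nlinarith)
    (by
      rw [hcard, div_le_div_iff₀ (by positivity) (by positivity),
        show C + n + 14 = n + (C + 11) + 3 by omega, pow_add _ (n + (C + 11)) 3, pow_add _ n]
      have : (0 : ℝ) ≤ 2 ^ n * 2 ^ (C + 11) := by positivity
      nlinarith [mul_le_mul_of_nonneg_left hγ1 this])
  have hτ : (2 : ℝ) ^ C * (2 / 4 ^ (C + 1)) ≤ 1 / 2 := by
    rw [← mul_div_assoc, div_le_div_iff₀ (by positivity) (by norm_num), pow_succ,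
      show (4 : ℝ) = 2 * 2 by norm_num, mul_pow]
    have : (1 : ℝ) ≤ 2 ^ C := one_le_pow₀ (by norm_num)
    nlinarith
  have key := mono_false (fun (l : Bits n) (x y : ZZ n) => ds (GG γ l) (bx x y))
    (goodC γ (1 / 24)) π (13 / 264) (1 / 1000) (1 / 2 ^ (C + 11)) (2 / 4 ^ (C + 1)) (1 / 1000)
    (by norm_num) (by positivity) (by positivity)
    (by
      have : (1 : ℝ) ≤ 2 ^ C := one_le_pow₀ (by norm_num)
      nlinarith [mul_le_mul_of_nonneg_right this (show (0 : ℝ) ≤ 2 / 4 ^ (C + 1) by positivity)])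
    (by norm_num) (by norm_num) (fun l x y => ds_nonneg _ _) (fun l => (htr l).1)
    (fun l => by
      have := (htr l).2
      refine cast (congrArg (fun D => LowT D _ _ _ _) ?_) this
      funext x y
      by_cases h : 1 / 24 ≤ Phi (GG γ l) (bx x y)
      · rw [if_pos h, if_pos (show goodC γ (1 / 24) l x y from h)]
      · rw [if_neg h, if_neg (show ¬ goodC γ (1 / 24) l x y from h)])
    a b ha hb ht
  rw [hcard] at key
  have b2 : (2 : ℝ) ^ C * (1 / 2 ^ (C + 11)) ≤ 1 / 1000 := by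
    rw [pow_add, mul_one_div, div_le_div_iff₀ (by positivity) (by norm_num)]
    have : (0 : ℝ) ≤ 2 ^ C := by positivity
    nlinarith
  have b3 : (2 : ℝ) ^ C * (Real.exp (-((1 / 1000) ^ 2 * 2 ^ n)) / (1 / 1000 * 2 ^ n)) ≤
      1 / 1000 := by
    have h1 : (2 : ℝ) ^ C ≤ Real.exp C := by
      rw [← mul_one (C : ℝ), Real.exp_nat_mul]
      exact pow_le_pow_left₀ (by norm_num) (by linarith [Real.add_one_le_exp 1]) C
    have h2 : (19000000 : ℝ) * (2 ^ j * 2 ^ j) ≤ 2 ^ n := by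
      rw [hn, show 2 * (12 * j + 60) = j + j + (22 * j + 120) by ring, pow_add, pow_add, mul_comm]
      refine mul_le_mul_of_nonneg_left ?_ (by positivity)
      exact le_trans (by norm_num)
        (pow_le_pow_right₀ (by norm_num) (show 120 ≤ 22 * j + 120 by omega))
    have h3 : (2 : ℝ) ^ C * Real.exp (-((1 / 1000) ^ 2 * 2 ^ n)) ≤ 1 := by
      refine (mul_le_mul_of_nonneg_right h1 (Real.exp_pos _).le).trans ?_
      rw [← Real.exp_add, Real.exp_le_one_iff]
      linarith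
    rw [← mul_div_assoc, div_le_div_iff₀ (by positivity) (by norm_num)]
    linarith [Nat.cast_nonneg (α := ℝ) C]
  have k := mul_le_mul_of_nonneg_left key (show (0 : ℝ) ≤ 2 ^ C by positivity)
  linarith

theorem separationMono (j : ℕ) : ∃ (m : ℕ) (f : (Fin m → ZMod 2) → Bool),
    2 ^ j ≤ m ∧ m ≤ 2 ^ (144 * j + 720) ∧
    QuantComputes (fun x y => f (x + y)) (40000000 * (j + 1)) ∧
      ∀ (A B : Finset (Fin m → ZMod 2)) (c : Bool), (∀ x ∈ A, ∀ y ∈ B, f (x + y) = c) →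
        A.card * B.card * 2 ^ 4 ^ j ≤ 4 ^ m := by
  classical
  obtain ⟨n, hn⟩ : ∃ n, n = 2 * (12 * j + 60) := ⟨_, rfl⟩
  have hn40 : 40 ≤ n := by omega
  let F := GaloisField 2 (5 * n)
  letI : Fintype F := Fintype.ofFinite F
  have hF : Fintype.card F = 2 ^ (5 * n) := by
    rw [← Nat.card_eq_fintype_card]
    exact GaloisField.card 2 (5 * n) (by omega)
  have h2 : (2 : F) = 0 := CharTwo.two_eq_zero
  have hN := sq_le_two_pow n hn40
  have hm : mN n = 2 ^ n * 2 ^ n := by simp [mN]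
  have hpos : 0 < 2 ^ n := by positivity
  have h5n : 2 ^ (5 * n) = 2 ^ n * (2 ^ n * 2 ^ n * (2 ^ n * 2 ^ n)) := by rw [pow_mul']; ring
  have hbig : 57600 ≤ 2 ^ n := by nlinarith
  obtain ⟨g, hg⟩ : ∃ g : F, ∀ a b : ℕ, a ≤ mN n → b ≤ mN n → g ^ a = g ^ b → a = b := by
    obtain ⟨g, hg⟩ := IsCyclic.exists_ofOrder_eq_natCard (α := Fˣ)
    rw [Nat.card_units, Nat.card_eq_fintype_card, hF] at hg
    have hlt : mN n < orderOf g := by
      rw [hg, hm, h5n]
      have h3 : 1 ≤ 2 ^ n * 2 ^ n := Nat.mul_pos hpos hpos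
      generalize 2 ^ n * 2 ^ n = w at h3 ⊢
      have h4 : w ≤ w * w := Nat.le_mul_self w
      have h5 : 57600 * (w * w) ≤ 2 ^ n * (w * w) := Nat.mul_le_mul_right _ hbig
      omega
    refine ⟨g, fun a b ha hb h => pow_injOn_Iio_orderOf (x := g) (lt_of_le_of_lt ha hlt)
      (lt_of_le_of_lt hb hlt) (Units.ext ?_)⟩
    simpa using h
  obtain ⟨φ, ψ, h3, h4⟩ := exists_coords (Bits n ⊕ Bits n) (Bits n → WX n F)
  have hbij : Function.Bijective ψ := by
    refine (Fintype.bijective_iff_injective_and_card ψ).2 ⟨Function.LeftInverse.injective h3, ?_⟩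
    rw [Fintype.card_prod, Module.card_eq_pow_finrank (K := ZMod 2) (V := Bits n → WX n F),
      Fintype.card_fun, Fintype.card_fun (α := Fin _), Fintype.card_fin, ZMod.card, pow_add,
      Fintype.card_bool]
  have hrk : Module.finrank (ZMod 2) (Bits n → WX n F) = 2 ^ (5 * n) * (5 * n) := by
    rw [Module.finrank_pi_fintype, sum_const, Module.finrank_pi_fintype, sum_const,
      GaloisField.finrank 2 (by omega), h5n, card_univ, card_univ, Fintype.card_prod,
      Fintype.card_fin, hm]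
    simp [mul_assoc]
  have hcI : Fintype.card (Bits n ⊕ Bits n) = 2 ^ n + 2 ^ n := by simp
  let G := FF (goodC (n := n) (1 / 2 ^ (12 * j + 60)) (1 / 24)) (piX g)
  have hG : ∀ x y, G (φ (x + y)) (fun _ => false, 0) = G (φ x) (φ y) := by
    intro x y
    have h5 : ∀ z : ZZ n, bx z (fun _ => false) = z := fun z => funext fun k => by simp [bx]
    rw [Bool.eq_iff_iff]
    simp only [G, FF_iff, goodC, piX, h4, h5, Pi.zero_apply, add_zero, Pi.add_apply]
  refine ⟨_, fun z => !G (φ z) (fun _ => false, 0), ?_, ?_, ?_, fun A B c hc => ?_⟩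
  · rw [hcI]
    have : 2 ^ j ≤ 2 ^ n := Nat.pow_le_pow_right (by norm_num) (by omega)
    omega
  · rw [hcI, hrk, show 144 * j + 720 = 5 * n + n by omega, pow_add]
    have h5 : 2 ^ n ≤ 2 ^ (5 * n) := Nat.pow_le_pow_right (by norm_num) (by omega)
    have h6 : 5 * n + 2 ≤ 2 ^ n := by nlinarith
    have h7 := Nat.mul_le_mul_left (2 ^ (5 * n)) h6
    rw [mul_add] at h7
    omega
  · simp only [hG]
    refine quant_comap φ φ (fun x y => !G x y) _ ?_
    obtain ⟨ρ, hρ⟩ : ∃ ρ : ℝ, ρ ^ 2 = 1 / 2 ^ (5 * n) :=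
      ⟨√(1 / 2 ^ (5 * n)), Real.sq_sqrt (by positivity)⟩
    refine quant_mono _ ?_ (quant_not _ _ (quant_upperX (n := n) h2 g hg (5 * n) (20 * n) 1152
      (1 / 2 ^ (12 * j + 60)) ρ (1 / 24) (by
        rw [Fintype.card_fin, hn, pow_mul' 2 2]
        field_simp) (by rw [Fintype.card_fin, hρ]; field_simp) (by positivity) hF.ge
      (by rw [hF, ← pow_mul]; exact le_of_eq (by ring)) (by norm_num)
      (by
        rw [hm, h5n]
        generalize 2 ^ n * 2 ^ n * (2 ^ n * 2 ^ n) = w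
        nlinarith)))
    omega
  · simp only [hG] at hc
    generalize Fintype.card (Bits n ⊕ Bits n) + Module.finrank (ZMod 2) (Bits n → WX n F) = m
      at φ ψ h3 hbij A B hc ⊢
    let ind : Finset (Fin m → ZMod 2) → ZZ n × (Bits n → WX n F) → ℝ :=
      fun S z => if ψ z ∈ S then 1 else 0
    have i1 : ∀ S z, 0 ≤ ind S z ∧ ind S z ≤ 1 := fun S z => by
      simp only [ind]; split_ifs <;> norm_num
    have i2 : ∀ S, 𝔼 z, ind S z = (S.card : ℝ) / 2 ^ m := fun S => by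
      rw [Fintype.expect_bijective ψ hbij (ind S) (fun x => if x ∈ S then 1 else 0) fun _ => rfl,
        Fintype.expect_eq_sum_div_card]
      simp
    have i3 : ∀ x y, G x y = c → ind A x * ind B y = 0 := fun x y e => by
      by_cases p : ψ x ∈ A
      · by_cases q : ψ y ∈ B
        · have := hc _ p _ q
          rw [h3, h3, e] at this
          cases c <;> simp at this
        · simp [ind, q]
      · simp [ind, p]
    have key : (2 : ℝ) ^ (2 ^ j * 2 ^ j) * ((𝔼 z, ind A z) * 𝔼 z, ind B z) ≤ 1 := by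
      cases c
      · have h6 : 2 ^ (2 ^ j * 2 ^ j) * 2 ^ n ≤ Fintype.card (WX n F) := by
          rw [Fintype.card_fun, hF, ← pow_mul, ← pow_add, Fintype.card_prod, Fintype.card_fin, hm]
          refine Nat.pow_le_pow_right (by norm_num) ?_
          have h7 : 2 ^ j * 2 ^ j ≤ 2 ^ n := by
            rw [← pow_add]
            exact Nat.pow_le_pow_right (by norm_num) (by omega)
          have h8 : 2 ^ n ≤ 2 ^ n * 2 ^ n * (2 ^ n * 2 ^ n) :=
            (Nat.le_mul_self _).trans (Nat.le_mul_self _)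
          generalize 2 ^ n * 2 ^ n * (2 ^ n * 2 ^ n) = w at h8 ⊢
          nlinarith
        have h7 : (2 : ℝ) ^ (2 ^ j * 2 ^ j) * 2 ^ n ≤ Fintype.card (WX n F) := by
          exact_mod_cast h6
        have h8 : (1 : ℝ) ≤ 2 ^ (2 ^ j * 2 ^ j) := one_le_pow₀ (by norm_num)
        have h9 : (0 : ℝ) < 2 ^ n := by positivity
        have hcard : (Fintype.card (Bits n) : ℝ) = 2 ^ n := by simp
        have k := mono_true _ (piX g) (by rw [hcard]; nlinarith) _ _ (i1 A) (i1 B) i3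
        rw [hcard] at k
        refine (mul_le_mul_of_nonneg_left k (by positivity)).trans ?_
        rw [← mul_div_assoc, div_le_one (by nlinarith)]
        exact h7
      · exact mono_lower j n hn (piX g) _ _ (i1 A) (i1 B) i3
    rw [i2, i2, div_mul_div_comm, ← mul_div_assoc, div_le_one (by positivity), ← mul_pow,
      ← mul_pow] at key
    have k2 : ((A.card * B.card * 2 ^ 4 ^ j : ℕ) : ℝ) ≤ ((4 ^ m : ℕ) : ℝ) := by
      push_cast
      norm_num at key
      linarith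
    exact_mod_cast k2

end Pool.Agent.Lib.MP_3bba25_lc
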