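import Mathlib

set_option autoImplicit false

open Finset

namespace Pool.Agent.Lib.MP_3bba25_lc

/-- A deterministic protocol tree with an NP oracle: a node asks whether the input lies in a
union of `2 ^ k` rectangles. -/
inductive NPTree (X Y : Type) : Type
  | leaf (out : Bool) : NPTree X Y
  | ask (k : ℕ) (A : Fin (2 ^ k) → X → Bool) (B : Fin (2 ^ k) → Y → Bool)
      (l r : NPTree X Y) : NPTree X Y

/-- The output of an oracle tree. -/
noncomputable def NPTree.run {X Y : Type} (T : NPTree X Y) (x : X) (y : Y) : Bool :=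
  NPTree.rec (motive := fun _ => Bool) (fun out => out)
    (fun _ A B _ _ l r => if ∃ i, A i x = true ∧ B i y = true then r else l) T

/-- The cost: the largest sum of `k + 1` along a path from the root to a leaf. -/
noncomputable def NPTree.cost {X Y : Type} (T : NPTree X Y) : ℕ :=
  NPTree.rec (motive := fun _ => ℕ) (fun _ => 0) (fun k _ _ _ _ l r => k + 1 + max l r) T

lemma half_left {X : Type} (N : ℕ) (hN : 0 < N) (S : Finset X) (P : Fin N → X → Bool)
    (I : Fin N → Prop) (h : ∀ i, I i → 2 * N * (S.filter fun x => P i x = true).card ≤ S.card) :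
    ∃ S₀ ⊆ S, (∀ x ∈ S₀, ∀ i, I i → P i x ≠ true) ∧ S.card ≤ 2 * S₀.card := by
  classical
  refine ⟨S.filter fun x => ∀ i, I i → P i x ≠ true, filter_subset _ _,
    fun x hx => (mem_filter.1 hx).2, ?_⟩
  have h1 : S ⊆ (S.filter fun x => ∀ i, I i → P i x ≠ true) ∪
      (univ.filter I).biUnion fun i => S.filter fun x => P i x = true := by
    intro x hx
    by_cases e : ∀ i, I i → P i x ≠ true
    · exact mem_union_left _ (mem_filter.2 ⟨hx, e⟩)
    · push Not at e
      obtain ⟨i, hi, e⟩ := e
      exact mem_union_right _ (mem_biUnion.2 ⟨i, by simpa using hi, mem_filter.2 ⟨hx, e⟩⟩)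
  have h2 := (card_le_card h1).trans ((card_union_le _ _).trans
    (Nat.add_le_add_left card_biUnion_le _))
  have h3 : 2 * N * ∑ i ∈ univ.filter I, (S.filter fun x => P i x = true).card ≤ N * S.card := by
    rw [mul_sum]
    refine (sum_le_card_nsmul _ _ _ fun i hi => h i (mem_filter.1 hi).2).trans ?_
    exact Nat.mul_le_mul_right _ ((card_filter_le _ _).trans (by simp))
  have h4 : 2 * ∑ i ∈ univ.filter I, (S.filter fun x => P i x = true).card ≤ S.card :=
    Nat.le_of_mul_le_mul_left (by linarith) hN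
  omega

theorem NPTree.rect {X Y : Type} (T : NPTree X Y) (S : Finset X) (U : Finset Y) :
    ∃ S' ⊆ S, ∃ U' ⊆ U, ∃ c, (∀ x ∈ S', ∀ y ∈ U', T.run x y = c) ∧
      S.card ≤ 2 ^ T.cost * S'.card ∧ U.card ≤ 2 ^ T.cost * U'.card := by
  classical
  induction T generalizing S U with
  | leaf c => exact ⟨S, subset_rfl, U, subset_rfl, c, fun _ _ _ _ => rfl, by simp [cost],
      by simp [cost]⟩
  | ask k A B t₀ t₁ ih₀ ih₁ =>
    show ∃ S' ⊆ S, ∃ U' ⊆ U, ∃ c, (∀ x ∈ S', ∀ y ∈ U',
      (if ∃ i, A i x = true ∧ B i y = true then t₁.run x y else t₀.run x y) = c) ∧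
      S.card ≤ 2 ^ (k + 1 + max t₀.cost t₁.cost) * S'.card ∧
      U.card ≤ 2 ^ (k + 1 + max t₀.cost t₁.cost) * U'.card
    have step : ∀ a b d e f : ℕ, e ≤ k + 1 → f ≤ max t₀.cost t₁.cost → a ≤ 2 ^ e * b →
        b ≤ 2 ^ f * d → a ≤ 2 ^ (k + 1 + max t₀.cost t₁.cost) * d := fun a b d e f he hf p q => by
      refine p.trans ((Nat.mul_le_mul_left _ q).trans ?_)
      rw [← mul_assoc, ← pow_add]
      exact Nat.mul_le_mul_right _ (Nat.pow_le_pow_right (by norm_num) (by omega))
    by_cases h : ∃ i, S.card ≤ 2 ^ (k + 1) * (S.filter fun x => A i x = true).card ∧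
        U.card ≤ 2 ^ (k + 1) * (U.filter fun y => B i y = true).card
    · obtain ⟨i, p, q⟩ := h
      obtain ⟨S', hS, U', hU, c, hc, p', q'⟩ :=
        ih₁ (S.filter fun x => A i x = true) (U.filter fun y => B i y = true)
      refine ⟨S', hS.trans (filter_subset _ _), U', hU.trans (filter_subset _ _), c,
        fun x hx y hy => ?_, step _ _ _ _ _ le_rfl (le_max_right _ _) p p',
        step _ _ _ _ _ le_rfl (le_max_right _ _) q q'⟩
      rw [if_pos ⟨i, (mem_filter.1 (hS hx)).2, (mem_filter.1 (hU hy)).2⟩]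
      exact hc x hx y hy
    · push Not at h
      let I : Fin (2 ^ k) → Prop := fun i =>
        2 * 2 ^ k * (S.filter fun x => A i x = true).card ≤ S.card
      obtain ⟨S₀, s1, s2, p⟩ := half_left _ (by positivity) S A I fun i hi => hi
      obtain ⟨U₀, u1, u2, q⟩ := half_left _ (by positivity) U B (fun i => ¬ I i) fun i hi => by
        have := h i (by rw [pow_succ']; exact (not_le.1 hi).le)
        rw [pow_succ'] at this
        exact this.le
      obtain ⟨S', hS, U', hU, c, hc, p', q'⟩ := ih₀ S₀ U₀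
      refine ⟨S', hS.trans s1, U', hU.trans u1, c,
        fun x hx y hy => ?_, step _ _ _ 1 _ (by omega) (le_max_left _ _) p p',
        step _ _ _ 1 _ (by omega) (le_max_left _ _) q q'⟩
      rw [if_neg]
      · exact hc x hx y hy
      · rintro ⟨i, a, b⟩
        by_cases e : I i
        · exact s2 x (hS hx) i e a
        · exact u2 y (hU hy) i e b

end Pool.Agent.Lib.MP_3bba25_lc
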