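import Mathlib
import Pool.Agent.Lib.MP_3bba25_lc.Mono
import Pool.Agent.Lib.MP_3bba25_lc.NPTree

set_option autoImplicit false

namespace Pool.Agent.Lib.MP_3bba25_lc

/-- The oracle-tree corollary of the rectangle bound. -/
theorem separationNP (j : ℕ) : ∃ (m : ℕ) (f : (Fin m → ZMod 2) → Bool),
    2 ^ j ≤ m ∧ m ≤ 2 ^ (144 * j + 720) ∧
    QuantComputes (fun x y => f (x + y)) (40000000 * (j + 1)) ∧
    (∀ (A B : Finset (Fin m → ZMod 2)) (c : Bool), (∀ x ∈ A, ∀ y ∈ B, f (x + y) = c) →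
      A.card * B.card * 2 ^ 4 ^ j ≤ 4 ^ m) ∧
    (∃ T : NPTree (Fin m → ZMod 2) (Fin m → ZMod 2), ∀ x y, T.run x y = f (x + y)) ∧
    ∀ T : NPTree (Fin m → ZMod 2) (Fin m → ZMod 2), (∀ x y, T.run x y = f (x + y)) →
      4 ^ j ≤ 2 * T.cost := by
  obtain ⟨m, f, h1, h2, h3, h4⟩ := separationMono j
  have hc : Fintype.card (Fin m → ZMod 2) = 2 ^ m := by simp
  refine ⟨m, f, h1, h2, h3, h4, ?_, fun T hT => ?_⟩
  · let e := Fintype.equivFinOfCardEq hc
    refine ⟨.ask m (fun i x => decide (e x = i)) (fun i y => f (e.symm i + y)) (.leaf false)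
      (.leaf true), fun x y => ?_⟩
    show (if ∃ i, decide (e x = i) = true ∧ f (e.symm i + y) = true then true else false) = _
    cases h : f (x + y) <;> simp [h]
  · obtain ⟨S, -, U, -, c, k1, k2, k3⟩ := T.rect Finset.univ Finset.univ
    rw [Finset.card_univ, hc] at k2 k3
    have k4 := h4 S U c fun x hx y hy => (hT x y).symm.trans (k1 x hx y hy)
    have k5 : 4 ^ m ≤ S.card * U.card * 2 ^ (2 * T.cost) := by
      have := Nat.mul_le_mul k2 k3
      rw [← mul_pow] at this
      refine this.trans (le_of_eq ?_)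
      ring
    have k6 : 0 < S.card * U.card := by
      rcases Nat.eq_zero_or_pos (S.card * U.card) with h | h
      · rw [h, zero_mul] at k5
        exact absurd k5 (by simp)
      · exact h
    exact (Nat.pow_le_pow_iff_right (by norm_num)).1
      (Nat.le_of_mul_le_mul_left (k4.trans k5) k6)

end Pool.Agent.Lib.MP_3bba25_lc
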